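import Pool.Agent.H466.HP.Stm4

/-!
# Lower bound to the right of the line, from the saddle points
-/

set_option autoImplicit false

open Complex MeasureTheory Filter Topology Set
open scoped ComplexConjugate

namespace Pool.Agent.H466.HP

open Pool.Agent.H466.HF Pool.Agent.H466.LD
open Pool.Agent.H862.VK (Yz)

/-- symmetry of the heat flow -/
lemma Flam_fe (lam : ℝ) (z : ℂ) : LL gk lam (-conj z) = conj (LL gk lam z) := by
  unfold LL
  rw [← integral_conj,
    ← integral_neg_eq_self (fun u : ℝ => conj (gk u * cexp ((lam : ℂ) * (u : ℂ) ^ 2 + z * u)))]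
  refine integral_congr_ae (Eventually.of_forall fun u => ?_)
  simp only [gk]
  rw [map_mul, conj_ofReal, Helper242.KK.Ph_even, ← Complex.exp_conj]
  congr 2
  simp

/-- growth on all horizontal half lines -/
lemma gr_all {δ : ℝ} (hδ : 0 < δ) : ∃ T0 : ℝ, 10 ≤ T0 ∧ ∀ T lam : ℝ, T0 ≤ T → 0 < lam →
    lam * Real.log T ≤ δ → ∀ t0 : ℝ, ∃ ℒ B K : ℝ, Gr (LL gk 0) t0 ℒ B K lam := by
  obtain ⟨A, K, μ0, Q, T00, hK46, hμ0, hT00, k, hdata⟩ := far_data
  have hK0 : 0 < K := by linarith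
  refine ⟨max T00 (Real.exp (16 * K * δ + 1)), hT00.trans (le_max_left _ _), ?_⟩
  intro T lam hT hlam hl t0
  have hTT : T00 ≤ T := (le_max_left _ _).trans hT
  have hT10 : 10 ≤ T := hT00.trans hTT
  have hL : 16 * K * δ + 1 ≤ Real.log T := by
    rw [Real.le_log_iff_exp_le (by linarith)]
    exact (le_max_right _ _).trans hT
  have hKδ : 0 < 16 * K * δ := by positivity
  obtain ⟨C, -⟩ := hdata T T hTT le_rfl (by linarith)
  have hΓ := C.Γpos
  have hℒ := C.ℒ1
  refine ⟨Real.log T / 2, ‖gz ((T : ℂ) * I)‖ *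
    Real.exp (Real.log T / 2 * μ0 + K * (1 + (t0 - T) ^ 2)), K, (k.differentiable 0).continuous,
    hK0.le, by positivity, by linarith, hlam, ?_, fun v hv => ?_⟩
  · have h1 : 16 * K * lam * Real.log T ≤ 1 * Real.log T := by
      have e : 16 * K * lam * Real.log T = 16 * K * (lam * Real.log T) := by ring
      have h2 := mul_le_mul_of_nonneg_left hl (show 0 ≤ 16 * K by positivity)
      rw [e]
      linarith
    exact le_of_mul_le_mul_right h1 (by linarith)
  · refine (C.up _).trans (le_of_eq ?_)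
    have e1 : ((v : ℂ) + (t0 : ℂ) * I).re = v := by simp
    have e2 : ((v : ℂ) + (t0 : ℂ) * I).im = t0 := by simp
    rw [e1, e2, abs_of_nonneg hv, mul_assoc, ← Real.exp_add]
    congr 2
    ring

/-- the splitting at the height `t0` -/
lemma split0 {A t0 lam ℒ B K : ℝ} (k : Kern gk A 1) (G : Gr (LL gk 0) t0 ℒ B K lam) (w : ℂ) :
    LL gk lam w = AA (LL gk 0) t0 lam (w - (t0 : ℂ) * I) +
      conj (AA (LL gk 0) t0 lam (-conj (w - (t0 : ℂ) * I))) := by
  have h := split k G LL_gk_fe (w - (t0 : ℂ) * I)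
  rw [add_sub_cancel] at h
  exact h

/-- size of the integrand at the saddle point -/
lemma Ev_norm {t0 lam s0 : ℝ} (hlam : 0 < lam) {w p0 : ℂ}
    (hp : ((s0 : ℂ) - w) / (2 * lam) = p0) :
    ‖Ev t0 lam w s0‖ = ‖LL gk 0 ((s0 : ℂ) + (t0 : ℂ) * I)‖ * Real.exp (-(lam * (p0 ^ 2).re)) := by
  have hl : (lam : ℂ) ≠ 0 := by exact_mod_cast hlam.ne'
  have e : (s0 : ℂ) - w = 2 * lam * p0 := by
    rw [← hp]
    field_simp
  unfold Ev
  rw [norm_mul, e, Complex.norm_exp]
  congr 2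
  have e2 : -(2 * (lam : ℂ) * p0) ^ 2 / (4 * lam) = (lam : ℝ) * (-(p0 ^ 2)) := by
    field_simp
    ring
  rw [e2, re_ofReal_mul, neg_re]
  ring

lemma exp_2316 : Real.exp (-(23 / 16)) ≤ 3 / 10 := by
  have h1 := Real.quadratic_le_exp_of_nonneg (show (0 : ℝ) ≤ 23 / 16 by norm_num)
  rw [Real.exp_neg, inv_eq_one_div, div_le_iff₀ (Real.exp_pos _)]
  linarith

theorem low (h1 : S_SAD) (h2 : S_HALF) : S_LOW := by
  intro δ κ1 hδ hκ1
  obtain ⟨A, -, -, -, -, -, -, -, k, -⟩ := far_data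
  obtain ⟨κ, T1, hκ, hκκ, hT1, hsad⟩ := h1 δ (min κ1 (1 / 1000)) hδ (lt_min hκ1 (by norm_num))
  obtain ⟨T2, hT2, hgr⟩ := gr_all hδ
  have hκa : κ ≤ κ1 := hκκ.trans (min_le_left _ _)
  have hκb : κ ≤ 1 / 1000 := hκκ.trans (min_le_right _ _)
  refine ⟨κ, max T1 T2, hκ, hκa, hT1.trans (le_max_left _ _), ?_⟩
  intro T t y0 lam hT ht1 ht2 hy0 hR hlam hA hl w hw1 hw2 hw3 hw4
  have b1 : T1 ≤ T := (le_max_left _ _).trans hT
  have b2 : T2 ≤ T := (le_max_right _ _).trans hT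
  have hT10 : 10 ≤ T := hT1.trans b1
  set L := Real.log T with hL
  have hLp : 0 < L := by rw [hL]; exact Real.log_pos (by linarith)
  have hwp : 0 < w.re := by
    by_contra hcon
    push Not at hcon
    have : w.re * L ≤ 0 := mul_nonpos_of_nonpos_of_nonneg hcon hLp.le
    linarith
  obtain ⟨s0, t0, D, hp⟩ := hsad T t y0 lam b1 ht1 ht2 hy0 hR hlam hA hl w hwp.le hw2 hw3 hw4
  obtain ⟨ℒ, B, K, G⟩ := hgr T lam b2 hlam hl t0
  set w' : ℂ := w - (t0 : ℂ) * I with hw'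
  have hwre : w'.re = w.re := by rw [hw']; simp
  obtain ⟨e1, e2, -⟩ := h2 t0 lam w' (w.re + lam * L) s0 (min κ1 (1 / 1000)) D (min_le_right _ _)
    (le_min hκ1.le (by norm_num)) (by rw [hwre]; exact hwp.le)
  set Ω := ‖Ev t0 lam w' s0‖ with hΩ
  have hΩp : 0 < Ω := norm_pos_iff.mpr D.ne
  have hsp := split0 k G w
  rw [← hw'] at hsp
  have hexp : Real.exp (-((w.re + lam * L) * w'.re / (16 * lam))) ≤ 3 / 10 := by
    refine le_trans (Real.exp_le_exp.mpr ?_) exp_2316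
    rw [hwre, neg_le_neg_iff, div_le_div_iff₀ (by norm_num) (by positivity)]
    have h3 : lam * 23 ≤ lam * (w.re * L) := mul_le_mul_of_nonneg_left hw1 hlam.le
    nlinarith [mul_pos hwp hwp]
  have hlow : Ω / 2 ≤ ‖LL gk lam w‖ := by
    have h3 : ‖AA (LL gk 0) t0 lam (-conj w')‖ ≤ (1 / 20 + 11 / 10 * (3 / 10)) * Ω := by
      refine e2.trans (mul_le_mul_of_nonneg_right ?_ hΩp.le)
      linarith
    have h4 : Ω - 1 / 20 * Ω ≤ ‖AA (LL gk 0) t0 lam w'‖ := by
      have := norm_sub_norm_le (Ev t0 lam w' s0) (AA (LL gk 0) t0 lam w')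
      rw [norm_sub_rev] at this
      linarith
    have h5 : ‖AA (LL gk 0) t0 lam w'‖ - ‖AA (LL gk 0) t0 lam (-conj w')‖ ≤ ‖LL gk lam w‖ := by
      rw [hsp]
      have := norm_sub_le (AA (LL gk 0) t0 lam w' + conj (AA (LL gk 0) t0 lam (-conj w')))
        (conj (AA (LL gk 0) t0 lam (-conj w')))
      rw [add_sub_cancel_right, Complex.norm_conj] at this
      linarith
    linarith
  refine ⟨?_, (s0 : ℂ) + (t0 : ℂ) * I, ?_, ?_⟩
  · rw [← norm_pos_iff]
    linarith
  · have e : (s0 : ℂ) + (t0 : ℂ) * I - w - ((lam * L : ℝ) : ℂ) =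
        (2 * lam : ℝ) * (((s0 : ℂ) - w') / (2 * lam) - (L / 2 : ℝ)) := by
      have hlc : (lam : ℂ) ≠ 0 := by exact_mod_cast hlam.ne'
      rw [hw']
      push_cast
      field_simp
      ring
    rw [e, norm_mul, Complex.norm_real, Real.norm_of_nonneg (by positivity)]
    have h3 := mul_le_mul_of_nonneg_left hp (show 0 ≤ 2 * lam by positivity)
    refine h3.trans ?_
    have h4 : 2 * lam * (κ * L) = 2 * κ * (lam * L) := by ring
    rw [h4]
    have : 0 ≤ lam * L := by positivity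
    nlinarith
  · refine le_trans ?_ hlow
    apply div_le_div_of_nonneg_right _ (by norm_num)
    rw [hΩ, Ev_norm hlam rfl]
    apply mul_le_mul_of_nonneg_left _ (norm_nonneg _)
    apply Real.exp_le_exp.mpr
    rw [neg_le_neg_iff]
    apply mul_le_mul_of_nonneg_left _ hlam.le
    refine (Complex.re_le_norm _).trans ?_
    rw [norm_pow]
    have h3 : ‖((s0 : ℂ) - w') / (2 * lam)‖ ≤ L := by
      have h4 := norm_le_norm_sub_add (((s0 : ℂ) - w') / (2 * lam)) ((L / 2 : ℝ) : ℂ)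
      rw [Complex.norm_real, Real.norm_of_nonneg (by positivity)] at h4
      have h5 : κ * L ≤ 1 / 1000 * L := mul_le_mul_of_nonneg_right hκb hLp.le
      linarith
    exact pow_le_pow_left₀ (norm_nonneg _) h3 2

end Pool.Agent.H466.HP
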