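import Pool.Agent.H466.HP.Stm
import Pool.Agent.H194.MV.B3
import Pool.Graph.R_seed8.H370R2.PC3

/-!
# Project HP (helper466): the prime side is small on the whole cone for most points (helper120)
-/

set_option autoImplicit false

namespace Pool.Agent.H120.HP

open Complex MeasureTheory Set Filter Topology Metric
open Pool.Agent.H466.HP
open scoped ENNReal

lemma lamC_le (n : ℕ) : ‖H370.A2.lamC n‖ ≤ ArithmeticFunction.vonMangoldt n :=
  (H370.A2.lamC_norm n).le

/-- joint continuity of the prime side -/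
lemma PP_joint : Continuous (fun p : ℝ × ℝ => H370.PP H370.A2.lamC p.1 p.2) := by
  rw [continuous_iff_continuousAt]
  intro p₀
  have h : ContinuousOn (fun p : ℝ × ℝ => H370.PP H370.A2.lamC p.1 p.2)
      {p : ℝ × ℝ | p.1 < p₀.1 + 1} := by
    simp_rw [H370.PP_eq]
    refine continuousOn_tsum
      (u := fun n : ℕ => 2 * Real.exp (2 + 2 * (p₀.1 + 1)) * (1 / (n : ℝ) ^ 2))
      (fun n => ?_) (H370.sum_inv_sq.mul_left _) (fun n p hp => ?_)
    · unfold H370.pterm
      fun_prop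
    · rw [H370.norm_pterm]
      refine (H370.pt_le lamC_le p.1 n).trans ?_
      have : p.1 < p₀.1 + 1 := hp
      gcongr
  exact h.continuousAt ((isOpen_lt continuous_fst continuous_const).mem_nhds (by
    show p₀.1 < p₀.1 + 1
    linarith))

lemma wt_cont (U : ℝ) : Continuous (wt U) := by
  unfold wt
  fun_prop

lemma Dp_joint (U : ℝ) : Continuous (fun p : ℂ × ℝ => Dp U (p.1 + I * p.2) p.2) := by
  unfold Dp
  refine intervalIntegral.continuous_parametric_intervalIntegral_of_continuous' ?_ 0 U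
  have h1 := wt_cont U
  have h2 : Continuous (fun q : (ℂ × ℝ) × ℝ => H370.PP H370.A2.lamC q.2 q.1.2) :=
    PP_joint.comp (f := fun q : (ℂ × ℝ) × ℝ => ((q.2, q.1.2) : ℝ × ℝ)) (by fun_prop)
  have h3 : Continuous (fun q : (ℂ × ℝ) × ℝ => ((wt U q.2 : ℝ) : ℂ) *
      cexp (-(q.2 * (q.1.1 + I * q.1.2))) * H370.PP H370.A2.lamC q.2 q.1.2) := by
    refine Continuous.mul (Continuous.mul ?_ ?_) h2
    · exact continuous_ofReal.comp (h1.comp continuous_snd)
    · fun_prop
  exact h3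

lemma Dp_diff (U t : ℝ) : Differentiable ℂ (fun z => Dp U z t) := by
  intro z₀
  set g : ℝ → ℂ := fun u => ((wt U u : ℝ) : ℂ) * H370.PP H370.A2.lamC u t with hg
  have hgc : Continuous g := by
    refine Continuous.mul (continuous_ofReal.comp (wt_cont U)) ?_
    exact PP_joint.comp (f := fun u : ℝ => ((u, t) : ℝ × ℝ)) (by fun_prop)
  have hD : (fun z => Dp U z t) = fun z => ∫ u in (0 : ℝ)..U, cexp (-(u * z)) * g u := by
    funext z
    unfold Dp
    refine intervalIntegral.integral_congr fun u _ => ?_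
    simp only [hg]
    ring
  rw [hD]
  have key := intervalIntegral.hasDerivAt_integral_of_dominated_loc_of_deriv_le (μ := volume)
    (a := 0) (b := U) (F := fun (z : ℂ) (u : ℝ) => cexp (-(u * z)) * g u)
    (F' := fun (z : ℂ) (u : ℝ) => (-(u : ℂ) * cexp (-(u * z))) * g u) (x₀ := z₀)
    (s := ball z₀ 1) (bound := fun u => |u| * Real.exp (|u| * (‖z₀‖ + 1)) * ‖g u‖)
    (ball_mem_nhds z₀ one_pos) ?_ ?_ ?_ ?_ ?_ ?_
  · exact key.2.differentiableAt
  · refine Filter.Eventually.of_forall fun z => ?_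
    exact (by fun_prop : Continuous (fun u : ℝ => cexp (-(u * z)) * g u)).aestronglyMeasurable
  · exact (by fun_prop : Continuous (fun u : ℝ => cexp (-(u * z₀)) * g u)).intervalIntegrable _ _
  · exact (by fun_prop :
      Continuous (fun u : ℝ => (-(u : ℂ) * cexp (-(u * z₀))) * g u)).aestronglyMeasurable
  · refine Filter.Eventually.of_forall fun u _ z hz => ?_
    rw [norm_mul, norm_mul, norm_neg, Complex.norm_real, Real.norm_eq_abs, Complex.norm_exp]
    have hz1 : ‖z‖ ≤ ‖z₀‖ + 1 := by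
      have h1 : ‖z - z₀‖ < 1 := by rw [← dist_eq_norm]; exact hz
      have h2 := norm_add_le (z - z₀) z₀
      rw [sub_add_cancel] at h2
      linarith
    have h3 : (-((u : ℂ) * z)).re ≤ |u| * (‖z₀‖ + 1) := by
      refine (Complex.re_le_norm _).trans ?_
      rw [norm_neg, norm_mul, Complex.norm_real, Real.norm_eq_abs]
      exact mul_le_mul_of_nonneg_left hz1 (abs_nonneg _)
    exact mul_le_mul_of_nonneg_right (mul_le_mul_of_nonneg_left (Real.exp_le_exp.2 h3)
      (abs_nonneg _)) (norm_nonneg _)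
  · exact (by fun_prop : Continuous
      (fun u : ℝ => |u| * Real.exp (|u| * (‖z₀‖ + 1)) * ‖g u‖)).intervalIntegrable _ _
  · refine Filter.Eventually.of_forall fun u _ z _ => ?_
    have h1 : HasDerivAt (fun z : ℂ => cexp (-(u * z))) (cexp (-(u * z)) * (-(u * 1))) z :=
      (((hasDerivAt_id z).const_mul (u : ℂ)).neg).cexp
    have h2 := h1.mul_const (g u)
    refine h2.congr_deriv ?_
    ring

/-- the square of the prime side, in coordinates relative to the point `i t` -/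
noncomputable def Hs (U : ℝ) (p : ℂ × ℝ) : ℝ≥0∞ := ENNReal.ofReal (‖Dp U (p.1 + I * p.2) p.2‖ ^ 2)

lemma Hs_meas (U : ℝ) : Measurable (Hs U) :=
  ENNReal.measurable_ofReal.comp ((Dp_joint U).norm.pow 2).measurable

/-- the boxes -/
def Ej (M X : ℝ) : Set ℂ := {z | X / 2 ≤ z.re ∧ z.re ≤ 3 * X ∧ ‖z‖ ≤ 5 * M * X}

lemma Ej_meas (M X : ℝ) : MeasurableSet (Ej M X) := by
  refine (isClosed_le continuous_const Complex.continuous_re).measurableSet.inter
    ((isClosed_le Complex.continuous_re continuous_const).measurableSet.inter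
    (isClosed_le continuous_norm continuous_const).measurableSet)

lemma Ej_vol (M X : ℝ) (hM : 1 ≤ M) (hX : 0 < X) :
    volume (Ej M X) ≤ ENNReal.ofReal (25 * Real.pi * M ^ 2 * X ^ 2) := by
  have h1 : Ej M X ⊆ closedBall (0 : ℂ) (5 * M * X) := by
    intro z hz
    rw [mem_closedBall_zero_iff]
    exact hz.2.2
  refine (measure_mono h1).trans ?_
  rw [Complex.volume_closedBall, ← ENNReal.ofReal_pow (by positivity)]
  have h2 : (NNReal.pi : ℝ≥0∞) = ENNReal.ofReal Real.pi := by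
    rw [ENNReal.ofReal]
    congr 1
    exact (Real.toNNReal_of_nonneg Real.pi_pos.le).symm
  rw [h2, ← ENNReal.ofReal_mul (by positivity)]
  refine ENNReal.ofReal_le_ofReal (le_of_eq ?_)
  ring

/-- one scale -/
lemma one_scale {M C T X Λ U : ℝ} (hM : 1 ≤ M) (hX : 0 < X) (hX1 : X ≤ 1) (hC : 0 < C)
    (hT : 0 < T) (hΛ : 0 < Λ)
    (hDM : ∀ x v : ℝ, 0 < x → x ≤ 3 →
      ∫⁻ t in Icc T (2 * T), ENNReal.ofReal (‖Dp U (x + I * (t + v)) t‖ ^ 2) ≤
      ENNReal.ofReal (C * T / x ^ 2)) :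
    volume {t : ℝ | t ∈ Icc T (2 * T) ∧ ∃ z : ℂ, X ≤ z.re ∧ z.re ≤ 2 * X ∧
      |z.im - t| ≤ M * z.re ∧ Λ < ‖Dp U z t‖} ≤
      ENNReal.ofReal (400 * M ^ 2 * C * T / (X * Λ) ^ 2) := by
  set Φ : ℝ → ℝ≥0∞ := fun t => ∫⁻ z in Ej M X, Hs U (z, t) with hΦ
  have hΦm : Measurable Φ := (Hs_meas U).lintegral_prod_left'
  -- the mean value inequality
  have h1 : ∀ t : ℝ, (∃ z : ℂ, X ≤ z.re ∧ z.re ≤ 2 * X ∧ |z.im - t| ≤ M * z.re ∧
      Λ < ‖Dp U z t‖) → ENNReal.ofReal (Real.pi * (X / 2) ^ 2 * Λ ^ 2) ≤ Φ t := by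
    rintro t ⟨z, hz1, hz2, hz3, hz4⟩
    have hh : Differentiable ℂ (fun w : ℂ => Dp U (w + I * t) t) :=
      (Dp_diff U t).comp (differentiable_id.add_const (I * (t : ℂ)))
    have h2 := Pool.Agent.H194.MV.area_mean_sq (w := z - I * t) (s := X / 2) (by linarith)
      hh.differentiableOn
    rw [sub_add_cancel] at h2
    have h3 : ENNReal.ofReal (Real.pi * (X / 2) ^ 2 * Λ ^ 2) ≤
        ENNReal.ofReal (Real.pi * (X / 2) ^ 2 * ‖Dp U z t‖ ^ 2) := by
      apply ENNReal.ofReal_le_ofReal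
      gcongr
    refine h3.trans (h2.trans ?_)
    refine lintegral_mono_set ?_
    intro w hw
    rw [mem_ball, dist_eq_norm] at hw
    have e1 : (z - I * t).re = z.re := by simp
    have e2 : (z - I * t).im = z.im - t := by simp
    have a1 := Complex.abs_re_le_norm (w - (z - I * t))
    rw [Complex.sub_re, e1] at a1
    have a2 := abs_lt.1 (lt_of_le_of_lt a1 hw)
    have a3 : ‖z - I * t‖ ≤ 2 * X + 2 * M * X := by
      refine (Complex.norm_le_abs_re_add_abs_im _).trans ?_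
      rw [e1, e2, abs_of_pos (by linarith : 0 < z.re)]
      have : M * z.re ≤ M * (2 * X) := mul_le_mul_of_nonneg_left hz2 (by linarith)
      linarith
    have a4 : ‖w‖ ≤ ‖w - (z - I * t)‖ + ‖z - I * t‖ := by
      have := norm_add_le (w - (z - I * t)) (z - I * t)
      rwa [sub_add_cancel] at this
    have a5 : X ≤ M * X := by nlinarith
    refine ⟨by linarith [a2.1], by linarith [a2.2], ?_⟩
    linarith
  -- Tonelli
  have h2 : ∫⁻ t in Icc T (2 * T), Φ t ≤ ENNReal.ofReal (100 * Real.pi * M ^ 2 * C * T) := by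
    have e1 : ∫⁻ t in Icc T (2 * T), Φ t =
        ∫⁻ z in Ej M X, ∫⁻ t in Icc T (2 * T), Hs U (z, t) := by
      simp only [hΦ]
      exact lintegral_lintegral_swap
        (((Hs_meas U).comp measurable_swap).aemeasurable)
    rw [e1]
    have e2 : ∫⁻ z in Ej M X, ∫⁻ t in Icc T (2 * T), Hs U (z, t) ≤
        ∫⁻ _ in Ej M X, ENNReal.ofReal (4 * C * T / X ^ 2) := by
      refine setLIntegral_mono' (Ej_meas M X) fun z hz => ?_
      obtain ⟨z1, z2, z3⟩ := hz
      have h3 := hDM z.re z.im (by linarith) (by linarith)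
      have h4 : ∀ t : ℝ, ((z.re : ℂ) + I * ((t : ℂ) + (z.im : ℂ))) = z + I * t := by
        intro t
        conv_rhs => rw [← Complex.re_add_im z]
        ring
      have h5 : ∫⁻ t in Icc T (2 * T), Hs U (z, t) ≤ ENNReal.ofReal (C * T / z.re ^ 2) := by
        refine le_trans (le_of_eq ?_) h3
        refine lintegral_congr fun t => ?_
        rw [h4]
        rfl
      refine h5.trans (ENNReal.ofReal_le_ofReal ?_)
      have h6 : (X / 2) ^ 2 ≤ z.re ^ 2 := pow_le_pow_left₀ (by linarith) z1 2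
      calc C * T / z.re ^ 2 ≤ C * T / (X / 2) ^ 2 := by
            gcongr
        _ = 4 * C * T / X ^ 2 := by field_simp; norm_num
    refine e2.trans ?_
    rw [setLIntegral_const]
    refine (mul_le_mul_right (Ej_vol M X hM hX) _).trans ?_
    rw [← ENNReal.ofReal_mul (by positivity)]
    refine ENNReal.ofReal_le_ofReal (le_of_eq ?_)
    field_simp
    ring
  -- Markov
  have h3 := mul_meas_ge_le_lintegral (μ := volume.restrict (Icc T (2 * T))) hΦm
    (ENNReal.ofReal (Real.pi * (X / 2) ^ 2 * Λ ^ 2))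
  have h4 : volume {t : ℝ | t ∈ Icc T (2 * T) ∧ ∃ z : ℂ, X ≤ z.re ∧ z.re ≤ 2 * X ∧
      |z.im - t| ≤ M * z.re ∧ Λ < ‖Dp U z t‖} ≤ volume.restrict (Icc T (2 * T))
        {t | ENNReal.ofReal (Real.pi * (X / 2) ^ 2 * Λ ^ 2) ≤ Φ t} := by
    rw [Measure.restrict_apply' measurableSet_Icc]
    refine measure_mono ?_
    rintro t ⟨ht, ht2⟩
    exact ⟨h1 t ht2, ht⟩
  refine h4.trans ?_
  have hpos : 0 < Real.pi * (X / 2) ^ 2 * Λ ^ 2 := by positivity
  have h5 : volume.restrict (Icc T (2 * T))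
      {t | ENNReal.ofReal (Real.pi * (X / 2) ^ 2 * Λ ^ 2) ≤ Φ t} ≤
      ENNReal.ofReal (100 * Real.pi * M ^ 2 * C * T) /
        ENNReal.ofReal (Real.pi * (X / 2) ^ 2 * Λ ^ 2) := by
    rw [ENNReal.le_div_iff_mul_le (Or.inl (ENNReal.ofReal_pos.2 hpos).ne')
      (Or.inl ENNReal.ofReal_ne_top), mul_comm]
    exact h3.trans h2
  refine h5.trans ?_
  rw [← ENNReal.ofReal_div_of_pos hpos]
  refine ENNReal.ofReal_le_ofReal (le_of_eq ?_)
  have := Real.pi_pos.ne'
  field_simp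
  ring

theorem dall (h : S_DM) : S_DALL := by
  intro M hM
  obtain ⟨C, T0, hC, hT0, hDM⟩ := h
  refine ⟨600 * M ^ 2 * C, T0, by positivity, hT0, ?_⟩
  intro T hT y0 Λ hy0 hΛ
  have hTpos : 0 < T := by linarith
  set U := Real.log T / 16 with hU
  set K : ℝ := 400 * M ^ 2 * C * T / (y0 * Λ) ^ 2 with hK
  have hK0 : 0 ≤ K := by positivity
  set Sj : ℕ → Set ℝ := fun j => {t : ℝ | t ∈ Icc T (2 * T) ∧ (2 : ℝ) ^ j * y0 ≤ 1 ∧
    ∃ z : ℂ, 2 ^ j * y0 ≤ z.re ∧ z.re ≤ 2 * (2 ^ j * y0) ∧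
      |z.im - t| ≤ M * z.re ∧ Λ < ‖Dp U z t‖} with hSj
  have h1 : ∀ j, volume (Sj j) ≤ ENNReal.ofReal (K * (1 / 4) ^ j) := by
    intro j
    by_cases hj : (2 : ℝ) ^ j * y0 ≤ 1
    · have h2 := one_scale (X := 2 ^ j * y0) hM (by positivity) hj hC hTpos hΛ (hDM T hT)
      refine (measure_mono ?_).trans (h2.trans (ENNReal.ofReal_le_ofReal (le_of_eq ?_)))
      · rintro t ⟨ht, -, hz⟩
        exact ⟨ht, hz⟩
      · rw [hK]
        have e1 : ((2 : ℝ) ^ j) ^ 2 * (1 / 4) ^ j = 1 := by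
          rw [← pow_mul, mul_comm j 2, pow_mul, ← mul_pow]
          norm_num
        have e2 : ((2 : ℝ) ^ j) ^ 2 ≠ 0 := by positivity
        rw [div_mul_eq_mul_div, div_eq_div_iff (by positivity) (by positivity)]
        linear_combination (-(400 * M ^ 2 * C * T) * (y0 * Λ) ^ 2) * e1
    · have : Sj j = ∅ := by
        ext t
        simp only [hSj, mem_ofPred_eq, mem_empty_iff_false, iff_false]
        rintro ⟨-, h3, -⟩
        exact hj h3
      rw [this, measure_empty]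
      exact zero_le
  have h2 : {t : ℝ | t ∈ Icc T (2 * T) ∧ ∃ z ∈ Kt t y0 1 M, Λ < ‖Dp U z t‖} ⊆ ⋃ j, Sj j := by
    rintro t ⟨ht, z, ⟨hz1, hz2, hz3⟩, hz4⟩
    obtain ⟨j, hj1, hj2⟩ := exists_nat_pow_near (x := z.re / y0) (y := (2 : ℝ))
      (by rw [le_div_iff₀ hy0]; linarith) one_lt_two
    rw [le_div_iff₀ hy0] at hj1
    rw [div_lt_iff₀ hy0, pow_succ] at hj2
    refine mem_iUnion.2 ⟨j, ht, by linarith, z, hj1, by linarith, hz3, hz4⟩
  refine (measure_mono h2).trans ((measure_iUnion_le _).trans ?_)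
  refine (ENNReal.tsum_le_tsum h1).trans ?_
  have hs : Summable (fun j : ℕ => K * (1 / 4 : ℝ) ^ j) :=
    (summable_geometric_of_lt_one (by norm_num) (by norm_num)).mul_left K
  rw [← ENNReal.ofReal_tsum_of_nonneg (fun j => by positivity) hs, tsum_mul_left,
    tsum_geometric_of_lt_one (by norm_num) (by norm_num)]
  refine ENNReal.ofReal_le_ofReal ?_
  rw [hK, div_mul_eq_mul_div]
  refine div_le_div_of_nonneg_right ?_ (by positivity)
  have : 0 < M ^ 2 * C * T := by positivity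
  nlinarith

end Pool.Agent.H120.HP
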