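import Pool.Agent.H466.HP.Stm

/-! # The explicit formula with Gaussian weights, over all the zeros -/

set_option autoImplicit false

namespace Pool.Agent.H588.HP

open Complex MeasureTheory Set Filter Topology
open Pool.Agent.H862.VK
open Pool.Agent.H466.HP

/-- the order of a zero in terms of zeta -/
lemma order_eq {b : ℂ} (h1 : -(1 / 2) < b.re) (h2 : b.im ≠ 0) :
    analyticOrderNatAt Yz b = analyticOrderNatAt riemannZeta (1 / 2 + b) := by
  have hb : b ≠ 1 / 2 := by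
    intro h
    apply h2
    rw [h]
    norm_num
  have hs1 : (1 / 2 + b : ℂ) ≠ 1 := s_ne_one hb
  have hre : 0 < (1 / 2 + b).re := by
    rw [half_re]
    linarith
  have hs0 : (1 / 2 + b : ℂ) ≠ 0 := by
    intro h
    rw [h, zero_re] at hre
    exact lt_irrefl _ hre
  have hG : Gammaℝ (1 / 2 + b) ≠ 0 := Gammaℝ_ne_zero_of_re_pos hre
  have hopen : {z : ℂ | -(1 / 2) < z.re ∧ z ≠ 1 / 2} ∈ 𝓝 b := by
    have ho : IsOpen ({z : ℂ | -(1 / 2) < z.re} ∩ {z : ℂ | z ≠ 1 / 2}) :=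
      (isOpen_lt continuous_const continuous_re).inter isOpen_ne
    exact ho.mem_nhds ⟨h1, hb⟩
  have hev : Yz =ᶠ[𝓝 b] (fun z : ℂ => (1 / 2 + z) * (Gammaℝ (1 / 2 + z))⁻¹⁻¹ *
      (z - 1 / 2)) * (fun z : ℂ => riemannZeta (1 / 2 + z)) := by
    filter_upwards [hopen] with z hz
    rw [Pi.mul_apply, Yz_eq hz.1 hz.2, inv_inv]
    ring
  have a0 : AnalyticAt ℂ (fun z : ℂ => 1 / 2 + z) b := by fun_prop
  have a1 : AnalyticAt ℂ (fun z : ℂ => (1 / 2 + z) * (Gammaℝ (1 / 2 + z))⁻¹⁻¹ *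
      (z - 1 / 2)) b := by
    have hd : Differentiable ℂ (fun z : ℂ => (Gammaℝ (1 / 2 + z))⁻¹) :=
      differentiable_Gammaℝ_inv.comp (by fun_prop : Differentiable ℂ (fun z : ℂ => 1 / 2 + z))
    have ha : AnalyticAt ℂ (fun z : ℂ => (Gammaℝ (1 / 2 + z))⁻¹⁻¹) b :=
      (hd.analyticAt b).inv (inv_ne_zero hG)
    have hc : AnalyticAt ℂ (fun z : ℂ => z - 1 / 2) b := by fun_prop
    exact (a0.mul ha).mul hc
  have hz : AnalyticAt ℂ riemannZeta (1 / 2 + b) := by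
    have hd : DifferentiableOn ℂ riemannZeta {1}ᶜ := fun s hs =>
      (differentiableAt_riemannZeta hs).differentiableWithinAt
    exact hd.analyticAt (isOpen_compl_singleton.mem_nhds hs1)
  have a2 : AnalyticAt ℂ (fun z : ℂ => riemannZeta (1 / 2 + z)) b := hz.comp a0
  have hne : (fun z : ℂ => (1 / 2 + z) * (Gammaℝ (1 / 2 + z))⁻¹⁻¹ * (z - 1 / 2)) b ≠ 0 := by
    show (1 / 2 + b) * (Gammaℝ (1 / 2 + b))⁻¹⁻¹ * (b - 1 / 2) ≠ 0
    rw [inv_inv]
    exact mul_ne_zero (mul_ne_zero hs0 hG) (sub_half_ne hb)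
  have e1 : analyticOrderAt Yz b = analyticOrderAt (fun z : ℂ => riemannZeta (1 / 2 + z)) b := by
    rw [analyticOrderAt_congr hev, analyticOrderAt_mul a1 a2, a1.analyticOrderAt_eq_zero.2 hne,
      zero_add]
  have hder : deriv (fun z : ℂ => 1 / 2 + z) b ≠ 0 := by
    rw [deriv_const_add, deriv_id'']
    exact one_ne_zero
  have e2 : analyticOrderAt (fun z : ℂ => riemannZeta (1 / 2 + z)) b =
      analyticOrderAt riemannZeta (1 / 2 + b) := by
    have := analyticOrderAt_comp_of_deriv_ne_zero (f := riemannZeta) a0 hder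
    exact this
  unfold analyticOrderNatAt
  rw [e1, e2]

/-- the zeros lie in the strip -/
lemma zero_re {b : ℂ} (hb : Yz b = 0) : -(1 / 2) < b.re ∧ b.re < 1 / 2 := by
  constructor
  · by_contra h
    push Not at h
    refine Yz_ne (z := -b) ?_ ?_
    · rw [neg_re]
      linarith
    · rw [Yz_neg, hb]
  · by_contra h
    push Not at h
    exact Yz_ne h hb

/-- zeros of `Yz` away from the real axis are the nontrivial zeros of zeta -/
lemma zeta_zero_iff {b : ℂ} (h2 : b.im ≠ 0) :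
    Yz b = 0 ↔ 0 < (1 / 2 + b).re ∧ (1 / 2 + b).re < 1 ∧ riemannZeta (1 / 2 + b) = 0 := by
  have hb : b ≠ 1 / 2 := by
    intro h
    apply h2
    rw [h]
    norm_num
  constructor
  · intro h
    obtain ⟨h3, h4⟩ := zero_re h
    have hre : 0 < (1 / 2 + b).re := by
      rw [half_re]
      linarith
    refine ⟨hre, by rw [half_re]; linarith, ?_⟩
    rw [Yz_eq h3 hb] at h
    have hs0 : (1 / 2 + b : ℂ) ≠ 0 := by
      intro h
      rw [h, Complex.zero_re] at hre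
      exact lt_irrefl _ hre
    rcases mul_eq_zero.1 h with h5 | h5
    · exact absurd h5 (mul_ne_zero hs0 (Gammaℝ_ne_zero_of_re_pos hre))
    · rcases mul_eq_zero.1 h5 with h6 | h6
      · exact absurd h6 (sub_half_ne hb)
      · exact h6
  · rintro ⟨h3, h4, h5⟩
    rw [half_re] at h3
    rw [Yz_eq (by linarith) hb, h5]
    ring

lemma mu_nonneg (b : ℂ) : 0 ≤ mu b := by
  unfold mu
  exact Nat.cast_nonneg _

/-- size of a term -/
lemma term_norm {b : ℂ} (hb : Yz b = 0) (u t : ℝ) (hu : 0 ≤ u) :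
    ‖(mu b : ℂ) * cexp (u * b) * gw t b‖ ≤
      mu b * (2 * Real.exp (u / 2) * Real.exp (-(b.im - t) ^ 2 / 2)) := by
  obtain ⟨h1, h2⟩ := zero_re hb
  unfold gw
  rw [norm_mul, norm_mul, Complex.norm_real, Real.norm_of_nonneg (mu_nonneg b), mul_assoc,
    Complex.norm_exp, Complex.norm_exp]
  have e1 : ((u : ℂ) * b).re = u * b.re := by simp
  have e2 : ((b - I * t) ^ 2 / 2 : ℂ).re = (b.re ^ 2 - (b.im - t) ^ 2) / 2 := by
    rw [show ((b - I * t) ^ 2 / 2 : ℂ) = ((b - I * t) ^ 2) * ((1 / 2 : ℝ) : ℂ) by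
      push_cast; ring, Complex.re_mul_ofReal, sq, Complex.mul_re]
    simp
    ring
  rw [e1, e2]
  apply mul_le_mul_of_nonneg_left _ (mu_nonneg b)
  rw [← Real.exp_add]
  have h3 : u * b.re + (b.re ^ 2 - (b.im - t) ^ 2) / 2 ≤ 1 / 8 + (u / 2 + -(b.im - t) ^ 2 / 2) := by
    have : b.re ^ 2 ≤ 1 / 4 := by nlinarith
    nlinarith
  have h4 : Real.exp (1 / 8) ≤ 2 := by
    have h5 : Real.exp (1 / 8) ≤ Real.exp (1 / 2) := Real.exp_le_exp.2 (by norm_num)
    have h6 : Real.exp (1 / 2) ≤ 2 := by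
      have := Real.exp_one_lt_d9
      have h5 : Real.exp (1 / 2) ^ 2 = Real.exp 1 := by
        rw [← Real.exp_nat_mul]; norm_num
      nlinarith [Real.exp_pos (1 / 2 : ℝ)]
    exact h5.trans h6
  calc Real.exp (u * b.re + (b.re ^ 2 - (b.im - t) ^ 2) / 2)
      ≤ Real.exp (1 / 8 + (u / 2 + -(b.im - t) ^ 2 / 2)) := Real.exp_le_exp.2 h3
    _ = Real.exp (1 / 8) * (Real.exp (u / 2) * Real.exp (-(b.im - t) ^ 2 / 2)) := by
        rw [Real.exp_add, Real.exp_add]
    _ ≤ 2 * (Real.exp (u / 2) * Real.exp (-(b.im - t) ^ 2 / 2)) := by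
        apply mul_le_mul_of_nonneg_right h4
        positivity
    _ = _ := by ring

/-- `e^{-x²/2} ≤ 2/(1+x²)` -/
lemma gauss_le (x : ℝ) : Real.exp (-x ^ 2 / 2) ≤ 2 / (1 + x ^ 2) := by
  have h1 : 1 + x ^ 2 / 2 ≤ Real.exp (x ^ 2 / 2) := by
    have := Real.add_one_le_exp (x ^ 2 / 2)
    linarith
  have h2 : Real.exp (-x ^ 2 / 2) = 1 / Real.exp (x ^ 2 / 2) := by
    rw [one_div, ← Real.exp_neg]
    congr 1
    ring
  rw [h2, div_le_div_iff₀ (Real.exp_pos _) (by positivity)]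
  nlinarith [sq_nonneg x]

/-- `e^{-x²/2} ≤ e^{-x²/4} 4/(1+x²)` -/
lemma gauss_le' (x : ℝ) : Real.exp (-x ^ 2 / 2) ≤ Real.exp (-x ^ 2 / 4) * (4 / (1 + x ^ 2)) := by
  have h1 : 1 + x ^ 2 / 4 ≤ Real.exp (x ^ 2 / 4) := by
    have := Real.add_one_le_exp (x ^ 2 / 4)
    linarith
  have h2 : Real.exp (-x ^ 2 / 4) = 1 / Real.exp (x ^ 2 / 4) := by
    rw [one_div, ← Real.exp_neg]
    congr 1
    ring
  have h3 : Real.exp (-x ^ 2 / 2) = Real.exp (-x ^ 2 / 4) * Real.exp (-x ^ 2 / 4) := by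
    rw [← Real.exp_add]
    congr 1
    ring
  rw [h3]
  apply mul_le_mul_of_nonneg_left _ (Real.exp_pos _).le
  rw [h2, div_le_div_iff₀ (Real.exp_pos _) (by positivity)]
  nlinarith [sq_nonneg x]

/-- a term of the zero side -/
noncomputable def fz (u t : ℝ) (b : Zr) : ℂ := (mu b : ℂ) * cexp (u * (b : ℂ)) * gw t b

/-- finite sums over zeros at distance at least `R` -/
lemma sum_le {C : ℝ} (h : ∀ t : ℝ, ∀ B : Finset ℂ, (∀ b ∈ B, Yz b = 0) →
    ∑ b ∈ B, mu b / (1 + (t - b.im) ^ 2) ≤ C * Real.log (2 + |t|)) (t u R : ℝ) (hu : 0 ≤ u)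
    (hR : 0 ≤ R) (F : Finset Zr) (hF : ∀ b ∈ F, R ≤ |(b : ℂ).im - t|) :
    ∑ b ∈ F, ‖fz u t b‖ ≤
      8 * Real.exp (u / 2) * Real.exp (-R ^ 2 / 4) * (C * Real.log (2 + |t|)) := by
  have h1 : ∀ b ∈ F, ‖fz u t b‖ ≤ 8 * Real.exp (u / 2) * Real.exp (-R ^ 2 / 4) *
      (mu b / (1 + (t - (b : ℂ).im) ^ 2)) := by
    intro b hb
    have h2 := term_norm b.2 u t hu
    have h3 := gauss_le' ((b : ℂ).im - t)
    have h4 : Real.exp (-((b : ℂ).im - t) ^ 2 / 4) ≤ Real.exp (-R ^ 2 / 4) := by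
      apply Real.exp_le_exp.2
      have h5 := hF b hb
      have h6 : R ^ 2 ≤ ((b : ℂ).im - t) ^ 2 := by
        rw [← sq_abs ((b : ℂ).im - t)]
        exact pow_le_pow_left₀ hR h5 2
      linarith
    have h7 : (0 : ℝ) ≤ 4 / (1 + ((b : ℂ).im - t) ^ 2) := by positivity
    have h8 : Real.exp (-((b : ℂ).im - t) ^ 2 / 2) ≤
        Real.exp (-R ^ 2 / 4) * (4 / (1 + ((b : ℂ).im - t) ^ 2)) :=
      h3.trans (mul_le_mul_of_nonneg_right h4 h7)
    have h9 : (0 : ℝ) ≤ 2 * Real.exp (u / 2) := by positivity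
    unfold fz
    calc _ ≤ mu b * (2 * Real.exp (u / 2) * Real.exp (-((b : ℂ).im - t) ^ 2 / 2)) := h2
      _ ≤ mu b * (2 * Real.exp (u / 2) *
          (Real.exp (-R ^ 2 / 4) * (4 / (1 + ((b : ℂ).im - t) ^ 2)))) :=
          mul_le_mul_of_nonneg_left (mul_le_mul_of_nonneg_left h8 h9) (mu_nonneg _)
      _ = _ := by
          rw [show ((b : ℂ).im - t) ^ 2 = (t - (b : ℂ).im) ^ 2 by ring]
          ring
  have h2 : ∑ b ∈ F, mu b / (1 + (t - (b : ℂ).im) ^ 2) ≤ C * Real.log (2 + |t|) := by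
    have h3 := h t (F.map (Function.Embedding.subtype _)) (by
      intro b hb
      rw [Finset.mem_map] at hb
      obtain ⟨c, -, rfl⟩ := hb
      exact c.2)
    rw [Finset.sum_map] at h3
    exact h3
  calc _ ≤ ∑ b ∈ F, 8 * Real.exp (u / 2) * Real.exp (-R ^ 2 / 4) *
      (mu b / (1 + (t - (b : ℂ).im) ^ 2)) := Finset.sum_le_sum h1
    _ = 8 * Real.exp (u / 2) * Real.exp (-R ^ 2 / 4) *
      ∑ b ∈ F, mu b / (1 + (t - (b : ℂ).im) ^ 2) := by rw [Finset.mul_sum]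
    _ ≤ _ := mul_le_mul_of_nonneg_left h2 (by positivity)

lemma fz_summable {C : ℝ} (h : ∀ t : ℝ, ∀ B : Finset ℂ, (∀ b ∈ B, Yz b = 0) →
    ∑ b ∈ B, mu b / (1 + (t - b.im) ^ 2) ≤ C * Real.log (2 + |t|)) (t u : ℝ) (hu : 0 ≤ u) :
    Summable (fz u t) := by
  apply Summable.of_norm
  exact summable_of_sum_le (fun b => norm_nonneg _)
    (fun F => sum_le h t u 0 hu le_rfl F (fun b _ => abs_nonneg _))

/-- the tail -/
lemma tail_le {C : ℝ} (h : ∀ t : ℝ, ∀ B : Finset ℂ, (∀ b ∈ B, Yz b = 0) →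
    ∑ b ∈ B, mu b / (1 + (t - b.im) ^ 2) ≤ C * Real.log (2 + |t|)) (t u R : ℝ) (hu : 0 ≤ u)
    (hR : 0 ≤ R) (S : Finset Zr) (hS : ∀ b : Zr, b ∉ S → R ≤ |(b : ℂ).im - t|) :
    ‖G u t - ∑ b ∈ S, fz u t b‖ ≤
      8 * Real.exp (u / 2) * Real.exp (-R ^ 2 / 4) * (C * Real.log (2 + |t|)) := by
  classical
  have hs : HasSum (fz u t) (G u t) := (fz_summable h t u hu).hasSum
  have h1 : Tendsto (fun F : Finset Zr => ‖∑ b ∈ F, fz u t b - ∑ b ∈ S, fz u t b‖) atTop
      (𝓝 ‖G u t - ∑ b ∈ S, fz u t b‖) := (hs.sub_const _).norm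
  refine le_of_tendsto h1 ?_
  filter_upwards [eventually_ge_atTop S] with F hF
  have hF' : S ⊆ F := hF
  have h2 : ∑ b ∈ F, fz u t b - ∑ b ∈ S, fz u t b = ∑ b ∈ F \ S, fz u t b := by
    rw [← Finset.sum_sdiff hF']
    ring
  rw [h2]
  refine (norm_sum_le _ _).trans (sum_le h t u R hu hR _ ?_)
  intro b hb
  rw [Finset.mem_sdiff] at hb
  exact hS b hb.2

/-- zeros of zeta in a window, as zeros of `Yz` -/
lemma exists_S (A B u t : ℝ) (hA : 1 ≤ A) : ∃ S : Finset Zr,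
    (∑ b ∈ S, fz u t b = H370.AA riemannZeta A B u t) ∧
    (∀ b : Zr, b ∉ S → (b : ℂ).im ≤ A ∨ B < (b : ℂ).im) := by
  classical
  have hF := H370.good_zeta
  have key : ∀ s ∈ H370.Zf riemannZeta A B, Yz (s - 1 / 2) = 0 ∧ (s - 1 / 2 : ℂ).im ≠ 0 := by
    intro s hs
    rw [H370.mem_Zf hF hA] at hs
    obtain ⟨h1, h2, h3, h4, h5⟩ := hs
    have him : (s - 1 / 2 : ℂ).im = s.im := by simp
    have hne : (s - 1 / 2 : ℂ).im ≠ 0 := by
      rw [him]
      linarith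
    refine ⟨?_, hne⟩
    rw [zeta_zero_iff hne]
    have e : (1 / 2 + (s - 1 / 2) : ℂ) = s := by ring
    rw [e]
    exact ⟨h1, h2, h5⟩
  let φ : {s // s ∈ H370.Zf riemannZeta A B} ↪ Zr :=
    ⟨fun s => ⟨s.1 - 1 / 2, (key s.1 s.2).1⟩, by
      intro s s' hss
      have h1 : (s.1 - 1 / 2 : ℂ) = s'.1 - 1 / 2 := congrArg Subtype.val hss
      exact Subtype.ext (sub_left_inj.1 h1)⟩
  refine ⟨(H370.Zf riemannZeta A B).attach.map φ, ?_, ?_⟩
  · rw [H370.AA_eq hF hA, Finset.sum_map]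
    refine Eq.trans ?_ (Finset.sum_attach (H370.Zf riemannZeta A B)
      (fun s => (H370.mult riemannZeta s : ℂ) * H370.hh u t s))
    refine Finset.sum_congr rfl fun s _ => ?_
    have h1 := key s.1 s.2
    show (mu (s.1 - 1 / 2) : ℂ) * cexp (u * (s.1 - 1 / 2 : ℂ)) * gw t (s.1 - 1 / 2) = _
    unfold mu gw H370.mult H370.hh
    rw [order_eq (zero_re h1.1).1 h1.2]
    have e : (1 / 2 + (s.1 - 1 / 2) : ℂ) = s.1 := by ring
    rw [e, mul_assoc]
    push_cast
    rfl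
  · intro b hb
    by_contra hcon
    push Not at hcon
    apply hb
    have him : (b : ℂ).im ≠ 0 := by linarith [hcon.1]
    have hz := (zeta_zero_iff him).1 b.2
    have hmem : (1 / 2 + (b : ℂ)) ∈ H370.Zf riemannZeta A B := by
      rw [H370.mem_Zf hF hA]
      have e : (1 / 2 + (b : ℂ)).im = (b : ℂ).im := by simp
      refine ⟨hz.1, hz.2.1, ?_, ?_, hz.2.2⟩
      · rw [e]; exact hcon.1
      · rw [e]; exact hcon.2
    rw [Finset.mem_map]
    refine ⟨⟨_, hmem⟩, Finset.mem_attach _ _, ?_⟩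
    apply Subtype.ext
    show (1 / 2 + (b : ℂ) - 1 / 2 : ℂ) = b
    ring

lemma log_le_half {x : ℝ} (hx : 16 ≤ x) : Real.log x + 1 ≤ x / 2 := by
  have hx0 : 0 < x := by linarith
  have h1 : Real.log x = 2 * Real.log (Real.sqrt x) := by
    rw [Real.log_sqrt hx0.le]
    ring
  have h2 : Real.log (Real.sqrt x) ≤ Real.sqrt x - 1 :=
    Real.log_le_sub_one_of_pos (Real.sqrt_pos.2 hx0)
  have h3 : 4 ≤ Real.sqrt x := by
    apply Real.le_sqrt_of_sq_le
    linarith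
  have h4 : Real.sqrt x ^ 2 = x := Real.sq_sqrt hx0.le
  nlinarith

/-- **The Gaussian explicit formula over all the zeros.** -/
theorem ef (h : S_Z1) : S_EF := by
  obtain ⟨C1, hC1, hZ⟩ := h
  obtain ⟨C, T1, hC, hT1, hEF⟩ := H370.A2.ef_sub2 H370.good_zeta
    (a := H370.A2.lamC) (fun n => (H370.A2.lamC_norm n).le) (fun s hs _ => H370.A2.ld_zeta s hs)
  refine ⟨C + 1 + 1024 * C1, max (3 / 2 * T1) 24, by positivity, ?_, ?_⟩
  · exact le_trans (by norm_num) (le_max_right _ _)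
  intro T hT t u htT ht2T hu huT
  have hT24 : 24 ≤ T := (le_max_right _ _).trans hT
  have hTT1 : 3 / 2 * T1 ≤ T := (le_max_left _ _).trans hT
  have hT0 : 0 < T := by linarith
  obtain ⟨T', hT'⟩ : ∃ T' : ℝ, T' = 2 * t / 3 := ⟨_, rfl⟩
  have hT'1 : T1 ≤ T' := by rw [hT']; linarith
  have hT'16 : 16 ≤ T' := by rw [hT']; linarith
  have hT'0 : 0 < T' := by linarith
  have hlog := log_le_half hT'16
  have ht : t = 3 / 2 * T' := by rw [hT']; ring
  have huT' : u ≤ Real.log T' := by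
    have h1 : Real.log T / 2 = Real.log (Real.sqrt T) := (Real.log_sqrt hT0.le).symm
    have h2 : Real.sqrt T ≤ T' := by
      have h3 : Real.sqrt T ≤ 2 * T / 3 := by
        rw [Real.sqrt_le_left (by linarith)]
        nlinarith
      refine h3.trans ?_
      rw [hT']
      linarith
    rw [h1] at huT
    exact huT.trans (Real.log_le_log (Real.sqrt_pos.2 hT0) h2)
  have hmain := hEF T' hT'1 (T' + 1) (2 * T' - 1) le_rfl le_rfl u t hu huT' (by linarith)
    (by linarith)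
  obtain ⟨S, hS1, hS2⟩ := exists_S (T' + 1) (2 * T' - 1) u t (by linarith)
  -- the tail
  have htail := tail_le hZ t u (t / 4) hu (by linarith) S (by
    intro b hb
    rcases hS2 b hb with h1 | h1
    · rw [abs_sub_comm]
      refine le_trans ?_ (le_abs_self _)
      linarith
    · refine le_trans ?_ (le_abs_self _)
      linarith)
  have ht24 : 24 ≤ t := by linarith
  have htail2 : 8 * Real.exp (u / 2) * Real.exp (-(t / 4) ^ 2 / 4) *
      (C1 * Real.log (2 + |t|)) ≤ 1024 * C1 := by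
    have h1 : Real.exp (u / 2) ≤ t := by
      have h2 : Real.exp (u / 2) ≤ Real.exp (Real.log T) := by
        apply Real.exp_le_exp.2
        have h3 : 0 ≤ Real.log T := Real.log_nonneg (by linarith)
        linarith
      rw [Real.exp_log hT0] at h2
      linarith
    have h2 : Real.log (2 + |t|) ≤ 2 * t := by
      rw [abs_of_pos (by linarith)]
      have := Real.log_le_sub_one_of_pos (show 0 < 2 + t by linarith)
      linarith
    have h3 : Real.exp (-(t / 4) ^ 2 / 4) ≤ 64 / t ^ 2 := by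
      have h4 : Real.exp (-(t / 4) ^ 2 / 4) = 1 / Real.exp (t ^ 2 / 64) := by
        rw [one_div, ← Real.exp_neg]
        congr 1
        ring
      have h5 : t ^ 2 / 64 ≤ Real.exp (t ^ 2 / 64) := by
        have := Real.add_one_le_exp (t ^ 2 / 64)
        linarith
      rw [h4, div_le_div_iff₀ (Real.exp_pos _) (by positivity)]
      linarith
    have h6 : 0 ≤ Real.log (2 + |t|) := Real.log_nonneg (by
      have := abs_nonneg t
      linarith)
    calc 8 * Real.exp (u / 2) * Real.exp (-(t / 4) ^ 2 / 4) * (C1 * Real.log (2 + |t|))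
        ≤ 8 * t * (64 / t ^ 2) * (C1 * (2 * t)) := by gcongr
      _ = 1024 * C1 := by
          have : t ≠ 0 := by linarith
          field_simp
          ring
  -- change of the logarithm
  obtain ⟨k, hk⟩ : ∃ k : ℝ, k = 1 / Real.sqrt (2 * Real.pi) := ⟨_, rfl⟩
  have hk0 : 0 ≤ k := by rw [hk]; positivity
  have hk1 : k ≤ 1 := by
    rw [hk, div_le_one (Real.sqrt_pos.2 (by positivity))]
    rw [Real.one_le_sqrt]
    have := Real.pi_gt_three
    linarith
  have hlog2 : |Real.log T' - Real.log T| ≤ 1 := by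
    rw [← Real.log_div hT'0.ne' hT0.ne', abs_le]
    have hq : 0 < T' / T := by positivity
    constructor
    · rw [Real.le_log_iff_exp_le hq]
      have h1 : Real.exp (-1) ≤ 2 / 3 := by
        rw [Real.exp_neg, inv_le_comm₀ (Real.exp_pos _) (by norm_num)]
        have := Real.exp_one_gt_d9
        norm_num
        linarith
      refine h1.trans ?_
      rw [div_le_div_iff₀ (by norm_num) hT0, hT']
      linarith
    · rw [Real.log_le_iff_le_exp hq]
      have h1 : 4 / 3 ≤ Real.exp 1 := by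
        have := Real.exp_one_gt_d9
        linarith
      refine le_trans ?_ h1
      rw [div_le_div_iff₀ hT0 (by norm_num), hT']
      linarith
  rw [← hk] at hmain ⊢
  obtain ⟨e, he⟩ : ∃ e : ℂ, e = cexp (I * u * t) * Real.exp (-u ^ 2 / 2) := ⟨_, rfl⟩
  have hne : ‖e‖ ≤ 1 := by
    rw [he, norm_mul, Complex.norm_real, Complex.norm_exp, Real.norm_of_nonneg (Real.exp_pos _).le]
    have e1 : (I * u * t : ℂ).re = 0 := by simp
    rw [e1, Real.exp_zero, one_mul]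
    apply Real.exp_le_one_iff.2
    have := sq_nonneg u
    linarith
  have hd : ‖((k : ℂ) * ((Real.log T' : ℂ) * e - (Real.log T : ℂ) * e))‖ ≤ 1 := by
    rw [← sub_mul, norm_mul, norm_mul, Complex.norm_real, Real.norm_of_nonneg hk0,
      ← Complex.ofReal_sub, Complex.norm_real, Real.norm_eq_abs]
    have h1 : |Real.log T' - Real.log T| * ‖e‖ ≤ 1 * 1 :=
      mul_le_mul hlog2 hne (norm_nonneg _) zero_le_one
    have h2 : 0 ≤ |Real.log T' - Real.log T| * ‖e‖ := by positivity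
    nlinarith
  rw [← hS1] at hmain
  obtain ⟨PPv, hPP⟩ : ∃ PPv : ℂ, PPv = H370.PP H370.A2.lamC u t := ⟨_, rfl⟩
  rw [← hPP] at hmain ⊢
  have hsplit : G u t - (k : ℂ) * ((Real.log T : ℂ) * cexp (I * u * t) * Real.exp (-u ^ 2 / 2) - PPv)
      = (G u t - ∑ b ∈ S, fz u t b) +
        (∑ b ∈ S, fz u t b - (k : ℂ) * ((Real.log T' : ℂ) * cexp (I * u * t) *
          Real.exp (-u ^ 2 / 2) - PPv)) +
        (k : ℂ) * ((Real.log T' : ℂ) * e - (Real.log T : ℂ) * e) := by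
    rw [he]
    ring
  rw [hsplit]
  calc _ ≤ ‖G u t - ∑ b ∈ S, fz u t b‖ +
        ‖∑ b ∈ S, fz u t b - (k : ℂ) * ((Real.log T' : ℂ) * cexp (I * u * t) *
          Real.exp (-u ^ 2 / 2) - PPv)‖ +
        ‖(k : ℂ) * ((Real.log T' : ℂ) * e - (Real.log T : ℂ) * e)‖ := norm_add₃_le
    _ ≤ 1024 * C1 + C + 1 := add_le_add (add_le_add (htail.trans htail2) hmain) hd
    _ = C + 1 + 1024 * C1 := by ring

end Pool.Agent.H588.HP
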