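import Pool.Agent.H466.HP.Stm
import Pool.Graph.R_pool_sql_team_seeded_35f281b4.K7.H52.SP.Bk
import Pool.Graph.R_pool_sql_team_seeded_35f281b4.K7.H52.SP.Zb
import Pool.Graph.R_seed8.H370R2.Local
import Pool.Graph.R_seed8.H370R2.DirGood
import Pool.Graph.R_seed8.Y24.F1

/-!
# `P` is close to `(log T) / 2` at a fixed distance from the critical line, for most points
-/

set_option autoImplicit false

namespace Pool.Agent.H980.HP

open Complex MeasureTheory Set Filter Topology Metric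
open Pool.Agent.H862.VK (Yz Yz_eq Yz_ne Yz_diff Gz half_re s_ne_one sub_half_ne)
open Pool.Agent.H466.HP Pool.Agent.K7.H52.SP

/-! ### The logarithmic derivative to the right of the critical line -/

lemma zeta_diff_im {s : ℂ} (hs : 0 < s.im) : DifferentiableAt ℂ riemannZeta s := by
  apply differentiableAt_riemannZeta
  rintro rfl
  simp at hs

/-- zeros of zeta are zeros of `Yz` -/
lemma Yz_of_zeta {z : ℂ} (hz : 0 < z.re) (h1 : z ≠ 1 / 2) (h : riemannZeta (1 / 2 + z) = 0) :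
    Yz z = 0 := by
  rw [Yz_eq (by linarith) h1, h, mul_zero, mul_zero]

lemma P_eq {z : ℂ} (hz : 0 < z.re) (hi : z.im ≠ 0) (hzt : riemannZeta (1 / 2 + z) ≠ 0) :
    P z = 1 / (1 / 2 + z) + logDeriv Gammaℝ (1 / 2 + z) + 1 / (z - 1 / 2) +
      logDeriv riemannZeta (1 / 2 + z) := by
  have h1 : z ≠ 1 / 2 := by
    intro h
    rw [h] at hi
    norm_num at hi
  have hre : 0 < (1 / 2 + z).re := by
    rw [half_re]
    linarith
  have hs0 : (1 / 2 + z : ℂ) ≠ 0 := by
    intro h
    rw [h, zero_re] at hre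
    exact lt_irrefl _ hre
  have hG : Gammaℝ (1 / 2 + z) ≠ 0 := Gammaℝ_ne_zero_of_re_pos hre
  have hGd := (Pool.Agent.NH13.UV.LDg.hasDerivAt_Gammaℝ hre).differentiableAt
  have d0 : HasDerivAt (fun z : ℂ => 1 / 2 + z) 1 z := (hasDerivAt_id z).const_add _
  have d1 : HasDerivAt (fun z : ℂ => Gammaℝ (1 / 2 + z)) (deriv Gammaℝ (1 / 2 + z)) z := by
    have := HasDerivAt.comp z hGd.hasDerivAt d0
    rw [mul_one] at this
    exact this
  have d2 : HasDerivAt (fun z : ℂ => z - 1 / 2) 1 z := (hasDerivAt_id z).sub_const _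
  have d3 : HasDerivAt (fun z : ℂ => riemannZeta (1 / 2 + z)) (deriv riemannZeta (1 / 2 + z)) z := by
    have := HasDerivAt.comp z (differentiableAt_riemannZeta (s_ne_one h1)).hasDerivAt d0
    rw [mul_one] at this
    exact this
  have d4 := (d0.mul d1).mul (d2.mul d3)
  have hev : Yz =ᶠ[𝓝 z] fun z : ℂ => (1 / 2 + z) * Gammaℝ (1 / 2 + z) *
      ((z - 1 / 2) * riemannZeta (1 / 2 + z)) := by
    have m1 : {y : ℂ | 0 < y.re} ∈ 𝓝 z :=
      (isOpen_lt continuous_const continuous_re).mem_nhds hz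
    have m2 : {y : ℂ | y.im ≠ 0} ∈ 𝓝 z :=
      (isOpen_ne_fun continuous_im continuous_const).mem_nhds hi
    filter_upwards [m1, m2] with y hy hy2
    have hy' : 0 < y.re := hy
    exact Yz_eq (by linarith) (by
      intro h
      apply hy2
      rw [h]
      norm_num)
  unfold P
  rw [logDeriv_apply, hev.deriv_eq, hev.self_of_nhds]
  have d5 : deriv (fun z : ℂ => (1 / 2 + z) * Gammaℝ (1 / 2 + z) *
      ((z - 1 / 2) * riemannZeta (1 / 2 + z))) z = _ := d4.deriv
  rw [d5, logDeriv_apply riemannZeta, logDeriv_apply Gammaℝ]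
  simp only [Pi.mul_apply]
  have h2 := sub_half_ne h1
  clear d5 d4 d3 d2 d1 d0 hev hGd
  generalize deriv Gammaℝ (1 / 2 + z) = G
  generalize deriv riemannZeta (1 / 2 + z) = D
  generalize riemannZeta (1 / 2 + z) = B at hzt ⊢
  generalize Gammaℝ (1 / 2 + z) = A at hG ⊢
  obtain ⟨u, hu⟩ : ∃ u : ℂ, u = 1 / 2 + z := ⟨_, rfl⟩
  obtain ⟨v, hv⟩ : ∃ v : ℂ, v = z - 1 / 2 := ⟨_, rfl⟩
  rw [← hu, ← hv]
  rw [← hu] at hs0
  rw [← hv] at h2
  field_simp
  ring

/-- the elementary part is `(log T) / 2 + O(1)` -/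
lemma P_near : ∃ C : ℝ, 0 ≤ C ∧ ∀ (T : ℝ) (z : ℂ), 2 ≤ T → 0 < z.re → z.re ≤ 4 → T / 2 ≤ z.im →
    z.im ≤ 3 * T → riemannZeta (1 / 2 + z) ≠ 0 →
    ‖P z - (Real.log T / 2 : ℝ)‖ ≤ C + ‖logDeriv riemannZeta (1 / 2 + z)‖ := by
  obtain ⟨C, hC0, hC⟩ := H370.DL.logDeriv_Gammaℝ_bound
  refine ⟨C + 3, by linarith, fun T z hT h0 h4 hi1 hi2 hzt => ?_⟩
  have hi : 1 ≤ z.im := by linarith
  have him : (1 / 2 + z : ℂ).im = z.im := by simp
  have hG := hC (1 / 2 + z) (by rw [half_re]; linarith) (by rw [half_re]; linarith) (by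
    rw [him, abs_of_pos (by linarith)]
    exact hi)
  rw [him, abs_of_pos (by linarith)] at hG
  have a1 : ‖1 / (1 / 2 + z)‖ ≤ 1 := by
    have h7 : 1 ≤ ‖(1 / 2 + z : ℂ)‖ := by
      refine le_trans ?_ ((le_abs_self _).trans (abs_im_le_norm _))
      rw [him]
      exact hi
    rw [norm_div, norm_one, div_le_iff₀ (by linarith)]
    linarith
  have a2 : ‖1 / (z - 1 / 2)‖ ≤ 1 := by
    have him2 : (z - 1 / 2 : ℂ).im = z.im := by simp
    have h7 : 1 ≤ ‖(z - 1 / 2 : ℂ)‖ := by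
      refine le_trans ?_ ((le_abs_self _).trans (abs_im_le_norm _))
      rw [him2]
      exact hi
    rw [norm_div, norm_one, div_le_iff₀ (by linarith)]
    linarith
  have a3 : ‖(1 / 2 * Real.log z.im : ℂ) - (Real.log T / 2 : ℝ)‖ ≤ 1 := by
    have e : (1 / 2 * Real.log z.im : ℂ) - (Real.log T / 2 : ℝ) =
        ((1 / 2 * (Real.log z.im - Real.log T) : ℝ) : ℂ) := by
      push_cast
      ring
    have l3 : Real.log 3 ≤ 2 := by
      have := Real.log_le_sub_one_of_pos (show (0 : ℝ) < 3 by norm_num)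
      linarith
    have l2 : Real.log 2 ≤ 1 := by
      have := Real.log_le_sub_one_of_pos (show (0 : ℝ) < 2 by norm_num)
      linarith
    have h1 : Real.log z.im ≤ Real.log 3 + Real.log T := by
      rw [← Real.log_mul (by norm_num) (by linarith)]
      exact Real.log_le_log (by linarith) hi2
    have h2 : Real.log T - Real.log 2 ≤ Real.log z.im := by
      rw [← Real.log_div (by linarith) (by norm_num)]
      exact Real.log_le_log (by linarith) hi1
    rw [e, norm_real, Real.norm_eq_abs, abs_le]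
    constructor <;> linarith
  rw [P_eq h0 (by linarith) hzt]
  have e : 1 / (1 / 2 + z) + logDeriv Gammaℝ (1 / 2 + z) + 1 / (z - 1 / 2) +
      logDeriv riemannZeta (1 / 2 + z) - (Real.log T / 2 : ℝ) =
      1 / (1 / 2 + z) + (logDeriv Gammaℝ (1 / 2 + z) - 1 / 2 * Real.log z.im) +
      1 / (z - 1 / 2) + ((1 / 2 * Real.log z.im : ℂ) - (Real.log T / 2 : ℝ)) +
      logDeriv riemannZeta (1 / 2 + z) := by ring
  rw [e]
  refine (norm_add_le _ _).trans ?_
  gcongr
  refine (norm_add_le _ _).trans ?_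
  have b1 := norm_add_le (1 / (1 / 2 + z) + (logDeriv Gammaℝ (1 / 2 + z) -
    1 / 2 * Real.log z.im)) (1 / (z - 1 / 2))
  have b2 := norm_add_le (1 / (1 / 2 + z)) (logDeriv Gammaℝ (1 / 2 + z) -
    1 / 2 * Real.log z.im)
  linarith

/-! ### Bounds of the zeta function -/

/-- a bound on the critical line near the height `T` gives a bound to the right of the line
(lemma of helper466, LD/L19) -/
lemma small_strip {ε W : ℝ} (hε : 0 < ε) (hW : 0 ≤ W) : ∃ R : ℝ, W ≤ R ∧ ∃ T0 : ℝ, 3 ≤ T0 ∧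
    ∀ T : ℝ, T0 ≤ T →
      (∀ y : ℝ, |y - T| ≤ R → ‖riemannZeta (1 / 2 + I * y)‖ ≤ Real.exp (ε / 2 * Real.log T)) →
      ∀ s : ℂ, 1 / 2 ≤ s.re → |s.im - T| ≤ W → ‖riemannZeta s‖ ≤ Real.exp (ε * Real.log T) := by
  obtain ⟨B, hB, hgr'⟩ := growth 3
  obtain ⟨W0, hW0, hltl⟩ := ltl (a := 1 / 2) (b := 2) (α := ε / 2) (β := ε / 2) (B := B)
    (ε := ε / 2) (by norm_num) hB (by positivity)
  obtain ⟨T₁, hT₁, hgr⟩ := hgr' (W + W0)
  obtain ⟨M, hM0, hM⟩ := Pool.Agent.H448R2.GC.X1.zeta_bdd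
  obtain ⟨T₂, hT₂, hab⟩ := absorb M (show 0 < ε / 2 by positivity)
  refine ⟨W + W0, by linarith, T₁ + T₂ + (W + W0) + 2, by linarith, ?_⟩
  intro T hT hline s hs1 hs2
  have hL0 : 0 < Real.log T := Real.log_pos (by linarith)
  have hab' := hab T (by linarith)
  rcases le_total s.re 2 with h | h
  · have hin : ∀ w : ℂ, |w.im - s.im| ≤ W0 → |w.im - T| ≤ W + W0 := by
      intro w hw
      have : w.im - T = (w.im - s.im) + (s.im - T) := by ring
      rw [this]
      refine (abs_add_le _ _).trans ?_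
      linarith
    have h3 := hltl (Real.log T) hL0.le riemannZeta s.im
      (fun w _ _ hw => zeta_diff_im (by
        have := (abs_le.mp (hin w hw)).1
        linarith))
      (fun w hw1 _ hw => hgr T (by linarith) w (by linarith) (hin w hw))
      (fun w hw1 hw => by
        have e : w = 1 / 2 + I * (w.im : ℂ) := by
          apply Complex.ext
          · simp [hw1]
          · simp
        rw [e]
        exact hline w.im (hin w hw))
      (fun w hw1 _ => (hM w (by linarith)).trans hab')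
      s hs1 h rfl
    refine h3.trans (le_of_eq ?_)
    congr 2
    ring
  · refine (hM s (by linarith)).trans (hab'.trans ?_)
    apply Real.exp_le_exp.mpr
    nlinarith

/-- the logarithmic derivative of zeta in a zero free region where zeta is small -/
lemma zld_small {x κ R : ℝ} (hx : 0 < x) (hx1 : x ≤ 1 / 2) (hκ : 0 < κ) (hR : 0 < R) :
    ∃ η R' T1 : ℝ, 0 < η ∧ 0 < R' ∧ 3 ≤ T1 ∧ ∀ t : ℝ, T1 ≤ t →
      (∀ y : ℝ, |y - t| ≤ R' → ‖riemannZeta (1 / 2 + I * y)‖ ≤ Real.exp (η * Real.log t)) →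
      (∀ b : ℂ, Yz b = 0 → |b.im - t| ≤ R + 8 → b.re ≤ x / 4) →
      ∀ z : ℂ, x ≤ z.re → z.re ≤ 4 → |z.im - t| ≤ R →
        riemannZeta (1 / 2 + z) ≠ 0 ∧ ‖logDeriv riemannZeta (1 / 2 + z)‖ ≤ κ * Real.log t := by
  obtain ⟨c, hc0, hc⟩ := Pool.Agent.Y24.zeta_lower
  set ε : ℝ := κ * x ^ 2 / 256 with hε
  have hε0 : 0 < ε := by positivity
  obtain ⟨R', hRR', T0, hT0, h⟩ := small_strip (W := R + 8) hε0 (by linarith)
  -- the constant
  set D : ℝ := |Real.log c| with hD
  have hD0 : 0 ≤ D := abs_nonneg _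
  set X : ℝ := 256 * (D + 1) / (κ * x ^ 2) with hX
  have hX0 : 0 ≤ X := by positivity
  refine ⟨ε / 2, R', T0 + R + 8 + Real.exp X, by positivity, by linarith, by
    have := Real.exp_pos X
    linarith, ?_⟩
  intro t ht hline hfree z hz1 hz2 hz3
  have he := Real.exp_pos X
  have hL : X ≤ Real.log t := by
    rw [Real.le_log_iff_exp_le (by linarith)]
    linarith
  have hL0 : 0 ≤ Real.log t := hX0.trans hL
  have hs := h t (by linarith) hline
  -- the disc
  set f : ℂ → ℂ := fun w => riemannZeta (1 / 2 + w) with hf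
  set C0 : ℂ := ⟨4, z.im⟩ with hC0
  have hC0re : C0.re = 4 := rfl
  have hC0im : C0.im = z.im := rfl
  have hz3' := abs_le.mp hz3
  have hin : ∀ w ∈ closedBall C0 (4 - x / 2), x / 2 ≤ w.re ∧ |w.im - t| ≤ R + 8 ∧ 0 < w.im := by
    intro w hw
    rw [mem_closedBall, dist_eq_norm] at hw
    have h1 := (abs_re_le_norm (w - C0)).trans hw
    have h2 := (abs_im_le_norm (w - C0)).trans hw
    rw [sub_re, hC0re, abs_le] at h1
    rw [sub_im, hC0im, abs_le] at h2
    refine ⟨by linarith, ?_, by linarith⟩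
    rw [abs_le]
    constructor <;> linarith
  have hne : ∀ w ∈ closedBall C0 (4 - x / 2), f w ≠ 0 := by
    intro w hw h0
    obtain ⟨h1, h2, h3⟩ := hin w hw
    have h4 := hfree w (Yz_of_zeta (by linarith) (by
      intro h
      rw [h] at h3
      norm_num at h3) h0) h2
    linarith
  have han : AnalyticOnNhd ℂ f (closedBall C0 (4 - x / 2)) := by
    intro w hw
    obtain ⟨h1, h2, h3⟩ := hin w hw
    have hU : IsOpen {u : ℂ | 0 < u.im} := isOpen_lt continuous_const continuous_im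
    have hd : DifferentiableOn ℂ f {u : ℂ | 0 < u.im} := by
      intro u hu
      have hu' : 0 < u.im := hu
      have h5 : DifferentiableAt ℂ riemannZeta (1 / 2 + u) := zeta_diff_im (by
        simp
        exact hu')
      exact (h5.comp u ((differentiableAt_const _).add differentiableAt_id)).differentiableWithinAt
    exact hd.analyticAt (hU.mem_nhds h3)
  -- the lower bound at the centre
  have hfc : c ≤ ‖f C0‖ := hc _ (by
    rw [half_re, hC0re]
    norm_num)
  set B : ℝ := ε * Real.log t + D with hB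
  have hB0 : 0 ≤ B := by positivity
  have hbd : ∀ w ∈ closedBall C0 (4 - x / 2), ‖f w‖ ≤ Real.exp B * ‖f C0‖ := by
    intro w hw
    obtain ⟨h1, h2, h3⟩ := hin w hw
    have h4 : ‖f w‖ ≤ Real.exp (ε * Real.log t) := hs (1 / 2 + w) (by
      rw [half_re]
      linarith) (by
      have him : (1 / 2 + w : ℂ).im = w.im := by simp
      rw [him]
      exact h2)
    have h5 : 1 ≤ Real.exp D * ‖f C0‖ := by
      have h6 : 1 / c ≤ Real.exp D := by
        rw [one_div, ← Real.exp_log (inv_pos.mpr hc0), Real.log_inv]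
        apply Real.exp_le_exp.mpr
        exact neg_le_abs _
      calc (1 : ℝ) = 1 / c * c := by field_simp
        _ ≤ Real.exp D * ‖f C0‖ := by gcongr
    calc ‖f w‖ ≤ Real.exp (ε * Real.log t) * 1 := by rw [mul_one]; exact h4
      _ ≤ Real.exp (ε * Real.log t) * (Real.exp D * ‖f C0‖) := by gcongr
      _ = Real.exp B * ‖f C0‖ := by rw [hB, Real.exp_add]; ring
  have hzin : z ∈ closedBall C0 (4 - x) := by
    rw [mem_closedBall, dist_eq_norm]
    have e : z - C0 = ((z.re - 4 : ℝ) : ℂ) := by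
      apply Complex.ext
      · simp [hC0re]
      · simp [hC0im]
    rw [e, norm_real, Real.norm_eq_abs, abs_le]
    constructor <;> linarith
  have hzne : f z ≠ 0 := hne z (closedBall_subset_closedBall (by linarith) hzin)
  refine ⟨hzne, ?_⟩
  have hmain := H370.Loc.logDeriv_zero_free (r := 4 - x / 2) (r1 := 4 - 3 * x / 4) (r2 := 4 - x)
    (by linarith) (by linarith) (by linarith) hB0 han hne hbd hzin
  have hld : logDeriv f z = logDeriv riemannZeta (1 / 2 + z) := by
    have hzim : 0 < z.im := (hin z (closedBall_subset_closedBall (by linarith) hzin)).2.2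
    have d0 : HasDerivAt (fun z : ℂ => 1 / 2 + z) 1 z := (hasDerivAt_id z).const_add _
    have h5 : DifferentiableAt ℂ riemannZeta (1 / 2 + z) := zeta_diff_im (by
        simp
        exact hzim)
    have d1 : HasDerivAt f (deriv riemannZeta (1 / 2 + z)) z := by
      have := HasDerivAt.comp z h5.hasDerivAt d0
      rw [mul_one] at this
      exact this
    rw [logDeriv_apply, logDeriv_apply, d1.deriv]
  rw [hld] at hmain
  refine hmain.trans ?_
  have e1 : (4 - x / 2) - (4 - 3 * x / 4) = x / 4 := by ring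
  have e2 : (4 - 3 * x / 4) - (4 - x) = x / 4 := by ring
  rw [e1, e2]
  have h7 : 2 * (B + 1) * (4 - 3 * x / 4) / (x / 4) / (x / 4) ≤ 128 * (B + 1) / x ^ 2 := by
    have : 2 * (B + 1) * (4 - 3 * x / 4) / (x / 4) / (x / 4) =
        32 * (B + 1) * (4 - 3 * x / 4) / x ^ 2 := by
      field_simp
      ring
    rw [this]
    apply div_le_div_of_nonneg_right _ (by positivity)
    nlinarith
  refine h7.trans ?_
  rw [div_le_iff₀ (by positivity), hB, hε]
  have h8 : 256 * (D + 1) ≤ κ * x ^ 2 * Real.log t := by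
    have : 256 * (D + 1) / (κ * x ^ 2) ≤ Real.log t := hL
    rw [div_le_iff₀ (by positivity)] at this
    linarith
  nlinarith

/-! ### Few zeros far from the line -/

lemma mu_ge {b : ℂ} (hb : Yz b = 0) : 1 ≤ mu b := by
  have han : AnalyticOnNhd ℂ Yz Set.univ := fun z _ => Yz_diff.analyticAt z
  have h1 : analyticOrderAt Yz b ≠ ⊤ := by
    intro h
    rw [analyticOrderAt_eq_top] at h
    have h2 := han.eqOn_zero_of_preconnected_of_eventuallyEq_zero isPreconnected_univ
      (Set.mem_univ b) h (Set.mem_univ (1 : ℂ))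
    exact Yz_ne (by norm_num) h2
  have h2 : analyticOrderAt Yz b ≠ 0 := by
    intro h
    exact (((han b (Set.mem_univ b)).analyticOrderAt_eq_zero).mp h) hb
  have h3 : analyticOrderNatAt Yz b ≠ 0 := by
    intro h
    unfold analyticOrderNatAt at h
    rw [ENat.toNat_eq_zero] at h
    rcases h with h | h
    · exact h2 h
    · exact h1 h
  have h4 : 1 ≤ analyticOrderNatAt Yz b := Nat.one_le_iff_ne_zero.mpr h3
  unfold mu
  exact_mod_cast h4

/-- the zeros far from the line are few -/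
lemma few (h : S_EXPW) {x : ℝ} (hx : 0 < x) : ∃ C T0 : ℝ, 0 < C ∧ 10 ≤ T0 ∧ ∀ T : ℝ, T0 ≤ T →
    ∃ B : Finset ℂ, (∀ b : ℂ, Yz b = 0 → x ≤ b.re → T / 4 ≤ |b.im| → |b.im| ≤ 8 * T → b ∈ B) ∧
      (B.card : ℝ) ≤ C * T * Real.log T * Real.exp (-(Real.log T / 4 * x)) := by
  obtain ⟨C, T0, hC, hT0, h⟩ := h
  refine ⟨C, T0, hC, hT0, fun T hT => ?_⟩
  have hL : 0 < Real.log T := Real.log_pos (by linarith)
  set Z : Set ℂ := {b : ℂ | Yz b = 0 ∧ x ≤ b.re ∧ T / 4 ≤ |b.im| ∧ |b.im| ≤ 8 * T} with hZ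
  set N : ℝ := C * T * Real.log T * Real.exp (-(Real.log T / 4 * x)) with hN
  have key : ∀ B : Finset ℂ, (∀ b ∈ B, b ∈ Z) → (B.card : ℝ) ≤ N := by
    intro B hB
    have h1 := h T hT B (fun b hb => ⟨(hB b hb).1, (hB b hb).2.2.1, (hB b hb).2.2.2⟩)
    have h2 : (B.card : ℝ) * Real.exp (Real.log T / 4 * x) ≤
        ∑ b ∈ B, mu b * Real.exp (Real.log T / 4 * |b.re|) := by
      rw [← nsmul_eq_mul, ← Finset.sum_const]
      apply Finset.sum_le_sum
      intro b hb
      have h3 := mu_ge (hB b hb).1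
      have h4 : Real.exp (Real.log T / 4 * x) ≤ Real.exp (Real.log T / 4 * |b.re|) := by
        apply Real.exp_le_exp.mpr
        have h5 : x ≤ |b.re| := (hB b hb).2.1.trans (le_abs_self _)
        gcongr
      have h6 := Real.exp_pos (Real.log T / 4 * |b.re|)
      nlinarith
    have h3 := h2.trans h1
    have h4 := Real.exp_pos (Real.log T / 4 * x)
    rw [hN, Real.exp_neg, ← div_eq_mul_inv, le_div_iff₀ h4]
    exact h3
  have hfin : Z.Finite := by
    by_contra hinf
    obtain ⟨B, hB1, hB2⟩ := Set.Infinite.exists_subset_card_eq hinf (⌊N⌋₊ + 1)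
    have h1 := key B (fun b hb => hB1 hb)
    rw [hB2] at h1
    have h2 := Nat.lt_floor_add_one N
    push_cast at h1
    linarith
  refine ⟨hfin.toFinset, fun b h1 h2 h3 h4 => hfin.mem_toFinset.mpr ⟨h1, h2, h3, h4⟩, ?_⟩
  exact key _ (fun b hb => hfin.mem_toFinset.mp hb)

/-- few points see a zero far from the line -/
lemma few_points (h : S_EXPW) {x R ε : ℝ} (hx : 0 < x) (hR : 0 < R) (hε : 0 < ε) :
    ∃ T0 : ℝ, 10 ≤ T0 ∧ ∀ T : ℝ, T0 ≤ T →
      volume {t : ℝ | t ∈ Icc T (2 * T) ∧ ∃ b : ℂ, Yz b = 0 ∧ x ≤ b.re ∧ |b.im - t| ≤ R} ≤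
        ENNReal.ofReal (ε * T) := by
  obtain ⟨C, T0, hC, hT0, h⟩ := few h hx
  obtain ⟨T1, hT1, hab⟩ := absorb_log (2 * R * C / ε) 1 (show 0 < x / 4 by positivity)
  refine ⟨T0 + T1 + 2 * R, by linarith, fun T hT => ?_⟩
  have hT0' : 0 < T := by linarith
  obtain ⟨B, hB1, hB2⟩ := h T (by linarith)
  have hsub : {t : ℝ | t ∈ Icc T (2 * T) ∧ ∃ b : ℂ, Yz b = 0 ∧ x ≤ b.re ∧ |b.im - t| ≤ R} ⊆
      ⋃ b ∈ B, Icc (b.im - R) (b.im + R) := by
    rintro t ⟨⟨h1, h2⟩, b, hb, hbx, hbt⟩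
    have h3 := abs_le.mp hbt
    have h4 : 0 < b.im := by linarith
    rw [mem_iUnion₂]
    refine ⟨b, hB1 b hb hbx ?_ ?_, ?_⟩
    · rw [abs_of_pos h4]; linarith
    · rw [abs_of_pos h4]; linarith
    · constructor <;> linarith
  refine (measure_mono hsub).trans ?_
  refine (measure_biUnion_finset_le B _).trans ?_
  have e : ∀ b ∈ B, volume (Icc (b.im - R) (b.im + R)) = ENNReal.ofReal (2 * R) := by
    intro b _
    rw [Real.volume_Icc]
    congr 1
    ring
  rw [Finset.sum_congr rfl e, Finset.sum_const, nsmul_eq_mul, ← ENNReal.ofReal_natCast,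
    ← ENNReal.ofReal_mul (by positivity)]
  apply ENNReal.ofReal_le_ofReal
  have h5 := hab T (by linarith)
  rw [pow_one, div_mul_eq_mul_div, div_le_iff₀ hε] at h5
  have h6 := Real.exp_pos (x / 4 * Real.log T)
  have e2 : Real.exp (-(Real.log T / 4 * x)) * Real.exp (x / 4 * Real.log T) = 1 := by
    rw [← Real.exp_add]
    rw [show -(Real.log T / 4 * x) + x / 4 * Real.log T = 0 by ring, Real.exp_zero]
  calc (B.card : ℝ) * (2 * R) ≤ C * T * Real.log T * Real.exp (-(Real.log T / 4 * x)) * (2 * R) := by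
        gcongr
    _ = T * Real.exp (-(Real.log T / 4 * x)) * (2 * R * C * Real.log T) := by ring
    _ ≤ T * Real.exp (-(Real.log T / 4 * x)) * (Real.exp (x / 4 * Real.log T) * ε) := by gcongr
    _ = T * (Real.exp (-(Real.log T / 4 * x)) * Real.exp (x / 4 * Real.log T)) * ε := by ring
    _ = ε * T := by rw [e2]; ring

theorem anc (h : S_GW) (h2 : S_EXPW) : S_ANC := by
  intro x1 κ R ε hx1 hκ hR hε
  -- reduce to `x ≤ 1 / 2`
  set x : ℝ := min x1 (1 / 2) with hx
  have hx0 : 0 < x := lt_min hx1 (by norm_num)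
  have hxx1 : x ≤ x1 := min_le_left _ _
  have hxh : x ≤ 1 / 2 := min_le_right _ _
  obtain ⟨η, R', T1, hη, hR', hT1, hloc⟩ := zld_small hx0 hxh (κ := κ / 4) (by positivity) hR
  obtain ⟨C, hC0, hC⟩ := P_near
  obtain ⟨T2, hT2, hf⟩ := few_points h2 (x := x / 4) (R := R + 8) (ε := ε / 2) (by positivity)
    (by positivity) (by positivity)
  obtain ⟨T3, hT3, hg⟩ := h R' η (ε / 2) hR' hη (by positivity)
  set X : ℝ := 4 * C / κ + 1 with hX
  have hX0 : 0 ≤ X := by positivity
  refine ⟨T1 + T2 + T3 + 2 * R + Real.exp X, by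
    have := Real.exp_pos X
    linarith, fun T hT => ?_⟩
  have he := Real.exp_pos X
  have hT0 : 0 < T := by linarith
  have hLX : X ≤ Real.log T := by
    rw [Real.le_log_iff_exp_le hT0]
    linarith
  have hL1 : 1 ≤ Real.log T := by
    have : 0 ≤ 4 * C / κ := by positivity
    linarith
  have hsub : {t : ℝ | t ∈ Icc T (2 * T) ∧ ∃ z : ℂ, x1 ≤ z.re ∧ z.re ≤ 4 ∧ |z.im - t| ≤ R ∧
      κ * Real.log T < ‖P z - (Real.log T / 2 : ℝ)‖} ⊆
      {t : ℝ | t ∈ Icc T (2 * T) ∧ ∃ b : ℂ, Yz b = 0 ∧ x / 4 ≤ b.re ∧ |b.im - t| ≤ R + 8} ∪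
      {t : ℝ | t ∈ Icc T (2 * T) ∧
        ∃ y : ℝ, |y - t| ≤ R' ∧ T ^ η < ‖riemannZeta (1 / 2 + I * y)‖} := by
    rintro t ⟨ht, z, hz1, hz2, hz3, hz4⟩
    by_contra hcon
    rw [mem_union, not_or] at hcon
    obtain ⟨c1, c2⟩ := hcon
    have c1' : ∀ b : ℂ, Yz b = 0 → |b.im - t| ≤ R + 8 → b.re ≤ x / 4 := by
      intro b hb1 hb2
      by_contra h3
      push Not at h3
      exact c1 ⟨ht, b, hb1, h3.le, hb2⟩
    have c2' : ∀ y : ℝ, |y - t| ≤ R' → ‖riemannZeta (1 / 2 + I * y)‖ ≤ T ^ η := by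
      intro y hy
      by_contra h3
      push Not at h3
      exact c2 ⟨ht, y, hy, h3⟩
    have ht0 : 0 < t := by linarith [ht.1]
    obtain ⟨a1, a2⟩ := hloc t (by linarith [ht.1]) (fun y hy => (c2' y hy).trans (by
      rw [exp_mul_log ht0]
      exact Real.rpow_le_rpow hT0.le ht.1 hη.le)) c1' z (by linarith) hz2 hz3
    have hz3' := abs_le.mp hz3
    have a3 := hC T z (by linarith) (by linarith) hz2 (by linarith [ht.1]) (by linarith [ht.2]) a1
    have a4 : Real.log t ≤ 2 * Real.log T := by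
      have l2 : Real.log 2 ≤ 1 := by
        have := Real.log_le_sub_one_of_pos (show (0 : ℝ) < 2 by norm_num)
        linarith
      have := Real.log_le_log ht0 ht.2
      rw [Real.log_mul (by norm_num) (by linarith)] at this
      linarith
    have a5 : κ / 4 * Real.log t ≤ κ / 2 * Real.log T := by nlinarith
    have a6 : C ≤ κ / 4 * Real.log T := by
      have h5 : 4 * C / κ ≤ Real.log T := by linarith
      rw [div_le_iff₀ hκ] at h5
      linarith
    have a7 : 0 < κ * Real.log T := by positivity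
    linarith
  refine (measure_mono hsub).trans ((measure_union_le _ _).trans ?_)
  refine (add_le_add (hf T (by linarith)) (hg T (by linarith))).trans (le_of_eq ?_)
  rw [← ENNReal.ofReal_add (by positivity) (by positivity)]
  congr 1
  ring

end Pool.Agent.H980.HP
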