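import Pool.Agent.H354.HP.E1
import Pool.Agent.H548.HP.EXPW
import Pool.Agent.H328.HP.E2
import Pool.Agent.H466.HP.XEF
import Pool.Agent.H870.HP.DM
import Pool.Agent.H466.HP.XDALL
import Pool.Agent.H118.HP.GW
import Pool.Agent.H466.HP.XAnc
import Pool.Agent.H333.HP.Mono
import Pool.Agent.H115.HP.CONE
import Pool.Agent.H627.HP.QM
import Pool.Agent.H332.HP.Var
import Pool.Agent.H51.HP.RegCore

/-!
# Assembly: the regular points
-/

set_option autoImplicit false

namespace Pool.Agent.H466.HP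

theorem z1 : S_Z1 := Pool.Agent.H354.HP.z1
theorem expw : S_EXPW := Pool.Agent.H548.HP.expw
theorem e1 : S_E1 := Pool.Agent.H354.HP.e1 z1
theorem e2 : S_E2 := Pool.Agent.H328.HP.e2 z1
theorem ef : S_EF := Pool.Agent.H588.HP.ef z1
theorem dm : S_DM := Pool.Agent.H870.HP.dm
theorem dall : S_DALL := Pool.Agent.H120.HP.dall dm
theorem gw_all : S_GW := Pool.Agent.H118.HP.gw'
theorem anc : S_ANC := Pool.Agent.H980.HP.anc gw_all expw
theorem mono : S_MONO := Pool.Agent.H333.HP.mono
theorem cone : S_CONE := Pool.Agent.H115.HP.cone expw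
theorem qm : S_QM := Pool.Agent.H627.HP.qm z1 expw
theorem var : S_VAR := Pool.Agent.H332.HP.var e1 e2 ef cone qm dall

theorem reg : S_REG := fun M κ ε hM hκ hε =>
  Pool.Agent.H51.HP.reg_core P CF Kt (fun _ _ _ _ => rfl) var anc M κ ε hM hκ hε

end Pool.Agent.H466.HP
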