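import Pool.Agent.H466.HP.Stm

/-!
# Statements, second stage: exponentially small exceptional sets
-/

set_option autoImplicit false

namespace Pool.Agent.H466.HP

open Complex MeasureTheory Set Filter Topology
open Pool.Agent.H862.VK (Yz)

/-- `t` is regular at the scale `y0` -/
def Reg1 (t y0 M κ L : ℝ) : Prop :=
  CF t y0 M ∧ ∀ z ∈ Kt t y0 4 M, ‖P z - (L / 2 : ℝ)‖ ≤ κ * L

/-- high moments of polynomials over the primes -/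
def S_MOM : Prop :=
  ∀ (N k : ℕ) (T : ℝ) (a : ℕ → ℂ), 1 ≤ k → 1 ≤ T → ((N : ℝ) + 1) ^ (4 * k) ≤ T →
    ∫⁻ t in Icc T (2 * T), ENNReal.ofReal
      (‖∑ p ∈ (Finset.Icc 1 N).filter Nat.Prime, a p * cexp (-(I * t * Real.log p))‖ ^ (2 * k)) ≤
      ENNReal.ofReal (4 * T * (k.factorial : ℝ) *
        (∑ p ∈ (Finset.Icc 1 N).filter Nat.Prime, ‖a p‖ ^ 2) ^ k)

/-- most points have a small prime side, with an exponentially small exceptional set; the length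
of the prime side is adapted to the distance `X` from the line -/
def S_DEXP : Prop :=
  ∀ M κ B : ℝ, 1 ≤ M → 0 < κ → 1 ≤ B → ∃ C c T0 : ℝ, 0 < C ∧ 0 < c ∧ 10 ≤ T0 ∧
    ∀ T : ℝ, T0 ≤ T → ∀ X : ℝ, 0 < X → X ≤ 1 →
    volume {t : ℝ | t ∈ Icc T (2 * T) ∧
      ∃ z ∈ Kt t X 1 M, κ * Real.log T < ‖Dp (B / X) z t‖} ≤
      ENNReal.ofReal (C * T * Real.exp (-(c * X * Real.log T)))

/-- the part of `Q` from the zeros at distance `> X / 4` from the line -/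
noncomputable def QF (U X x t : ℝ) : ℝ :=
  ∑' b : Zr, if X / 4 < |(b : ℂ).re| then
    mu b * Real.exp (U * |(b : ℂ).re|) * Real.exp (-((b : ℂ).im - t) ^ 2 / 2) /
      (x + |(b : ℂ).im - t|) ^ 2 else 0

/-- weak type bound for `QF` -/
def S_QF : Prop :=
  ∃ C T0 : ℝ, 0 < C ∧ 10 ≤ T0 ∧ ∀ T : ℝ, T0 ≤ T → ∀ U X x Λ : ℝ, 0 ≤ U → U ≤ Real.log T / 16 →
    0 < X → 0 < x → x ≤ 1 → 0 < Λ →
    volume {t : ℝ | t ∈ Icc T (2 * T) ∧ Λ < QF U X x t} ≤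
      ENNReal.ofReal (C * T * Real.log T * Real.exp (-(X * Real.log T / 64)) / (x * Λ))

/-- the real part of `P` controls the number of the zeros -/
def S_REP : Prop :=
  ∃ C : ℝ, 0 < C ∧ ∀ M t y0 x : ℝ, 1 ≤ M → 0 < y0 → y0 ≤ x → x ≤ 1 → CF t y0 M →
    Summable (fun b : Zr => mu b / (x + |(b : ℂ).im - t|) ^ 2) ∧
    ∑' b : Zr, mu b / (x + |(b : ℂ).im - t|) ^ 2 ≤ C / x * (P (x + I * t)).re

/-- windows with small values of zeta, power saving -/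
def S_GWP : Prop :=
  ∀ R η : ℝ, 0 < R → 0 < η → ∃ T0 : ℝ, 10 ≤ T0 ∧ ∀ T : ℝ, T0 ≤ T →
    volume {t : ℝ | t ∈ Icc T (2 * T) ∧
      ∃ y : ℝ, |y - t| ≤ R ∧ T ^ η < ‖riemannZeta (1 / 2 + I * y)‖} ≤
      ENNReal.ofReal (T ^ (1 - η))

/-- the anchor, power saving -/
def S_ANCP : Prop :=
  ∀ x1 κ R : ℝ, 0 < x1 → 0 < κ → 0 < R → ∃ c T0 : ℝ, 0 < c ∧ 10 ≤ T0 ∧ ∀ T : ℝ, T0 ≤ T →
    volume {t : ℝ | t ∈ Icc T (2 * T) ∧ ∃ z : ℂ, x1 ≤ z.re ∧ z.re ≤ 4 ∧ |z.im - t| ≤ R ∧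
      κ * Real.log T < ‖P z - (Real.log T / 2 : ℝ)‖} ≤ ENNReal.ofReal (T ^ (1 - c))

/-- the regular points, with exponentially small exceptional sets -/
def S_REGX : Prop :=
  ∀ M κ : ℝ, 1 ≤ M → 0 < κ → ∃ C c T0 : ℝ, 0 < C ∧ 0 < c ∧ 10 ≤ T0 ∧ ∀ T : ℝ, T0 ≤ T →
    (∀ y0 : ℝ, 0 < y0 → volume {t : ℝ | t ∈ Icc (T / 2) (4 * T) ∧
        ¬ Reg1 t y0 M κ (Real.log T)} ≤
      ENNReal.ofReal (C * T * Real.exp (-(c * y0 * Real.log T)))) ∧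
    ∀ y0 : ℝ, 2 ≤ y0 → ∀ t ∈ Icc (T / 2) (4 * T), Reg1 t y0 M κ (Real.log T)

end Pool.Agent.H466.HP
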