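import Pool.Agent.H466.HP.H8

/-!
# Nearly all zeros of the heat flow are simple and on the line once `λ log² T` is large
-/

set_option autoImplicit false

open Complex MeasureTheory Filter Topology Set
open scoped ComplexConjugate

namespace Pool.Agent.H466.HP

open Pool.Agent.H466.HF Pool.Agent.H466.LD

/-- from counts of zeros to simple zeros -/
lemma simple_of_counts {A lam T N ε : ℝ} (k : Kern gk A 1) (hlam : 0 < lam)
    (h1 : ∃ S : Finset ℝ, (∀ y ∈ S, T < y ∧ y < 2 * T ∧ LL gk lam ((y : ℂ) * I) = 0) ∧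
      (1 - ε) * N ≤ (S.card : ℝ))
    (h2 : ∀ S : Finset ℂ, (∀ z ∈ S, LL gk lam z = 0 ∧ T ≤ z.im ∧ z.im ≤ 2 * T) →
      ∑ z ∈ S, (analyticOrderNatAt (LL gk lam) z : ℝ) ≤ (1 + ε) * N) :
    (∃ S : Finset ℝ, (∀ y ∈ S, T < y ∧ y < 2 * T ∧ LL gk lam ((y : ℂ) * I) = 0 ∧
        deriv (LL gk lam) ((y : ℂ) * I) ≠ 0) ∧ (1 - 3 * ε) * N ≤ (S.card : ℝ)) ∧
    ∀ S : Finset ℂ, (∀ z ∈ S, LL gk lam z = 0 ∧ T ≤ z.im ∧ z.im ≤ 2 * T) →
      ∑ z ∈ S, ((analyticOrderNatAt (LL gk lam) z : ℝ) - if z.re = 0 then 1 else 0) ≤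
        2 * ε * N := by
  classical
  obtain ⟨S0, hS0, hc⟩ := h1
  set m : ℂ → ℝ := fun z => (analyticOrderNatAt (LL gk lam) z : ℝ) - if z.re = 0 then 1 else 0
    with hm
  have hinj : Function.Injective (fun y : ℝ => (y : ℂ) * I) := by
    intro x y hxy
    have h2 := mul_right_cancel₀ I_ne_zero hxy
    exact_mod_cast h2
  set S0' : Finset ℂ := S0.image (fun y : ℝ => (y : ℂ) * I) with hS0'
  have hS0m : ∀ z ∈ S0', LL gk lam z = 0 ∧ T ≤ z.im ∧ z.im ≤ 2 * T ∧ z.re = 0 := by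
    intro z hz
    rw [hS0', Finset.mem_image] at hz
    obtain ⟨y, hy, rfl⟩ := hz
    obtain ⟨a1, a2, a3⟩ := hS0 y hy
    refine ⟨a3, ?_, ?_, ?_⟩
    · simpa using a1.le
    · simpa using a2.le
    · simp
  have hcard : (S0'.card : ℝ) = (S0.card : ℝ) := by
    rw [hS0', Finset.card_image_of_injective _ hinj]
  have hkey : ∀ S : Finset ℂ, (∀ z ∈ S, LL gk lam z = 0 ∧ T ≤ z.im ∧ z.im ≤ 2 * T) →
      ∑ z ∈ S, m z ≤ 2 * ε * N := by
    intro S hS
    have hU : ∀ z ∈ S ∪ S0', LL gk lam z = 0 ∧ T ≤ z.im ∧ z.im ≤ 2 * T := by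
      intro z hz
      rw [Finset.mem_union] at hz
      rcases hz with h | h
      · exact hS z h
      · exact ⟨(hS0m z h).1, (hS0m z h).2.1, (hS0m z h).2.2.1⟩
    have h3 := h2 (S ∪ S0') hU
    have h4 : ∑ z ∈ S, m z ≤ ∑ z ∈ S ∪ S0', m z :=
      Finset.sum_le_sum_of_subset_of_nonneg Finset.subset_union_left fun z hz _ =>
        excess_nonneg k hlam (hU z hz).1
    have h5 : ∑ z ∈ S ∪ S0', m z = ∑ z ∈ S ∪ S0', (analyticOrderNatAt (LL gk lam) z : ℝ) -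
        ∑ z ∈ S ∪ S0', (if z.re = 0 then (1 : ℝ) else 0) := by
      rw [hm, Finset.sum_sub_distrib]
    have h6 : (S0'.card : ℝ) ≤ ∑ z ∈ S ∪ S0', (if z.re = 0 then (1 : ℝ) else 0) := by
      calc (S0'.card : ℝ) = ∑ z ∈ S0', (if z.re = 0 then (1 : ℝ) else 0) := by
            rw [Finset.sum_congr rfl (g := fun _ => (1 : ℝ)) (fun z hz => if_pos (hS0m z hz).2.2.2)]
            simp
        _ ≤ _ := Finset.sum_le_sum_of_subset_of_nonneg Finset.subset_union_right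
            fun z _ _ => by split_ifs <;> norm_num
    linarith
  refine ⟨⟨S0.filter (fun y => deriv (LL gk lam) ((y : ℂ) * I) ≠ 0), fun y hy => ?_, ?_⟩, hkey⟩
  · rw [Finset.mem_filter] at hy
    obtain ⟨a1, a2, a3⟩ := hS0 y hy.1
    exact ⟨a1, a2, a3, hy.2⟩
  · have h3 := hkey S0' (fun z hz => ⟨(hS0m z hz).1, (hS0m z hz).2.1, (hS0m z hz).2.2.1⟩)
    have h4 : ((S0.filter (fun y : ℝ => ¬ deriv (LL gk lam) ((y : ℂ) * I) ≠ 0)).card : ℝ) ≤
        ∑ z ∈ S0', m z := by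
      rw [hS0', Finset.sum_image (fun x _ y _ h => hinj h)]
      rw [Finset.card_filter]
      push_cast
      refine Finset.sum_le_sum fun y hy => ?_
      obtain ⟨a1, a2, a3⟩ := hS0 y hy
      have e : ((y : ℂ) * I).re = 0 := by simp
      rw [hm]
      simp only [e, if_true]
      split_ifs with h5
      · have h6 := order_ge_one (k.differentiable lam) (Fl_ne hlam) a3
        have h7 : (1 : ℝ) ≤ (analyticOrderNatAt (LL gk lam) ((y : ℂ) * I) : ℝ) := by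
          exact_mod_cast h6
        linarith
      · have h5' : deriv (LL gk lam) ((y : ℂ) * I) = 0 := not_not.mp h5
        have h6 := order_ge_two (k.differentiable lam) (Fl_ne hlam) a3 h5'
        have h7 : (2 : ℝ) ≤ (analyticOrderNatAt (LL gk lam) ((y : ℂ) * I) : ℝ) := by
          exact_mod_cast h6
        linarith
    have h5 : ((S0.filter (fun y : ℝ => deriv (LL gk lam) ((y : ℂ) * I) ≠ 0)).card : ℝ) +
        ((S0.filter (fun y : ℝ => ¬ deriv (LL gk lam) ((y : ℂ) * I) ≠ 0)).card : ℝ) =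
        (S0.card : ℝ) := by
      have := Finset.card_filter_add_card_filter_not (s := S0)
        (fun y : ℝ => deriv (LL gk lam) ((y : ℂ) * I) ≠ 0)
      exact_mod_cast this
    linarith

/-- **main theorem** in terms of `LL gk` -/
theorem main_LL {ε δ : ℝ} (hε : 0 < ε) (hε1 : ε ≤ 1) (hδ : 0 < δ) : ∃ A0 T0 : ℝ, 0 < A0 ∧
    10 ≤ T0 ∧ ∀ T lam : ℝ, T0 ≤ T → 0 < lam → A0 ≤ lam * Real.log T ^ 2 →
      lam * Real.log T ≤ δ →
    (∃ S : Finset ℝ, (∀ y ∈ S, T < y ∧ y < 2 * T ∧ LL gk lam ((y : ℂ) * I) = 0 ∧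
        deriv (LL gk lam) ((y : ℂ) * I) ≠ 0) ∧
      (1 - ε) * (T * Real.log T / (2 * Real.pi)) ≤ (S.card : ℝ)) ∧
    ∀ S : Finset ℂ, (∀ z ∈ S, LL gk lam z = 0 ∧ T ≤ z.im ∧ z.im ≤ 2 * T) →
      ∑ z ∈ S, ((analyticOrderNatAt (LL gk lam) z : ℝ) - if z.re = 0 then 1 else 0) ≤
        ε * (T * Real.log T / (2 * Real.pi)) := by
  obtain ⟨A, -, -, -, -, -, -, -, k, -⟩ := far_data
  obtain ⟨δ1, hδ1, hsmall⟩ := small_range
  obtain ⟨A0, T1, hA0, hT1, hs⟩ := hsmall (ε / 3) (by positivity) (by linarith)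
  obtain ⟨T2, hT2, hl⟩ := large_range (δ1 := δ1) (δ := max δ δ1) hδ1 (le_max_right _ _) hε hε1
  refine ⟨A0, max T1 T2, hA0, hT1.trans (le_max_left _ _), ?_⟩
  intro T lam hT hlam hA hd
  have b1 : T1 ≤ T := (le_max_left _ _).trans hT
  have b2 : T2 ≤ T := (le_max_right _ _).trans hT
  rcases le_or_gt (lam * Real.log T) δ1 with h | h
  · obtain ⟨h1, h2⟩ := hs T lam b1 hlam hA h
    obtain ⟨h3, h4⟩ := simple_of_counts k hlam h1 h2
    have hN : 0 ≤ T * Real.log T / (2 * Real.pi) := by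
      have hT10 : 10 ≤ T := hT1.trans b1
      have := Real.log_nonneg (show 1 ≤ T by linarith)
      have := Real.pi_pos
      positivity
    refine ⟨?_, fun S hS => (h4 S hS).trans ?_⟩
    · obtain ⟨S, hS, hc⟩ := h3
      refine ⟨S, hS, le_trans (le_of_eq ?_) hc⟩
      ring
    · have : 0 ≤ ε * (T * Real.log T / (2 * Real.pi)) := mul_nonneg hε.le hN
      linarith
  · exact hl T lam b2 hlam h.le (hd.trans (le_max_left _ _))

/-- **main theorem** for the heat flow of the xi function -/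
theorem main_xi {ε δ : ℝ} (hε : 0 < ε) (hε1 : ε ≤ 1) (hδ : 0 < δ) : ∃ A0 T0 : ℝ,
    ∀ T lam : ℝ, T0 ≤ T → A0 ≤ lam * Real.log T ^ 2 → lam * Real.log T ≤ δ →
    (∃ S : Finset ℝ, (∀ y ∈ S, T < y ∧ y < 2 * T ∧ xiHeat lam (1 / 2 + y * I) = 0 ∧
        deriv (xiHeat lam) (1 / 2 + y * I) ≠ 0) ∧
      (1 - ε) * (T * Real.log T / (2 * Real.pi)) ≤ (S.card : ℝ)) ∧
    ∀ S : Finset ℂ, (∀ s ∈ S, xiHeat lam s = 0 ∧ T ≤ s.im ∧ s.im ≤ 2 * T) →
      ∑ s ∈ S, ((analyticOrderNatAt (xiHeat lam) s : ℝ) - if s.re = 1 / 2 then 1 else 0) ≤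
        ε * (T * Real.log T / (2 * Real.pi)) := by
  obtain ⟨A0, T0, hA0, hT0, h⟩ := main_LL hε hε1 hδ
  refine ⟨A0, T0, ?_⟩
  intro T lam hT hA hd
  have hlam : 0 < lam := by
    by_contra hcon
    push Not at hcon
    have : lam * Real.log T ^ 2 ≤ 0 := mul_nonpos_of_nonpos_of_nonneg hcon (sq_nonneg _)
    linarith
  obtain ⟨⟨S, hS, hc⟩, h2⟩ := h T lam hT hlam hA hd
  refine ⟨⟨S, fun y hy => ?_, hc⟩, fun S hS => ?_⟩
  · obtain ⟨a1, a2, a3, a4⟩ := hS y hy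
    have e : (1 / 2 + (y : ℂ) * I) - 1 / 2 = (y : ℂ) * I := by ring
    exact ⟨a1, a2, by rw [xiHeat_eq hlam, e]; exact a3, by rw [xiHeat_deriv hlam, e]; exact a4⟩
  · rw [sum_shift hlam]
    refine h2 _ fun z hz => ?_
    rw [Finset.mem_image] at hz
    obtain ⟨s, hs, rfl⟩ := hz
    obtain ⟨a1, a2, a3⟩ := hS s hs
    rw [xiHeat_eq hlam] at a1
    have e : (s - 1 / 2).im = s.im := by simp
    rw [e]
    exact ⟨a1, a2, a3⟩

end Pool.Agent.H466.HP
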