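import Pool.Agent.H466.HP.Stm3
import Pool.Agent.H466.HP.H9

/-!
# Statements, third stage: the local theorem with saddle points, exceptional zeros
-/

set_option autoImplicit false

namespace Pool.Agent.H466.HP

open Complex MeasureTheory Set Filter Topology
open scoped ComplexConjugate
open Pool.Agent.H466.HF Pool.Agent.H466.LD
open Pool.Agent.H862.VK (Yz)

/-- Lipschitz bound for `P` at a regular point -/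
def S_LIP : Prop :=
  ∀ δ κ1 : ℝ, 0 < δ → 0 < κ1 → ∃ κ T0 : ℝ, 0 < κ ∧ κ ≤ κ1 ∧ 10 ≤ T0 ∧
    ∀ T t y0 s lam : ℝ, T0 ≤ T → T / 2 ≤ t → t ≤ 4 * T → 0 < y0 → Reg1 t y0 64 κ (Real.log T) →
      32 * y0 ≤ s → s ≤ δ + 1 → 0 < lam → lam * Real.log T ≤ s → lam * Real.log T ≤ δ →
      ∀ z : ℂ, s / 16 ≤ z.re → |z.im - t| ≤ 5 / 4 * s →
        Yz z ≠ 0 ∧ (z.re ≤ δ + 2 → ‖P z - (Real.log T / 2 : ℝ)‖ ≤ κ * Real.log T) ∧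
        ∀ z' : ℂ, s / 16 ≤ z'.re → z'.re ≤ δ + 2 → |z'.im - t| ≤ 5 / 4 * s →
          ‖P z - P z'‖ ≤ κ1 * ‖z - z'‖ / lam

/-- the integrand of the heat flow along the horizontal line at the height `t0` -/
noncomputable def Ev (t0 lam : ℝ) (w : ℂ) (v : ℝ) : ℂ :=
  LL gk 0 ((v : ℂ) + (t0 : ℂ) * I) * cexp (-((v : ℂ) - w) ^ 2 / (4 * lam))

/-- saddle point data: the integrand is close to a Gaussian centred at `s0` -/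
structure Sd (t0 lam : ℝ) (w : ℂ) (s s0 κ1 : ℝ) : Prop where
  lam0 : 0 < lam
  sp : 0 < s
  big : 1000 * lam ≤ s ^ 2
  s0s : |s0 - s| ≤ s / 50
  ne : Ev t0 lam w s0 ≠ 0
  right : ∀ v : ℝ, s / 16 ≤ v →
    ‖Ev t0 lam w v - Ev t0 lam w s0 * (Real.exp (-(v - s0) ^ 2 / (4 * lam)) : ℝ)‖ ≤
      κ1 * ((v - s0) ^ 2 / lam) * Real.exp (-(v - s0) ^ 2 / (5 * lam)) * ‖Ev t0 lam w s0‖
  left : ∀ v : ℝ, 0 ≤ v → v ≤ s / 16 →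
    ‖Ev t0 lam w v‖ ≤ Real.exp (-(19 / 100 * (s ^ 2 / lam))) * ‖Ev t0 lam w s0‖

/-- saddle points exist at regular points -/
def S_SAD : Prop :=
  ∀ δ κ1 : ℝ, 0 < δ → 0 < κ1 → ∃ κ T0 : ℝ, 0 < κ ∧ κ ≤ κ1 ∧ 10 ≤ T0 ∧
    ∀ T t y0 lam : ℝ, T0 ≤ T → T / 2 ≤ t → t ≤ 4 * T → 0 < y0 → Reg1 t y0 64 κ (Real.log T) →
      0 < lam → 1000 ≤ lam * Real.log T ^ 2 → lam * Real.log T ≤ δ →
      ∀ w : ℂ, 0 ≤ w.re → w.re ≤ 1 / 2 → |w.im - t| ≤ w.re + lam * Real.log T →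
        32 * y0 ≤ w.re + lam * Real.log T →
        ∃ s0 t0 : ℝ, Sd t0 lam (w - (t0 : ℂ) * I) (w.re + lam * Real.log T) s0 κ1 ∧
          ‖((s0 : ℂ) - (w - (t0 : ℂ) * I)) / (2 * lam) - (Real.log T / 2 : ℝ)‖ ≤
            κ * Real.log T

/-- consequences of the saddle point data for the half transform -/
def S_HALF : Prop :=
  ∀ (t0 lam : ℝ) (w : ℂ) (s s0 κ1 : ℝ), Sd t0 lam w s s0 κ1 → κ1 ≤ 1 / 1000 → 0 ≤ κ1 → 0 ≤ w.re →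
    ‖AA (LL gk 0) t0 lam w - Ev t0 lam w s0‖ ≤ 1 / 20 * ‖Ev t0 lam w s0‖ ∧
    ‖AA (LL gk 0) t0 lam (-conj w)‖ ≤
      (1 / 20 + 11 / 10 * Real.exp (-(s * w.re / (16 * lam)))) * ‖Ev t0 lam w s0‖ ∧
    ∀ h : ℂ, ‖h‖ ^ 2 ≤ lam →
      ‖AA (LL gk 0) t0 lam (w + h) * cexp (h ^ 2 / (4 * lam) - ((s0 : ℂ) - w) / (2 * lam) * h) -
        AA (LL gk 0) t0 lam w‖ ≤ 20 * (‖h‖ / Real.sqrt lam) * ‖Ev t0 lam w s0‖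

/-- lower bound to the right of the line -/
def S_LOW : Prop :=
  ∀ δ κ1 : ℝ, 0 < δ → 0 < κ1 → ∃ κ T0 : ℝ, 0 < κ ∧ κ ≤ κ1 ∧ 10 ≤ T0 ∧
    ∀ T t y0 lam : ℝ, T0 ≤ T → T / 2 ≤ t → t ≤ 4 * T → 0 < y0 → Reg1 t y0 64 κ (Real.log T) →
      0 < lam → 1000 ≤ lam * Real.log T ^ 2 → lam * Real.log T ≤ δ →
      ∀ w : ℂ, 23 ≤ w.re * Real.log T → w.re ≤ 1 / 2 → |w.im - t| ≤ w.re + lam * Real.log T →
        32 * y0 ≤ w.re + lam * Real.log T →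
        LL gk lam w ≠ 0 ∧ ∃ z0 : ℂ,
          ‖z0 - w - (lam * Real.log T : ℝ)‖ ≤ 2 * κ1 * (lam * Real.log T) ∧
          ‖LL gk 0 z0‖ * Real.exp (-(lam * Real.log T ^ 2)) / 2 ≤ ‖LL gk lam w‖

/-- a simple zero on the line whose distance to the next zero is nearly the mean spacing -/
def Good (lam T ε : ℝ) (z : ℂ) : Prop :=
  z.re = 0 ∧ deriv (LL gk lam) z ≠ 0 ∧ ∃ g : ℝ, 0 < g ∧
    |g - 2 * Real.pi / Real.log T| ≤ ε / Real.log T ∧ LL gk lam (z + (g : ℂ) * I) = 0 ∧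
    ∀ z' : ℂ, z.im < z'.im → z'.im < z.im + g → LL gk lam z' ≠ 0

/-- near regular points all zeros are good -/
def S_ZLOC : Prop :=
  ∀ ε δ : ℝ, 0 < ε → 0 < δ → ∃ κ A0 T0 : ℝ, 0 < κ ∧ 0 < A0 ∧ 10 ≤ T0 ∧
    ∀ T t y0 lam : ℝ, T0 ≤ T → T / 2 ≤ t → t ≤ 4 * T → 0 < y0 → Reg1 t y0 64 κ (Real.log T) →
      0 < lam → A0 ≤ lam * Real.log T ^ 2 → lam * Real.log T ≤ δ → 32 * y0 ≤ lam * Real.log T →
      ∀ z : ℂ, LL gk lam z = 0 → |z.im - t| ≤ lam * Real.log T / 2 → Good lam T ε z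

/-- local count at the points regular at a larger scale -/
def S_CNT : Prop :=
  ∀ δ : ℝ, 0 < δ → ∃ κ C A0 T0 : ℝ, 0 < κ ∧ 0 < C ∧ 0 < A0 ∧ 10 ≤ T0 ∧
    ∀ T t y0 lam : ℝ, T0 ≤ T → T / 2 ≤ t → t ≤ 4 * T → y0 ≤ 1 / 1000 →
      Reg1 t y0 64 κ (Real.log T) → 0 < lam → A0 ≤ lam * Real.log T ^ 2 →
      lam * Real.log T ≤ δ → lam * Real.log T ≤ 64 * y0 →
      ∀ S : Finset ℂ, (∀ z ∈ S, LL gk lam z = 0 ∧ |z.im - t| ≤ lam * Real.log T) →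
        ∑ z ∈ S, (analyticOrderNatAt (LL gk lam) z : ℝ) ≤ C * (y0 * Real.log T)

/-- integration over the windows with several bad sets -/
def S_INTQ : Prop :=
  ∀ (ι : Type) (Z : Finset ι) (m γ : ι → ℝ) (J : ℕ) (Irr : ℕ → Set ℝ) (a β : ℕ → ℝ)
    (T1 T2 h : ℝ), T1 ≤ T2 → 0 < h → (∀ i ∈ Z, 0 ≤ m i ∧ T1 + h ≤ γ i ∧ γ i ≤ T2 - h) →
    (∀ j, 0 ≤ a j ∧ 0 ≤ β j) → (∀ j ∈ Finset.range J, volume (Irr j) ≤ ENNReal.ofReal (β j)) →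
    (∀ t ∈ Icc T1 T2, (∀ j ∈ Finset.range J, t ∉ Irr j) →
      ∑ i ∈ Z with |γ i - t| ≤ h, m i ≤ 0) →
    (∀ t ∈ Icc T1 T2, ∀ j0 ∈ Finset.range J, t ∈ Irr j0 → ∃ j ∈ Finset.range J, t ∈ Irr j ∧
      ∑ i ∈ Z with |γ i - t| ≤ h, m i ≤ a j) →
    2 * h * ∑ i ∈ Z, m i ≤ ∑ j ∈ Finset.range J, a j * β j

/-- the total number of zeros, crudely -/
def S_TOT : Prop :=
  ∀ δ : ℝ, 0 < δ → ∃ C T0 : ℝ, 0 < C ∧ 10 ≤ T0 ∧ ∀ T lam : ℝ, T0 ≤ T → 0 < lam →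
    lam * Real.log T ≤ δ →
    ∀ S : Finset ℂ, (∀ z ∈ S, LL gk lam z = 0 ∧ T ≤ z.im ∧ z.im ≤ 2 * T) →
      ∑ z ∈ S, (analyticOrderNatAt (LL gk lam) z : ℝ) ≤ C * (T * Real.log T)

/-- **the exceptional zeros** -/
def S_EXC : Prop :=
  ∀ ε δ : ℝ, 0 < ε → 0 < δ → ∃ C c T0 : ℝ, 0 < C ∧ 0 < c ∧ 10 ≤ T0 ∧
    ∀ T lam : ℝ, T0 ≤ T → 0 < lam → lam * Real.log T ≤ δ →
    ∀ S : Finset ℂ, (∀ z ∈ S, LL gk lam z = 0 ∧ T ≤ z.im ∧ z.im ≤ 2 * T ∧ ¬ Good lam T ε z) →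
      ∑ z ∈ S, (analyticOrderNatAt (LL gk lam) z : ℝ) ≤
        C * (T * Real.log T) * Real.exp (-(c * (lam * Real.log T ^ 2)))

end Pool.Agent.H466.HP
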