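import Pool.Agent.H466.HP.Stm3
import Pool.Agent.H603.HP.MOM
import Pool.Agent.H181.HP.DExp
import Pool.Agent.H670.HP.QF
import Pool.Agent.H52.HP.REP
import Pool.Agent.H307.HP.GWP
import Pool.Agent.H264.HP.ANCP
import Pool.Agent.H996.HP.RegX

/-!
# Assembly: the regular points, exponentially small exceptional sets
-/

set_option autoImplicit false

namespace Pool.Agent.H466.HP

theorem mom : S_MOM := Pool.Agent.H603.HP.mom
theorem dexp : S_DEXP := Pool.Agent.H181.HP.dexp mom
theorem qf : S_QF := Pool.Agent.H670.HP.qf z1 expw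
theorem rep : S_REP := Pool.Agent.H52.HP.rep
theorem gwp : S_GWP := Pool.Agent.H307.HP.gwp
theorem ancp : S_ANCP := Pool.Agent.H264.HP.ancp gwp
theorem regx : S_REGX := Pool.Agent.H996.HP.regx dexp qf rep ancp

end Pool.Agent.H466.HP
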