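import Pool.Agent.H466.HP.H13

/-!
# Exceptional zeros and good zeros of the heat flow
-/

set_option autoImplicit false

open Complex MeasureTheory Filter Topology Set
open scoped ComplexConjugate

namespace Pool.Agent.H466.HP

open Pool.Agent.H466.HF Pool.Agent.H466.LD

theorem final_LL (hexc : S_EXC) {ε δ : ℝ} (hε : 0 < ε) (hδ : 0 < δ) :
    ∃ A0 C c T0 : ℝ, 0 < A0 ∧ 0 < C ∧ 0 < c ∧ 10 ≤ T0 ∧ ∀ T lam : ℝ, T0 ≤ T → 0 < lam →
      lam * Real.log T ≤ δ →
    (∀ S : Finset ℂ, (∀ z ∈ S, LL gk lam z = 0 ∧ T ≤ z.im ∧ z.im ≤ 2 * T ∧ ¬ Good lam T ε z) →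
      ∑ z ∈ S, (analyticOrderNatAt (LL gk lam) z : ℝ) ≤
        C * (T * Real.log T) * Real.exp (-(c * (lam * Real.log T ^ 2)))) ∧
    (A0 ≤ lam * Real.log T ^ 2 →
      ∃ S : Finset ℝ, (∀ y ∈ S, T < y ∧ y < 2 * T ∧ LL gk lam ((y : ℂ) * I) = 0 ∧
        Good lam T ε ((y : ℂ) * I)) ∧
      (1 - ε) * (T * Real.log T / (2 * Real.pi)) ≤ (S.card : ℝ)) := by
  classical
  obtain ⟨A, -, -, -, -, -, -, -, k, -⟩ := far_data
  obtain ⟨C, c, T1, hC, hc, hT1, hex⟩ := hexc ε δ hε hδ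
  obtain ⟨A1, T2, hA1, hT2, hml⟩ := main_LL (ε := min (ε / 2) 1) (δ := δ)
    (lt_min (by positivity) one_pos) (min_le_right _ _) hδ
  have hπ := Real.pi_pos
  refine ⟨max A1 (4 * Real.pi * C / (c * ε)), C, c, max T1 T2,
    lt_of_lt_of_le hA1 (le_max_left _ _), hC, hc, hT1.trans (le_max_left _ _), ?_⟩
  intro T lam hT hlam hl
  have b1 : T1 ≤ T := (le_max_left _ _).trans hT
  have b2 : T2 ≤ T := (le_max_right _ _).trans hT
  have hT10 : 10 ≤ T := hT1.trans b1
  have hLp : 0 < Real.log T := Real.log_pos (by linarith)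
  refine ⟨hex T lam b1 hlam hl, fun hA => ?_⟩
  obtain ⟨⟨S, hS, hcard⟩, -⟩ := hml T lam b2 hlam ((le_max_left _ _).trans hA) hl
  set N : ℝ := T * Real.log T / (2 * Real.pi) with hN
  have hNp : 0 < N := by positivity
  have hd : Differentiable ℂ (LL gk lam) := k.differentiable lam
  have hinj : Function.Injective (fun y : ℝ => (y : ℂ) * I) := by
    intro x y hxy
    have h2 := mul_right_cancel₀ I_ne_zero hxy
    exact_mod_cast h2
  refine ⟨S.filter (fun y : ℝ => Good lam T ε ((y : ℂ) * I)), fun y hy => ?_, ?_⟩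
  · rw [Finset.mem_filter] at hy
    obtain ⟨a1, a2, a3, a4⟩ := hS y hy.1
    exact ⟨a1, a2, a3, hy.2⟩
  · set B := S.filter (fun y : ℝ => ¬ Good lam T ε ((y : ℂ) * I)) with hB
    have h1 := hex T lam b1 hlam hl (B.image (fun y : ℝ => (y : ℂ) * I)) (by
      intro z hz
      rw [Finset.mem_image] at hz
      obtain ⟨y, hy, rfl⟩ := hz
      rw [hB, Finset.mem_filter] at hy
      obtain ⟨a1, a2, a3, a4⟩ := hS y hy.1
      refine ⟨a3, ?_, ?_, hy.2⟩
      · simpa using a1.le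
      · simpa using a2.le)
    rw [Finset.sum_image (fun x _ y _ h => hinj h)] at h1
    have h2 : (B.card : ℝ) ≤ ∑ y ∈ B, (analyticOrderNatAt (LL gk lam) ((y : ℂ) * I) : ℝ) := by
      rw [Finset.card_eq_sum_ones]
      push_cast
      refine Finset.sum_le_sum fun y hy => ?_
      rw [hB, Finset.mem_filter] at hy
      have h6 := order_ge_one hd (Fl_ne hlam) (hS y hy.1).2.2.1
      exact_mod_cast h6
    have h3 : C * (T * Real.log T) * Real.exp (-(c * (lam * Real.log T ^ 2))) ≤ ε / 2 * N := by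
      set a := lam * Real.log T ^ 2 with ha
      have hap : 0 < a := by positivity
      have h4 : 4 * Real.pi * C / (c * ε) ≤ a := (le_max_right _ _).trans hA
      rw [div_le_iff₀ (by positivity)] at h4
      have h5 : Real.exp (-(c * a)) ≤ 1 / (c * a) := by
        rw [Real.exp_neg, inv_eq_one_div]
        apply one_div_le_one_div_of_le (by positivity)
        linarith [Real.add_one_le_exp (c * a)]
      have h6 : C * (T * Real.log T) * Real.exp (-(c * a)) ≤ C * (T * Real.log T) * (1 / (c * a)) :=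
        mul_le_mul_of_nonneg_left h5 (by positivity)
      refine h6.trans ?_
      have e1 : C * (T * Real.log T) * (1 / (c * a)) = (C / (c * a)) * (T * Real.log T) := by ring
      have e2 : ε / 2 * N = (ε / (4 * Real.pi)) * (T * Real.log T) := by
        rw [hN]
        field_simp
        ring
      rw [e1, e2]
      apply mul_le_mul_of_nonneg_right _ (by positivity)
      rw [div_le_div_iff₀ (by positivity) (by positivity)]
      linarith
    have h4 : ((S.filter (fun y : ℝ => Good lam T ε ((y : ℂ) * I))).card : ℝ) + (B.card : ℝ) =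
        (S.card : ℝ) := by
      have := Finset.card_filter_add_card_filter_not (s := S)
        (fun y : ℝ => Good lam T ε ((y : ℂ) * I))
      exact_mod_cast this
    have h5 : (1 - ε / 2) * N ≤ (S.card : ℝ) := by
      refine le_trans (mul_le_mul_of_nonneg_right ?_ hNp.le) hcard
      linarith [min_le_left (ε / 2) 1]
    linarith

/-- good zeros of the heat flow of xi -/
def GoodXi (lam T ε : ℝ) (s : ℂ) : Prop :=
  s.re = 1 / 2 ∧ deriv (xiHeat lam) s ≠ 0 ∧ ∃ g : ℝ, 0 < g ∧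
    |g - 2 * Real.pi / Real.log T| ≤ ε / Real.log T ∧ xiHeat lam (s + g * I) = 0 ∧
    ∀ s' : ℂ, s.im < s'.im → s'.im < s.im + g → xiHeat lam s' ≠ 0

lemma good_iff {lam T ε : ℝ} (hlam : 0 < lam) (s : ℂ) :
    GoodXi lam T ε s ↔ Good lam T ε (s - 1 / 2) := by
  have hre : (s - 1 / 2).re = s.re - 1 / 2 := by simp
  have him : (s - 1 / 2).im = s.im := by simp
  have e1 : ∀ g : ℝ, s + (g : ℂ) * I - 1 / 2 = s - 1 / 2 + (g : ℂ) * I := fun g => by ring
  unfold GoodXi Good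
  rw [hre, him, xiHeat_deriv hlam]
  constructor
  · rintro ⟨h1, h2, g, h3, h4, h5, h6⟩
    rw [xiHeat_eq hlam, e1] at h5
    refine ⟨by linarith, h2, g, h3, h4, h5, fun z' h7 h8 h9 => ?_⟩
    refine h6 (z' + 1 / 2) (by simpa using h7) (by simpa using h8) ?_
    rw [xiHeat_eq hlam, add_sub_cancel_right]
    exact h9
  · rintro ⟨h1, h2, g, h3, h4, h5, h6⟩
    refine ⟨by linarith, h2, g, h3, h4, ?_, fun s' h7 h8 h9 => ?_⟩
    · rw [xiHeat_eq hlam, e1]
      exact h5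
    · rw [xiHeat_eq hlam] at h9
      exact h6 (s' - 1 / 2) (by simpa using h7) (by simpa using h8) h9

theorem final_xi (hexc : S_EXC) {ε δ : ℝ} (hε : 0 < ε) (hδ : 0 < δ) :
    ∃ A0 C c T0 : ℝ, 0 < A0 ∧ 0 < C ∧ 0 < c ∧ 10 ≤ T0 ∧ ∀ T lam : ℝ, T0 ≤ T → 0 < lam →
      lam * Real.log T ≤ δ →
    (∀ S : Finset ℂ, (∀ s ∈ S, xiHeat lam s = 0 ∧ T ≤ s.im ∧ s.im ≤ 2 * T ∧ ¬ GoodXi lam T ε s) →
      ∑ s ∈ S, (analyticOrderNatAt (xiHeat lam) s : ℝ) ≤
        C * (T * Real.log T) * Real.exp (-(c * (lam * Real.log T ^ 2)))) ∧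
    (A0 ≤ lam * Real.log T ^ 2 →
      ∃ S : Finset ℝ, (∀ y ∈ S, T < y ∧ y < 2 * T ∧ xiHeat lam (1 / 2 + y * I) = 0 ∧
        GoodXi lam T ε (1 / 2 + y * I)) ∧
      (1 - ε) * (T * Real.log T / (2 * Real.pi)) ≤ (S.card : ℝ)) := by
  obtain ⟨A0, C, c, T0, hA0, hC, hc, hT0, h⟩ := final_LL hexc hε hδ
  refine ⟨A0, C, c, T0, hA0, hC, hc, hT0, ?_⟩
  intro T lam hT hlam hl
  obtain ⟨h1, h2⟩ := h T lam hT hlam hl
  refine ⟨fun S hS => ?_, fun hA => ?_⟩
  · have h3 := h1 (S.image (fun s : ℂ => s - 1 / 2)) (by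
      intro z hz
      rw [Finset.mem_image] at hz
      obtain ⟨s, hs, rfl⟩ := hz
      obtain ⟨a1, a2, a3, a4⟩ := hS s hs
      rw [xiHeat_eq hlam] at a1
      rw [good_iff hlam] at a4
      have e : (s - 1 / 2).im = s.im := by simp
      rw [e]
      exact ⟨a1, a2, a3, a4⟩)
    rw [Finset.sum_image (fun a _ b _ h => sub_left_injective h)] at h3
    refine le_trans (le_of_eq ?_) h3
    refine Finset.sum_congr rfl fun s _ => ?_
    rw [xiHeat_order hlam]
  · obtain ⟨S, hS, hc2⟩ := h2 hA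
    refine ⟨S, fun y hy => ?_, hc2⟩
    obtain ⟨a1, a2, a3, a4⟩ := hS y hy
    have e : (1 / 2 + (y : ℂ) * I) - 1 / 2 = (y : ℂ) * I := by ring
    refine ⟨a1, a2, by rw [xiHeat_eq hlam, e]; exact a3, ?_⟩
    rw [good_iff hlam, e]
    exact a4

end Pool.Agent.H466.HP
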