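import Pool.Agent.H466.HP.Asm3
import Pool.Agent.H466.HP.H14
import Pool.Agent.H385.HP.Lip
import Pool.Agent.H401.HP.SAD
import Pool.Agent.H548.HP.Half
import Pool.Agent.H271.HP.Cnt
import Pool.Agent.H287.HP.INTQ
import Pool.Agent.H354.HP.Tot
import Pool.Agent.H354.HP.Exc

/-!
# Assembly: the picket fence theorem
-/

set_option autoImplicit false

namespace Pool.Agent.H466.HP

theorem lip : S_LIP := Pool.Agent.H385.HP.lip
theorem sad : S_SAD := Pool.Agent.H401.HP.sad lip
theorem half : S_HALF := Pool.Agent.H548.HP.half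
theorem low_all : S_LOW := low sad half
theorem zloc_all : S_ZLOC := zloc sad half
theorem cnt : S_CNT := Pool.Agent.H271.HP.cnt low_all
theorem tot : S_TOT := Pool.Agent.H354.HP.tot
theorem intq : S_INTQ := Pool.Agent.H287.HP.intq
theorem exc : S_EXC := Pool.Agent.H354.HP.exc regx zloc_all cnt tot intq

end Pool.Agent.H466.HP
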