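import Pool.Agent.H466.HP.H1

/-!
# The local data with `(log T) / 2`
-/

set_option autoImplicit false

open Complex MeasureTheory Filter Topology Set
open scoped ComplexConjugate

namespace Pool.Agent.H466.HP

open Pool.Agent.H466.HF Pool.Agent.H466.LD
open Pool.Agent.H862.VK (Yz)

lemma abs_le_sq (x : ℝ) : |x| ≤ 1 + x ^ 2 := by
  have h := sq_abs x
  nlinarith [sq_nonneg (|x| - 1), abs_nonneg x]

lemma Loc.shift {F P : ℂ → ℂ} {T ℒ ℒ' Γ0 K μ0 c : ℝ} (C : Loc F P T ℒ Γ0 K μ0) (hc : 0 ≤ c)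
    (h : |ℒ - ℒ'| ≤ c) (h1 : 1 ≤ ℒ') : Loc F P T ℒ' Γ0 (K + c * (1 + μ0)) μ0 := by
  obtain ⟨ha, hb⟩ := abs_le.mp h
  have hμ := C.μpos
  have hcμ : 0 ≤ c * μ0 := mul_nonneg hc hμ
  refine ⟨C.Γpos, by nlinarith [C.K1], C.μpos, h1, fun z => ?_, fun z hz => ?_, C.der,
    fun z hz => ?_, fun z hz => ?_⟩
  · refine (C.up z).trans (mul_le_mul_of_nonneg_left (Real.exp_le_exp.mpr ?_) C.Γpos.le)
    have e1 := abs_le_sq z.re
    have e2 : 0 ≤ |z.re| := abs_nonneg _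
    have e3 : (ℒ - ℒ') * (|z.re| + μ0) ≤ c * (|z.re| + μ0) :=
      mul_le_mul_of_nonneg_right hb (by linarith)
    have e4 : c * |z.re| ≤ c * (1 + z.re ^ 2 + (z.im - T) ^ 2) := by
      apply mul_le_mul_of_nonneg_left _ hc
      nlinarith [sq_nonneg (z.im - T)]
    have e5 : c * μ0 * 1 ≤ c * μ0 * (1 + z.re ^ 2 + (z.im - T) ^ 2) := by
      apply mul_le_mul_of_nonneg_left _ hcμ
      nlinarith [sq_nonneg (z.im - T), sq_nonneg z.re]
    nlinarith
  · refine (C.right z hz).trans (mul_le_mul_of_nonneg_left (Real.exp_le_exp.mpr ?_) C.Γpos.le)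
    have e1 := abs_le_sq z.re
    have e0 : |z.re| = z.re := abs_of_pos (by linarith)
    rw [e0] at e1
    have e3 : (ℒ - ℒ') * z.re ≤ c * z.re := mul_le_mul_of_nonneg_right hb (by linarith)
    have e4 : c * z.re ≤ c * (1 + z.re ^ 2 + (z.im - T) ^ 2) := by
      apply mul_le_mul_of_nonneg_left _ hc
      nlinarith [sq_nonneg (z.im - T)]
    have e5 : 0 ≤ c * μ0 * (1 + z.re ^ 2 + (z.im - T) ^ 2) := by positivity
    nlinarith
  · have e1 : ‖P z - ℒ'‖ ≤ ‖P z - ℒ‖ + c := by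
      have e : P z - (ℒ' : ℂ) = (P z - ℒ) + ((ℒ - ℒ' : ℝ) : ℂ) := by push_cast; ring
      rw [e]
      refine (norm_add_le _ _).trans ?_
      rw [Complex.norm_real, Real.norm_eq_abs]
      linarith
    refine e1.trans ?_
    have e2 := C.dP z hz
    have e3 : 0 ≤ |z.im - T| := abs_nonneg _
    have e4 : c * 1 ≤ c * (1 + z.re + |z.im - T|) :=
      mul_le_mul_of_nonneg_left (by linarith) hc
    have e5 : 0 ≤ c * μ0 * (1 + z.re + |z.im - T|) := mul_nonneg hcμ (by linarith)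
    nlinarith
  · refine le_trans (mul_le_mul_of_nonneg_left (Real.exp_le_exp.mpr ?_) C.Γpos.le) (C.low z hz)
    have e1 := abs_le_sq z.re
    have e0 : |z.re| = z.re := abs_of_pos (by linarith)
    rw [e0] at e1
    have e3 : (ℒ' - ℒ) * z.re ≤ c * z.re := mul_le_mul_of_nonneg_right (by linarith) (by linarith)
    have e4 : c * z.re ≤ c * (1 + z.re ^ 2 + (z.im - T) ^ 2) := by
      apply mul_le_mul_of_nonneg_left _ hc
      nlinarith [sq_nonneg (z.im - T)]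
    have e5 : 0 ≤ c * μ0 * (1 + z.re ^ 2 + (z.im - T) ^ 2) := by positivity
    nlinarith

lemma Near.shift {F : ℂ → ℂ} {T ℒ ℒ' Γ0 K μ W c : ℝ} (N : Near F T ℒ Γ0 K μ W) (hc : 0 ≤ c)
    (hΓ : 0 ≤ Γ0) (hμ : 0 ≤ μ) (h : |ℒ - ℒ'| ≤ c) : Near F T ℒ' Γ0 (K + c * (1 + μ)) μ W := by
  obtain ⟨ha, hb⟩ := abs_le.mp h
  have hcμ : 0 ≤ c * μ := mul_nonneg hc hμ
  refine ⟨fun z hz => ?_⟩
  refine (N.up z hz).trans (mul_le_mul_of_nonneg_left (Real.exp_le_exp.mpr ?_) hΓ)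
  have e1 := abs_le_sq z.re
  have e2 : 0 ≤ |z.re| := abs_nonneg _
  have e3 : (ℒ - ℒ') * (|z.re| + μ) ≤ c * (|z.re| + μ) :=
    mul_le_mul_of_nonneg_right hb (by linarith)
  have e4 : c * |z.re| ≤ c * (1 + z.re ^ 2 + (z.im - T) ^ 2) := by
    apply mul_le_mul_of_nonneg_left _ hc
    nlinarith [sq_nonneg (z.im - T)]
  have e5 : c * μ * 1 ≤ c * μ * (1 + z.re ^ 2 + (z.im - T) ^ 2) := by
    apply mul_le_mul_of_nonneg_left _ hcμ
    nlinarith [sq_nonneg (z.im - T), sq_nonneg z.re]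
  nlinarith

/-- `(log T) / 2` is close to the exact value -/
lemma Dz_close {T t : ℝ} (hT : 1 ≤ T) (h1 : T ≤ t) (h2 : t ≤ 2 * T) :
    |(Dz ((t : ℂ) * I)).re - Real.log T / 2| ≤ 10 := by
  have h3 := Dz_re (T := t) (by linarith)
  have h4 : Real.log T ≤ Real.log t := Real.log_le_log (by linarith) h1
  have h5 : Real.log t ≤ Real.log T + 1 := by
    have h6 : Real.log t ≤ Real.log (2 * T) := Real.log_le_log (by linarith) h2
    rw [Real.log_mul (by norm_num) (by linarith)] at h6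
    have := Real.log_two_lt_d9
    linarith
  rw [abs_le] at h3 ⊢
  constructor <;> linarith [h3.1, h3.2]

/-- the data of the xi function with `(log T) / 2` -/
theorem far_data : ∃ (A K μ0 : ℝ) (Q : ℂ → ℂ) (T0 : ℝ), 46 ≤ K ∧ 0 ≤ μ0 ∧ 10 ≤ T0 ∧
    Kern gk A 1 ∧
    ∀ T t : ℝ, T0 ≤ T → T ≤ t → t ≤ 2 * T →
      Loc (LL gk 0) Q t (Real.log T / 2) ‖gz ((t : ℂ) * I)‖ K μ0 ∧
      Far t (Real.log T / 2) ‖gz ((t : ℂ) * I)‖ K μ0 := by
  obtain ⟨A, K, μ0, M, Θ, Q, T0, hK, hμ0, hM, hT0, k, -, hL⟩ := all_data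
  refine ⟨A, K + 10 * (1 + μ0), μ0, Q, max (max T0 10) (Real.exp 2), by nlinarith, hμ0,
    (le_max_right _ _).trans (le_max_left _ _), k, ?_⟩
  intro T t hT h1 h2
  have hTT0 : T0 ≤ T := ((le_max_left _ _).trans (le_max_left _ _)).trans hT
  have hT10 : 10 ≤ T := ((le_max_right _ _).trans (le_max_left _ _)).trans hT
  have hTe : Real.exp 2 ≤ T := (le_max_right _ _).trans hT
  have hℓ : 1 ≤ Real.log T / 2 := by
    have : 2 ≤ Real.log T := by rwa [Real.le_log_iff_exp_le (by linarith)]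
    linarith
  have C := Loc.shift (hL t (by linarith)) (c := 10) (by norm_num) (Dz_close (by linarith) h1 h2) hℓ
  refine ⟨C, ⟨C.Γpos, C.K1, hμ0, C.up, fun z hz => ?_, fun z hz => ?_, C.low⟩⟩
  · apply Yz_ne_of
    rw [← norm_pos_iff]
    refine lt_of_lt_of_le ?_ (C.low z hz)
    have := C.Γpos
    positivity
  · have hne : LL gk 0 z ≠ 0 := by
      rw [← norm_pos_iff]
      refine lt_of_lt_of_le ?_ (C.low z hz)
      have := C.Γpos
      positivity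
    rw [P_of_der hne (C.der z hz)]
    exact C.dP z hz

end Pool.Agent.H466.HP
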