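import Pool.Agent.H466.HP.Stm
import Pool.Agent.H466.LD.L21

/-!
# Upper bounds at a regular point
-/

set_option autoImplicit false

open Complex MeasureTheory Filter Topology Set
open scoped ComplexConjugate

namespace Pool.Agent.H466.HP

open Pool.Agent.H466.HF Pool.Agent.H466.LD
open Pool.Agent.H862.VK (Yz)

/-- the function -/
lemma F_Yz (z : ℂ) : LL gk 0 z = Yz z / 2 := by
  rw [LL_gk_xi]
  unfold xi Yz
  ring

lemma F_Yz_norm (z : ℂ) : ‖LL gk 0 z‖ = ‖Yz z‖ / 2 := by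
  rw [F_Yz, norm_div]
  norm_num

lemma F_ne {z : ℂ} (h : Yz z ≠ 0) : LL gk 0 z ≠ 0 := by
  rw [F_Yz]
  exact div_ne_zero h two_ne_zero

lemma Yz_ne_of {z : ℂ} (h : LL gk 0 z ≠ 0) : Yz z ≠ 0 := by
  intro h0
  apply h
  rw [F_Yz, h0, zero_div]

lemma F_der {z : ℂ} (h : Yz z ≠ 0) : HasDerivAt (LL gk 0) (LL gk 0 z * P z) z := by
  have h1 : HasDerivAt Yz (deriv Yz z) z := (Pool.Agent.H862.VK.Yz_diff z).hasDerivAt
  have h2 := h1.div_const 2
  have e : (fun z => Yz z / 2) = LL gk 0 := by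
    funext z
    rw [F_Yz]
  rw [e] at h2
  refine h2.congr_deriv ?_
  rw [F_Yz]
  unfold P
  rw [logDeriv_apply]
  field_simp

/-- the logarithmic derivative at the points where the derivative is known -/
lemma P_of_der {z Q : ℂ} (hne : LL gk 0 z ≠ 0) (h : HasDerivAt (LL gk 0) (LL gk 0 z * Q) z) :
    P z = Q := by
  have h1 := (F_der (Yz_ne_of hne)).unique h
  exact mul_left_cancel₀ hne h1

lemma F_sym (z : ℂ) : ‖LL gk 0 (-conj z)‖ = ‖LL gk 0 z‖ := by
  rw [LL_gk_fe, Complex.norm_conj]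

/-- growth along a horizontal segment -/
lemma hor {y ℓ C a b : ℝ}
    (h : ∀ u ∈ uIcc a b, Yz ((u : ℂ) + (y : ℂ) * I) ≠ 0 ∧
      ‖P ((u : ℂ) + (y : ℂ) * I) - (ℓ : ℂ)‖ ≤ C) :
    ‖LL gk 0 ((b : ℂ) + (y : ℂ) * I)‖ ≤
      ‖LL gk 0 ((a : ℂ) + (y : ℂ) * I)‖ * Real.exp (ℓ * (b - a) + C * |b - a|) := by
  have hline : ∀ v : ℝ, HasDerivAt (fun v : ℝ => (v : ℂ) + (y : ℂ) * I) 1 v := fun v => by
    have := (hasDerivAt_id v).ofReal_comp.add_const ((y : ℂ) * I)
    simpa using this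
  have hexp : ∀ v : ℝ, HasDerivAt (fun v : ℝ => cexp (-((ℓ * v : ℝ) : ℂ)))
      (cexp (-((ℓ * v : ℝ) : ℂ)) * (-(ℓ : ℂ))) v := fun v => by
    have h1 : HasDerivAt (fun v : ℝ => -((ℓ * v : ℝ) : ℂ)) (-(ℓ : ℂ)) v := by
      have h0 := ((hasDerivAt_id v).const_mul (-ℓ)).ofReal_comp
      have e : (fun v : ℝ => -((ℓ * v : ℝ) : ℂ)) = fun y : ℝ => ((-ℓ * id y : ℝ) : ℂ) := by
        funext y
        push_cast
        simp
      rw [e]
      refine h0.congr_deriv ?_
      push_cast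
      ring
    exact h1.cexp
  have hg := growth_on (f := fun v : ℝ => LL gk 0 ((v : ℂ) + (y : ℂ) * I) *
      cexp (-((ℓ * v : ℝ) : ℂ))) (d := fun v : ℝ => P ((v : ℂ) + (y : ℂ) * I) - (ℓ : ℂ)) (C := C)
    (convex_uIcc a b) (fun u hu => by
      have h1 := (F_der (h u hu).1).comp u (hline u)
      have h2 := h1.mul (hexp u)
      refine h2.congr_deriv ?_
      simp only [Function.comp, mul_one]
      ring) (fun u hu => mul_ne_zero (F_ne (h u hu).1) (Complex.exp_ne_zero _))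
    (fun u hu => (abs_re_le_norm _).trans (h u hu).2) (a := a) (b := b) left_mem_uIcc right_mem_uIcc
  simp only [norm_mul] at hg
  have e : ∀ v : ℝ, ‖cexp (-((ℓ * v : ℝ) : ℂ))‖ = Real.exp (-(ℓ * v)) := fun v => by
    rw [Complex.norm_exp]
    simp
  rw [e, e] at hg
  have h3 := mul_le_mul_of_nonneg_right hg (Real.exp_pos (ℓ * b)).le
  have e2 : ‖LL gk 0 ((b : ℂ) + (y : ℂ) * I)‖ * Real.exp (-(ℓ * b)) * Real.exp (ℓ * b) =
      ‖LL gk 0 ((b : ℂ) + (y : ℂ) * I)‖ := by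
    rw [mul_assoc, ← Real.exp_add, neg_add_cancel, Real.exp_zero, mul_one]
  rw [e2] at h3
  refine h3.trans (le_of_eq ?_)
  rw [mul_assoc, mul_assoc, ← Real.exp_add, ← Real.exp_add]
  congr 2
  ring

/-- growth along a vertical segment -/
lemma ver {X ℓ C a b : ℝ}
    (h : ∀ v ∈ uIcc a b, Yz ((X : ℂ) + (v : ℂ) * I) ≠ 0 ∧
      ‖P ((X : ℂ) + (v : ℂ) * I) - (ℓ : ℂ)‖ ≤ C) :
    ‖LL gk 0 ((X : ℂ) + (b : ℂ) * I)‖ ≤
      ‖LL gk 0 ((X : ℂ) + (a : ℂ) * I)‖ * Real.exp (C * |b - a|) := by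
  have hline : ∀ v : ℝ, HasDerivAt (fun v : ℝ => (X : ℂ) + (v : ℂ) * I) I v := fun v => by
    have := ((hasDerivAt_id v).ofReal_comp.mul_const I).const_add (X : ℂ)
    simpa using this
  exact growth_on (f := fun v : ℝ => LL gk 0 ((X : ℂ) + (v : ℂ) * I))
    (d := fun v : ℝ => P ((X : ℂ) + (v : ℂ) * I) * I) (C := C)
    (convex_uIcc a b) (fun u hu => by
      have h1 := (F_der (h u hu).1).comp u (hline u)
      refine h1.congr_deriv ?_
      ring) (fun u hu => F_ne (h u hu).1)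
    (fun u hu => by
      have e : (P ((X : ℂ) + (u : ℂ) * I) * I).re = -(P ((X : ℂ) + (u : ℂ) * I) - (ℓ : ℂ)).im := by
        simp
      rw [e, abs_neg]
      exact (abs_im_le_norm _).trans (h u hu).2) left_mem_uIcc right_mem_uIcc

/-- regular points: no zeros in the cone, `P` is close to `(log T) / 2` on the cone -/
structure Rg (T t A1 M κ : ℝ) : Prop where
  cf : CF t (A1 / Real.log T) M
  pb : ∀ z ∈ Kt t (A1 / Real.log T) 4 M, ‖P z - (Real.log T / 2 : ℝ)‖ ≤ κ * Real.log T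

lemma cone_ne {t y0 x1 M : ℝ} (hy : 0 < y0) (hM : 1 ≤ M) (h : CF t y0 M) {z : ℂ}
    (hz : z ∈ Kt t y0 x1 M) : Yz z ≠ 0 := by
  intro h0
  obtain ⟨h1, -, h3⟩ := hz
  have hre : |z.re| = z.re := abs_of_pos (by linarith)
  rcases h z h0 with h4 | h4
  · rw [hre] at h4
    linarith
  · rw [hre] at h4
    have h5 : |z.im - t| / (8 * M) ≤ z.re / 8 := by
      rw [div_le_div_iff₀ (by linarith) (by norm_num)]
      nlinarith
    linarith

/-- local data with `(log T) / 2` in place of the exact value -/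
structure Far (t ℓ Γt K μ0 : ℝ) : Prop where
  Γpos : 0 < Γt
  K1 : 1 ≤ K
  μ0p : 0 ≤ μ0
  up : ∀ z : ℂ, ‖LL gk 0 z‖ ≤ Γt * Real.exp (ℓ * (|z.re| + μ0) + K * (1 + z.re ^ 2 + (z.im - t) ^ 2))
  ne : ∀ z : ℂ, 3 / 2 ≤ z.re → Yz z ≠ 0
  dP : ∀ z : ℂ, 3 / 2 ≤ z.re → ‖P z - ℓ‖ ≤ K * (1 + z.re + |z.im - t|)
  low : ∀ z : ℂ, 3 / 2 ≤ z.re →
    Γt * Real.exp (ℓ * z.re - K * (1 + z.re ^ 2 + (z.im - t) ^ 2)) ≤ ‖LL gk 0 z‖

/-- the upper bound to the right of the line, relative to the value at `X1 + i t` -/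
theorem ustar (hmono : S_MONO) {T t A1 M κ X1 Γt K μ0 : ℝ} (hT : 10 ≤ T) (hA1 : 0 < A1)
    (hy0 : A1 / Real.log T ≤ 1) (hM : 1 ≤ M) (hκ0 : 0 < κ) (hκ : κ ≤ 1) (hκM : 1 ≤ κ * M)
    (R : Rg T t A1 M κ) (D : Far t (Real.log T / 2) Γt K μ0) (hX1 : A1 / Real.log T ≤ X1)
    (hX1' : X1 ≤ 4) {x v : ℝ} (hx : 0 ≤ x) (hv : |v| ≤ 3) :
    ‖LL gk 0 ((x : ℂ) + ((t + v : ℝ) : ℂ) * I)‖ ≤ ‖LL gk 0 ((X1 : ℂ) + (t : ℂ) * I)‖ *
      Real.exp (Real.log T / 2 * (x - X1) + κ * Real.log T * (x + X1) + 2 * A1 +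
        3 * κ * Real.log T * |v| + 2 * K * x ^ 2) := by
  set L := Real.log T with hL
  have hLp : 0 < L := by rw [hL]; exact Real.log_pos (by linarith)
  set y0 := A1 / L with hy0e
  have hy0p : 0 < y0 := by positivity
  have hLy : L * y0 = A1 := by
    rw [hy0e]
    field_simp
  have hv0 := abs_nonneg v
  have hMp : 0 < M := by linarith
  -- the bound for `x ≤ 3`
  have main : ∀ x : ℝ, 0 ≤ x → x ≤ 3 →
      ‖LL gk 0 ((x : ℂ) + ((t + v : ℝ) : ℂ) * I)‖ ≤ ‖LL gk 0 ((X1 : ℂ) + (t : ℂ) * I)‖ *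
      Real.exp (L / 2 * (x - X1) + κ * L * (x + X1) + 2 * A1 + 3 * κ * L * |v|) := by
    intro x hx hx3
    set X := max x (max y0 (|v| / M)) with hX
    have hvM : |v| / M ≤ κ * |v| := by
      rw [div_le_iff₀ hMp]
      nlinarith
    have hvM3 : |v| / M ≤ 3 := by
      rw [div_le_iff₀ hMp]
      nlinarith
    have hXx : x ≤ X := le_max_left _ _
    have hXy : y0 ≤ X := (le_max_left _ _).trans (le_max_right _ _)
    have hXv : |v| / M ≤ X := (le_max_right _ _).trans (le_max_right _ _)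
    have hX3 : X ≤ 3 := max_le hx3 (max_le (by linarith) hvM3)
    have hXs : X ≤ x + y0 + κ * |v| := by
      refine max_le (by nlinarith) (max_le (by nlinarith) (by linarith))
    have hXp : 0 < X := by linarith
    -- horizontal
    have s1 : ∀ u ∈ uIcc X1 X, Yz ((u : ℂ) + (t : ℂ) * I) ≠ 0 ∧
        ‖P ((u : ℂ) + (t : ℂ) * I) - ((L / 2 : ℝ) : ℂ)‖ ≤ κ * L := by
      intro u hu
      have hu1 : y0 ≤ u := (le_min hX1 hXy).trans hu.1
      have hu2 : u ≤ 4 := hu.2.trans (max_le hX1' (by linarith))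
      have hmem : (u : ℂ) + (t : ℂ) * I ∈ Kt t y0 4 M := by
        refine ⟨by simpa using hu1, by simpa using hu2, ?_⟩
        simp
        have h0 : 0 ≤ u := by linarith
        positivity
      exact ⟨cone_ne hy0p hM R.cf hmem, R.pb _ hmem⟩
    have h1 := hor s1
    -- vertical
    have s2 : ∀ u ∈ uIcc t (t + v), Yz ((X : ℂ) + (u : ℂ) * I) ≠ 0 ∧
        ‖P ((X : ℂ) + (u : ℂ) * I) - ((L / 2 : ℝ) : ℂ)‖ ≤ κ * L := by
      intro u hu
      have hu1 : |u - t| ≤ |v| := by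
        have := Set.abs_sub_left_of_mem_uIcc hu
        have e : t + v - t = v := by ring
        rwa [e] at this
      have hmem : (X : ℂ) + (u : ℂ) * I ∈ Kt t y0 4 M := by
        refine ⟨by simpa using hXy, by simp; linarith, ?_⟩
        simp
        rw [div_le_iff₀ hMp] at hXv
        linarith
      exact ⟨cone_ne hy0p hM R.cf hmem, R.pb _ hmem⟩
    have h2 := ver s2
    -- monotonicity
    have h3 : ‖LL gk 0 ((x : ℂ) + ((t + v : ℝ) : ℂ) * I)‖ ≤
        ‖LL gk 0 ((X : ℂ) + ((t + v : ℝ) : ℂ) * I)‖ := by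
      rw [F_Yz_norm, F_Yz_norm]
      have h4 := hmono x X (t + v) hx hXx (by
        intro b hb
        rcases R.cf b hb with h5 | h5
        · have h6 : b.re ^ 2 ≤ (X / 4) ^ 2 := by
            apply sq_le_sq'
            · linarith [neg_abs_le b.re]
            · linarith [le_abs_self b.re]
          nlinarith [sq_nonneg (b.im - (t + v)), sq_nonneg X]
        · have h6 : |b.im - t| ≤ |b.im - (t + v)| + |v| := by
            have e : b.im - t = (b.im - (t + v)) + v := by ring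
            rw [e]
            exact abs_add_le _ _
          have h7 : |b.re| ≤ |b.im - (t + v)| / 8 + X / 8 := by
            have h8 : |b.im - t| / (8 * M) ≤ |b.im - (t + v)| / 8 + X / 8 := by
              rw [div_le_iff₀ (by positivity)]
              rw [div_le_iff₀ hMp] at hXv
              have h9 : 0 ≤ |b.im - (t + v)| := abs_nonneg _
              nlinarith
            exact h5.trans h8
          have h8 : b.re ^ 2 ≤ (|b.im - (t + v)| / 8 + X / 8) ^ 2 := by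
            apply sq_le_sq'
            · linarith [neg_abs_le b.re]
            · linarith [le_abs_self b.re]
          have h9 : |b.im - (t + v)| ^ 2 = (b.im - (t + v)) ^ 2 := sq_abs _
          nlinarith [sq_nonneg (|b.im - (t + v)| - X), sq_nonneg X])
      have e1 : (x : ℂ) + I * ((t + v : ℝ) : ℂ) = (x : ℂ) + ((t + v : ℝ) : ℂ) * I := by ring
      have e2 : (X : ℂ) + I * ((t + v : ℝ) : ℂ) = (X : ℂ) + ((t + v : ℝ) : ℂ) * I := by ring
      rw [e1, e2] at h4
      linarith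
    refine h3.trans (h2.trans ?_)
    have e3 : t + v - t = v := by ring
    rw [e3]
    refine (mul_le_mul_of_nonneg_right h1 (Real.exp_pos _).le).trans ?_
    rw [mul_assoc, ← Real.exp_add]
    apply mul_le_mul_of_nonneg_left _ (norm_nonneg _)
    apply Real.exp_le_exp.mpr
    have a1 : |X - X1| ≤ X + X1 := by
      rw [abs_le]
      constructor <;> linarith
    have a2 : L * X ≤ L * (x + y0 + κ * |v|) := mul_le_mul_of_nonneg_left hXs hLp.le
    have a3 : κ * L * |X - X1| ≤ κ * L * (x + y0 + κ * |v| + X1) :=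
      mul_le_mul_of_nonneg_left (by linarith) (by positivity)
    have a4 : κ * A1 ≤ A1 := by nlinarith
    have a5 : κ * L * (κ * |v|) ≤ κ * L * |v| := by
      apply mul_le_mul_of_nonneg_left _ (by positivity)
      nlinarith
    have a6 : κ * L * y0 = κ * A1 := by rw [mul_assoc, hLy]
    have a7 : 0 ≤ κ * L * |v| := by positivity
    nlinarith
  rcases le_or_gt x 3 with hx3 | hx3
  · refine (main x hx hx3).trans ?_
    apply mul_le_mul_of_nonneg_left _ (norm_nonneg _)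
    apply Real.exp_le_exp.mpr
    have := D.K1
    have : 0 ≤ 2 * K * x ^ 2 := by positivity
    linarith
  · have s3 : ∀ u ∈ uIcc 3 x, Yz ((u : ℂ) + ((t + v : ℝ) : ℂ) * I) ≠ 0 ∧
        ‖P ((u : ℂ) + ((t + v : ℝ) : ℂ) * I) - ((L / 2 : ℝ) : ℂ)‖ ≤ K * (4 + x) := by
      intro u hu
      rw [uIcc_of_le hx3.le] at hu
      have hre : ((u : ℂ) + ((t + v : ℝ) : ℂ) * I).re = u := by simp
      have him : ((u : ℂ) + ((t + v : ℝ) : ℂ) * I).im - t = v := by simp
      refine ⟨D.ne _ (by rw [hre]; linarith [hu.1]), (D.dP _ (by rw [hre]; linarith [hu.1])).trans ?_⟩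
      rw [hre, him]
      apply mul_le_mul_of_nonneg_left _ (by linarith [D.K1])
      linarith [hu.2]
    have h1 := hor s3
    have h2 := main 3 (by norm_num) le_rfl
    have e3 : ((3 : ℝ) : ℂ) = 3 := by norm_num
    refine h1.trans ((mul_le_mul_of_nonneg_right h2 (Real.exp_pos _).le).trans ?_)
    rw [mul_assoc, ← Real.exp_add]
    apply mul_le_mul_of_nonneg_left _ (norm_nonneg _)
    apply Real.exp_le_exp.mpr
    have a1 : |x - 3| = x - 3 := abs_of_pos (by linarith)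
    rw [a1]
    have hK := D.K1
    have a2 : K * (4 + x) * (x - 3) ≤ 2 * K * x ^ 2 := by
      have : (4 + x) * (x - 3) ≤ 2 * x ^ 2 := by nlinarith
      nlinarith
    have a3 : κ * L * (3 + X1) ≤ κ * L * (x + X1) :=
      mul_le_mul_of_nonneg_left (by linarith) (by positivity)
    nlinarith

end Pool.Agent.H466.HP
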