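import Pool.Agent.H466.HP.H10

/-!
# The local model of the heat flow on the line at a regular point
-/

set_option autoImplicit false

open Complex MeasureTheory Filter Topology Set
open scoped ComplexConjugate

namespace Pool.Agent.H466.HP

open Pool.Agent.H466.HF Pool.Agent.H466.LD
open Pool.Agent.H862.VK (Yz)

/-- local model: near `i y` the heat flow is `a e^{p h} + conj a e^{-conj p h}` with relative error
`≪ |h| / √λ` -/
structure Md (Φ : ℂ → ℂ) (lam L κ y : ℝ) (p a : ℂ) (r : ℂ → ℂ) : Prop where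
  lam0 : 0 < lam
  L0 : 0 < L
  a0 : a ≠ 0
  pb : ‖p - (L / 2 : ℝ)‖ ≤ κ * L
  r0 : r 0 = 0
  rb : ∀ h : ℂ, ‖h‖ ^ 2 ≤ lam → ‖r h‖ ≤ 22 * (‖h‖ / Real.sqrt lam) * ‖a‖
  mod : ∀ h : ℂ, cexp (h ^ 2 / (4 * lam)) * Φ ((y : ℂ) * I + h) =
    cexp (p * h) * (a + r h) + cexp (-(conj p * h)) * conj (a + r (-conj h))

theorem md_of (h1 : S_SAD) (h2 : S_HALF) {δ κ1 : ℝ} (hδ : 0 < δ) (hκ1 : 0 < κ1) :
    ∃ κ T0 : ℝ, 0 < κ ∧ κ ≤ κ1 ∧ 10 ≤ T0 ∧
    ∀ T t y0 lam : ℝ, T0 ≤ T → T / 2 ≤ t → t ≤ 4 * T → 0 < y0 → Reg1 t y0 64 κ (Real.log T) →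
      0 < lam → 1000 ≤ lam * Real.log T ^ 2 → lam * Real.log T ≤ δ → 32 * y0 ≤ lam * Real.log T →
      ∀ y : ℝ, |y - t| ≤ lam * Real.log T →
        ∃ (p a : ℂ) (r : ℂ → ℂ), Md (LL gk lam) lam (Real.log T) κ y p a r := by
  obtain ⟨A, -, -, -, -, -, -, -, k, -⟩ := far_data
  obtain ⟨κ, T1, hκ, hκκ, hT1, hsad⟩ := h1 δ (min κ1 (1 / 1000)) hδ (lt_min hκ1 (by norm_num))
  obtain ⟨T2, hT2, hgr⟩ := gr_all hδ
  refine ⟨κ, max T1 T2, hκ, hκκ.trans (min_le_left _ _), hT1.trans (le_max_left _ _), ?_⟩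
  intro T t y0 lam hT ht1 ht2 hy0 hR hlam hA hl hy y hyt
  have b1 : T1 ≤ T := (le_max_left _ _).trans hT
  have b2 : T2 ≤ T := (le_max_right _ _).trans hT
  have hT10 : 10 ≤ T := hT1.trans b1
  set L := Real.log T with hL
  have hLp : 0 < L := by rw [hL]; exact Real.log_pos (by linarith)
  have hwre : ((y : ℂ) * I).re = 0 := by simp
  have hwim : ((y : ℂ) * I).im = y := by simp
  obtain ⟨s0, t0, D, hp⟩ := hsad T t y0 lam b1 ht1 ht2 hy0 hR hlam hA hl ((y : ℂ) * I)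
    (by rw [hwre]) (by rw [hwre]; norm_num) (by rw [hwre, hwim, zero_add]; exact hyt)
    (by rw [hwre, zero_add]; exact hy)
  obtain ⟨ℒ, B, K, G⟩ := hgr T lam b2 hlam hl t0
  set w' : ℂ := (y : ℂ) * I - (t0 : ℂ) * I with hw'
  have hwre' : w'.re = 0 := by rw [hw']; simp
  have hwc : -conj w' = w' := by
    rw [hw', map_sub, map_mul, map_mul, conj_ofReal, conj_ofReal, conj_I]
    ring
  obtain ⟨e1, -, e3⟩ := h2 t0 lam w' (((y : ℂ) * I).re + lam * L) s0 (min κ1 (1 / 1000)) D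
    (min_le_right _ _) (le_min hκ1.le (by norm_num)) (by rw [hwre'])
  set Ω := ‖Ev t0 lam w' s0‖ with hΩ
  have hΩp : 0 < Ω := norm_pos_iff.mpr D.ne
  set a := AA (LL gk 0) t0 lam w' with ha
  have hΩa : 19 / 20 * Ω ≤ ‖a‖ := by
    have := norm_sub_norm_le (Ev t0 lam w' s0) a
    rw [norm_sub_rev] at this
    linarith
  have hap : 0 < ‖a‖ := by linarith
  set p : ℂ := ((s0 : ℂ) - w') / (2 * lam) with hpdef
  set r : ℂ → ℂ := fun h => AA (LL gk 0) t0 lam (w' + h) * cexp (h ^ 2 / (4 * lam) - p * h) - a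
    with hr
  refine ⟨p, a, r, hlam, hLp, norm_pos_iff.mp hap, hp, ?_, fun h hh => ?_, fun h => ?_⟩
  · simp only [hr]
    simp [ha]
  · simp only [hr]
    refine (e3 h hh).trans ?_
    have h4 : 0 ≤ ‖h‖ / Real.sqrt lam := by positivity
    nlinarith
  · have hadd : ∀ h : ℂ, a + r h = AA (LL gk 0) t0 lam (w' + h) *
        cexp (h ^ 2 / (4 * lam) - p * h) := fun h => by
      simp only [hr]
      ring
    have hsp := split0 k G ((y : ℂ) * I + h)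
    have ew : (y : ℂ) * I + h - (t0 : ℂ) * I = w' + h := by rw [hw']; ring
    have ew2 : -conj (w' + h) = w' + -conj h := by
      rw [map_add, neg_add, hwc]
    rw [ew, ew2] at hsp
    rw [hsp, hadd, hadd, mul_add]
    congr 1
    · have e4 : h ^ 2 / (4 * (lam : ℂ)) = p * h + (h ^ 2 / (4 * lam) - p * h) := by ring
      nth_rewrite 1 [e4]
      rw [Complex.exp_add]
      ring
    · rw [map_mul, ← Complex.exp_conj]
      have e5 : conj ((-conj h) ^ 2 / (4 * (lam : ℂ)) - p * -conj h) =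
          h ^ 2 / (4 * (lam : ℂ)) + conj p * h := by
        simp only [map_sub, map_div₀, map_pow, map_neg, map_mul, conj_conj, conj_ofReal, map_ofNat]
        ring
      rw [e5]
      have e6 : h ^ 2 / (4 * (lam : ℂ)) = -(conj p * h) + (h ^ 2 / (4 * (lam : ℂ)) + conj p * h) := by
        ring
      nth_rewrite 1 [e6]
      rw [Complex.exp_add]
      ring

namespace Md

variable {Φ : ℂ → ℂ} {lam L κ y : ℝ} {p a : ℂ} {r : ℂ → ℂ}

lemma pre (M : Md Φ lam L κ y p a r) : (1 / 2 - κ) * L ≤ p.re ∧ p.re ≤ (1 / 2 + κ) * L := by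
  have h := (abs_re_le_norm _).trans M.pb
  rw [sub_re, ofReal_re, abs_le] at h
  constructor <;> linarith [h.1, h.2]

/-- no zeros off the line near the line -/
lemma off (M : Md Φ lam L κ y p a r) (hκ : κ ≤ 1 / 10) (hA : 10 ^ 7 ≤ lam * L ^ 2) {ϱ : ℝ}
    (h0 : 0 < ϱ) (h1 : ϱ * L ≤ 23) : Φ ((y : ℂ) * I + ϱ) ≠ 0 := by
  intro hz
  have hlam := M.lam0
  have hL := M.L0
  have hap : 0 < ‖a‖ := norm_pos_iff.mpr M.a0
  have hsl := Real.sqrt_pos.mpr hlam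
  have hsq := Real.sq_sqrt hlam.le
  set q := Real.sqrt lam with hq
  have hqL : 3162 ≤ q * L := by
    have h2 : (3162 : ℝ) ^ 2 ≤ (q * L) ^ 2 := by
      rw [mul_pow, hsq]
      linarith
    exact le_of_sq_le_sq h2 (by positivity)
  have hn : ‖(ϱ : ℂ)‖ = ϱ := by rw [Complex.norm_real, Real.norm_of_nonneg h0.le]
  have hϱq : ϱ ≤ q := by
    have h3 : ϱ * L ≤ q * L := by linarith
    exact le_of_mul_le_mul_right h3 hL
  have hϱ2 : ‖(ϱ : ℂ)‖ ^ 2 ≤ lam := by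
    rw [hn, ← hsq]
    exact pow_le_pow_left₀ h0.le hϱq 2
  have hm := M.mod ϱ
  rw [hz, mul_zero] at hm
  have hr1 := M.rb ϱ hϱ2
  have hc : -conj (ϱ : ℂ) = ((-ϱ : ℝ) : ℂ) := by rw [conj_ofReal]; push_cast; ring
  have hn2 : ‖((-ϱ : ℝ) : ℂ)‖ = ϱ := by rw [Complex.norm_real, norm_neg, Real.norm_of_nonneg h0.le]
  have hr2 := M.rb ((-ϱ : ℝ) : ℂ) (by rw [hn2, ← hn]; exact hϱ2)
  rw [hn] at hr1
  rw [hn2] at hr2
  rw [hc] at hm
  set r1 := r ϱ
  set r2 := r ((-ϱ : ℝ) : ℂ)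
  have e1 : ‖cexp (p * ϱ) * (a + r1)‖ = Real.exp (p.re * ϱ) * ‖a + r1‖ := by
    rw [norm_mul, Complex.norm_exp, mul_comm p, re_ofReal_mul, mul_comm ϱ]
  have e2 : ‖cexp (-(conj p * ϱ)) * conj (a + r2)‖ = Real.exp (-(p.re * ϱ)) * ‖a + r2‖ := by
    rw [norm_mul, Complex.norm_exp, Complex.norm_conj, neg_re, mul_comm (conj p), re_ofReal_mul,
      conj_re, mul_comm ϱ]
  have e3 : Real.exp (p.re * ϱ) * ‖a + r1‖ = Real.exp (-(p.re * ϱ)) * ‖a + r2‖ := by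
    rw [← e1, ← e2]
    have : cexp (p * ϱ) * (a + r1) = -(cexp (-(conj p * ϱ)) * conj (a + r2)) :=
      eq_neg_of_add_eq_zero_left hm.symm
    rw [this, norm_neg]
  have h4 : ‖a‖ - ‖r1‖ ≤ ‖a + r1‖ := by
    have := norm_sub_norm_le a (-r1)
    rw [sub_neg_eq_add, norm_neg] at this
    exact this
  have h5 : ‖a + r2‖ ≤ ‖a‖ + ‖r2‖ := norm_add_le _ _
  set Q : ℝ := 22 * (ϱ / q) * ‖a‖ with hQ
  have hQ0 : 0 ≤ Q := by positivity
  set x : ℝ := 2 * (p.re * ϱ) with hx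
  obtain ⟨hp1, hp2⟩ := M.pre
  have hp3 : 2 / 5 * L ≤ p.re := by nlinarith
  have hp4 : p.re ≤ 3 / 5 * L := by nlinarith
  have hx1 : 4 / 5 * (ϱ * L) ≤ x := by rw [hx]; nlinarith
  have hx2 : x ≤ 28 := by rw [hx]; nlinarith
  have hxp : 0 < x := lt_of_lt_of_le (by positivity) hx1
  have h6 : ‖a‖ - Q ≤ Real.exp (-x) * (‖a‖ + Q) := by
    have h7 : Real.exp (p.re * ϱ) * (‖a‖ - Q) ≤ Real.exp (-(p.re * ϱ)) * (‖a‖ + Q) := by
      have h8 : Real.exp (p.re * ϱ) * (‖a‖ - Q) ≤ Real.exp (p.re * ϱ) * ‖a + r1‖ :=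
        mul_le_mul_of_nonneg_left (by linarith) (Real.exp_pos _).le
      have h9 : Real.exp (-(p.re * ϱ)) * ‖a + r2‖ ≤ Real.exp (-(p.re * ϱ)) * (‖a‖ + Q) :=
        mul_le_mul_of_nonneg_left (by linarith) (Real.exp_pos _).le
      linarith
    have h10 := mul_le_mul_of_nonneg_left h7 (Real.exp_pos (-(p.re * ϱ))).le
    rw [← mul_assoc, ← mul_assoc, ← Real.exp_add, ← Real.exp_add, neg_add_cancel, Real.exp_zero,
      one_mul] at h10
    have e4 : -(p.re * ϱ) + -(p.re * ϱ) = -x := by rw [hx]; ring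
    rw [e4] at h10
    exact h10
  have h11 : Real.exp (-x) ≤ 1 / (1 + x) := by
    rw [Real.exp_neg, inv_eq_one_div]
    apply one_div_le_one_div_of_le (by linarith)
    linarith [Real.add_one_le_exp x]
  have h12 : ‖a‖ - Q ≤ 1 / (1 + x) * (‖a‖ + Q) :=
    h6.trans (mul_le_mul_of_nonneg_right h11 (by positivity))
  rw [one_div, inv_mul_eq_div, le_div_iff₀ (by linarith)] at h12
  -- `‖a‖ x ≤ Q (2 + x)`
  have h13 : ‖a‖ * x ≤ Q * 30 := by nlinarith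
  have h14 : ‖a‖ * (4 / 5 * (ϱ * L)) ≤ Q * 30 :=
    (mul_le_mul_of_nonneg_left hx1 hap.le).trans h13
  have h15 : ‖a‖ * (4 / 5 * (ϱ * L)) * q ≤ 660 * ϱ * ‖a‖ := by
    have h16 := mul_le_mul_of_nonneg_right h14 hsl.le
    have e5 : Q * 30 * q = 660 * ϱ * ‖a‖ := by
      rw [hQ]
      field_simp
      ring
    rw [e5] at h16
    exact h16
  have h17 : 0 < ‖a‖ * ϱ := by positivity
  nlinarith

end Md

end Pool.Agent.H466.HP
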