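import Pool.Agent.H466.HP.H11

/-!
# Zeros on the line near a regular point: simplicity and gaps
-/

set_option autoImplicit false

open Complex MeasureTheory Filter Topology Set
open scoped ComplexConjugate

namespace Pool.Agent.H466.HP

open Pool.Agent.H466.HF Pool.Agent.H466.LD
open Pool.Agent.H862.VK (Yz)

/-- lower bound for the sine -/
lemma sin_low {e x : ℝ} (he : 0 < e) (he1 : e ≤ 1) (hx : 0 ≤ x) (hx2 : x ≤ Real.pi - e) :
    e / 5 * x ≤ Real.sin x := by
  have hπ := Real.pi_pos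
  have hπ3 := Real.pi_gt_three
  have hπ4 := Real.pi_lt_d2
  rcases le_or_gt x (Real.pi / 2) with h | h
  · have h1 := Real.mul_le_sin hx h
    have h2 : e / 5 ≤ 2 / Real.pi := by
      rw [div_le_div_iff₀ (by norm_num) hπ]
      nlinarith
    exact (mul_le_mul_of_nonneg_right h2 hx).trans h1
  · have h1 := Real.mul_le_sin (x := Real.pi - x) (by linarith) (by linarith)
    rw [Real.sin_pi_sub] at h1
    refine le_trans ?_ h1
    have h2 : 2 / Real.pi * e ≤ 2 / Real.pi * (Real.pi - x) :=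
      mul_le_mul_of_nonneg_left (by linarith) (by positivity)
    refine le_trans ?_ h2
    have h3 : e / 5 * x ≤ e / 5 * 3.15 := mul_le_mul_of_nonneg_left (by linarith) (by positivity)
    refine h3.trans ?_
    have h4 : 0.63 ≤ 2 / Real.pi := by
      rw [le_div_iff₀ hπ]
      linarith
    have h5 := mul_le_mul_of_nonneg_right h4 he.le
    linarith

namespace Md

variable {Φ : ℂ → ℂ} {lam L κ y : ℝ} {p a : ℂ} {r : ℂ → ℂ}

lemma at_zero (M : Md Φ lam L κ y p a r) (h : Φ ((y : ℂ) * I) = 0) : a.re = 0 := by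
  have hm := M.mod 0
  have e : (y : ℂ) * I + 0 = (y : ℂ) * I := by ring
  rw [e, h, mul_zero, M.r0] at hm
  simp only [map_zero, neg_zero, mul_zero, Complex.exp_zero, one_mul, add_zero, M.r0] at hm
  have h2 := congrArg Complex.re hm
  simp only [zero_re, add_re, conj_re] at h2
  linarith

/-- values on the line near a zero on the line -/
lemma val (M : Md Φ lam L κ y p a r) (h : a.re = 0) (v : ℝ) (hv : v ^ 2 ≤ lam) :
    ∃ ρ : ℝ, |ρ| ≤ 22 * (|v| / Real.sqrt lam) * |a.im| ∧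
      Φ (((y + v : ℝ) : ℂ) * I) =
        ((2 * Real.exp (v ^ 2 / (4 * lam) - p.im * v) * (-(a.im * Real.sin (p.re * v)) + ρ) : ℝ) :
          ℂ) := by
  have hlam := M.lam0
  have hvn : ‖(v : ℂ) * I‖ = |v| := by
    rw [norm_mul, Complex.norm_I, mul_one, Complex.norm_real, Real.norm_eq_abs]
  have hm := M.mod ((v : ℂ) * I)
  have hrb := M.rb ((v : ℂ) * I) (by rw [hvn, sq_abs]; exact hv)
  rw [hvn] at hrb
  have ec : -conj ((v : ℂ) * I) = (v : ℂ) * I := by
    rw [map_mul, conj_ofReal, conj_I]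
    ring
  rw [ec] at hm
  set r1 := r ((v : ℂ) * I) with hr1
  have ea : a = (a.im : ℂ) * I := by
    apply Complex.ext
    · simp [h]
    · simp
  have hna : ‖a‖ = |a.im| := by
    rw [ea, norm_mul, Complex.norm_I, mul_one, Complex.norm_real, Real.norm_eq_abs]
    simp
  rw [hna] at hrb
  have ep : p * ((v : ℂ) * I) = ((-(p.im * v) : ℝ) : ℂ) + ((p.re * v : ℝ) : ℂ) * I := by
    have hp : p = (p.re : ℂ) + (p.im : ℂ) * I := (re_add_im p).symm
    nth_rewrite 1 [hp]
    push_cast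
    linear_combination ((p.im : ℂ) * v) * I_sq
  have ep2 : -(conj p * ((v : ℂ) * I)) = conj (p * ((v : ℂ) * I)) := by
    rw [map_mul, map_mul, conj_ofReal, conj_I]
    ring
  rw [ep2, Complex.exp_conj, ← map_mul, Complex.add_conj] at hm
  have eh : ((v : ℂ) * I) ^ 2 / (4 * lam) = ((-(v ^ 2 / (4 * lam)) : ℝ) : ℂ) := by
    rw [mul_pow, I_sq]
    push_cast
    ring
  rw [eh, ← ofReal_exp] at hm
  set X : ℝ := v ^ 2 / (4 * lam) with hX
  set u : ℂ := cexp (((p.re * v : ℝ) : ℂ) * I) with hu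
  have hun : ‖u‖ = 1 := by rw [hu]; exact Complex.norm_exp_ofReal_mul_I _
  have eexp : cexp (p * ((v : ℂ) * I)) = (Real.exp (-(p.im * v)) : ℂ) * u := by
    rw [ep, Complex.exp_add, ofReal_exp]
  refine ⟨(u * r1).re, ?_, ?_⟩
  · refine (abs_re_le_norm _).trans ?_
    rw [norm_mul, hun, one_mul]
    exact hrb
  · have e1 : (cexp (p * ((v : ℂ) * I)) * (a + r1)).re =
        Real.exp (-(p.im * v)) * (-(a.im * Real.sin (p.re * v)) + (u * r1).re) := by
      rw [eexp, mul_assoc, re_ofReal_mul, mul_add, add_re]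
      congr 2
      nth_rewrite 1 [ea]
      rw [hu, Complex.exp_mul_I, ← ofReal_cos, ← ofReal_sin]
      simp only [mul_re, add_re, add_im, mul_im, ofReal_re, ofReal_im, I_re, I_im]
      ring
    rw [e1] at hm
    have e2 : (y : ℂ) * I + (v : ℂ) * I = ((y + v : ℝ) : ℂ) * I := by push_cast; ring
    rw [e2] at hm
    have e3 : (Real.exp X : ℂ) * ((Real.exp (-X) : ℝ) : ℂ) = 1 := by
      rw [← ofReal_mul, ← Real.exp_add, add_neg_cancel, Real.exp_zero, ofReal_one]
    have hm2 := congrArg (fun z => (Real.exp X : ℂ) * z) hm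
    rw [← mul_assoc, e3, one_mul] at hm2
    rw [hm2, ← ofReal_mul]
    congr 1
    rw [sub_eq_add_neg, Real.exp_add]
    ring

/-- **gaps and simplicity** -/
lemma gap (M : Md Φ lam L κ y p a r) {e : ℝ} (he : 0 < e) (he1 : e ≤ 1) (hκ : κ ≤ e / 25)
    (hκ0 : 0 ≤ κ) (hA : (1000 / e) ^ 2 ≤ lam * L ^ 2) (hd : Differentiable ℂ Φ)
    (h : Φ ((y : ℂ) * I) = 0) :
    deriv Φ ((y : ℂ) * I) ≠ 0 ∧
    ∃ g : ℝ, 0 < g ∧ |g - 2 * Real.pi / L| ≤ 4 * e / L ∧
      Φ (((y + g : ℝ) : ℂ) * I) = 0 ∧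
      ∀ v : ℝ, 0 < v → v < g → Φ (((y + v : ℝ) : ℂ) * I) ≠ 0 := by
  have hlam := M.lam0
  have hL := M.L0
  have hπ := Real.pi_pos
  have hπ3 := Real.pi_gt_three
  have hπ4 := Real.pi_lt_d2
  have hsl := Real.sqrt_pos.mpr hlam
  have hsq := Real.sq_sqrt hlam.le
  have hre := M.at_zero h
  obtain ⟨hp1, hp2⟩ := M.pre
  have hval := M.val hre
  have him : a.im ≠ 0 := by
    intro h0
    exact M.a0 (Complex.ext hre h0)
  set q := Real.sqrt lam with hq
  set α := a.im with hα
  set σ := p.re with hσ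
  have hα2 : 0 < α ^ 2 := by positivity
  have hqL : 1000 ≤ q * L * e := by
    have h2 : (1000 / e) ^ 2 ≤ (q * L) ^ 2 := by
      rw [mul_pow, hsq]
      exact hA
    have h3 := le_of_sq_le_sq h2 (by positivity)
    rw [div_le_iff₀ he] at h3
    exact h3
  have hqL0 : 0 < q * L := by positivity
  have hqL1 : 1000 ≤ q * L := by nlinarith
  have hσ1 : 23 / 50 * L ≤ σ := by
    have : κ ≤ 1 / 25 := by linarith
    nlinarith
  have hσp : 0 < σ := lt_of_lt_of_le (by positivity) hσ1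
  -- the function
  obtain ⟨f, hf⟩ : ∃ f : ℝ → ℝ, f = fun v => -α * (Φ (((y + v : ℝ) : ℂ) * I)).re :=
    ⟨_, rfl⟩
  have hfv : ∀ v : ℝ, v ^ 2 ≤ lam → ∃ E : ℝ, 0 < E ∧ E = 2 * Real.exp (v ^ 2 / (4 * lam) - p.im * v) ∧
      E * α ^ 2 * (Real.sin (σ * v) - 22 * |v| / q) ≤ f v ∧
      f v ≤ E * α ^ 2 * (Real.sin (σ * v) + 22 * |v| / q) := by
    intro v hv
    obtain ⟨ρ, h1, h2⟩ := hval v hv
    refine ⟨2 * Real.exp (v ^ 2 / (4 * lam) - p.im * v), by positivity, rfl, ?_⟩
    rw [hf]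
    simp only
    rw [h2, ofReal_re]
    set E := 2 * Real.exp (v ^ 2 / (4 * lam) - p.im * v)
    have hE : 0 < E := by positivity
    have h3 : |α * ρ| ≤ α ^ 2 * (22 * |v| / q) := by
      rw [abs_mul]
      have h4 := mul_le_mul_of_nonneg_left h1 (abs_nonneg α)
      refine h4.trans (le_of_eq ?_)
      have h5 : |α| * |α| = α ^ 2 := by rw [← abs_mul, ← sq, abs_of_nonneg (sq_nonneg α)]
      calc |α| * (22 * (|v| / q) * |α|) = (|α| * |α|) * (22 * |v| / q) := by ring
        _ = _ := by rw [h5]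
    obtain ⟨h4, h5⟩ := abs_le.mp h3
    have e1 : -α * (E * (-(α * Real.sin (σ * v)) + ρ)) =
        E * (α ^ 2 * Real.sin (σ * v) - α * ρ) := by ring
    rw [e1]
    constructor
    · have e2 : E * α ^ 2 * (Real.sin (σ * v) - 22 * |v| / q) =
          E * (α ^ 2 * Real.sin (σ * v) - α ^ 2 * (22 * |v| / q)) := by ring
      rw [e2]
      exact mul_le_mul_of_nonneg_left (by linarith) hE.le
    · have e2 : E * α ^ 2 * (Real.sin (σ * v) + 22 * |v| / q) =
          E * (α ^ 2 * Real.sin (σ * v) + α ^ 2 * (22 * |v| / q)) := by ring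
      rw [e2]
      exact mul_le_mul_of_nonneg_left (by linarith) hE.le
  have hfc : Continuous f := by
    rw [hf]
    have h1 := hd.continuous
    fun_prop
  -- zeros of `f`
  have hf0 : ∀ v : ℝ, v ^ 2 ≤ lam → f v = 0 → Φ (((y + v : ℝ) : ℂ) * I) = 0 := by
    intro v hv h0
    obtain ⟨ρ, h1, h2⟩ := hval v hv
    rw [hf] at h0
    simp only at h0
    have h3 : (Φ (((y + v : ℝ) : ℂ) * I)).re = 0 := by
      rcases mul_eq_zero.mp h0 with h4 | h4
      · exact absurd (neg_eq_zero.mp h4) him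
      · exact h4
    rw [h2, ofReal_re] at h3
    rw [h2, h3, ofReal_zero]
  have hfne : ∀ v : ℝ, f v ≠ 0 → Φ (((y + v : ℝ) : ℂ) * I) ≠ 0 := by
    intro v h0 h1
    apply h0
    rw [hf]
    simp only
    rw [h1, zero_re, mul_zero]
  -- the slope constant
  obtain ⟨c1, hc1⟩ : ∃ c1 : ℝ, c1 = σ * e / 5 - 22 / q := ⟨_, rfl⟩
  have hc1p : 0 < c1 := by
    rw [hc1, sub_pos, div_lt_div_iff₀ hsl (by norm_num)]
    have h2 : 23 / 50 * L * e * q ≤ σ * e * q := by
      apply mul_le_mul_of_nonneg_right _ hsl.le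
      exact mul_le_mul_of_nonneg_right hσ1 he.le
    nlinarith
  -- points up to `(π - e) / σ`
  set v1 : ℝ := (Real.pi - e) / σ with hv1
  set v2 : ℝ := (Real.pi + e) / σ with hv2
  have hv1p : 0 < v1 := by
    apply div_pos _ hσp
    linarith
  have hv12 : v1 < v2 := by
    rw [hv1, hv2]
    apply div_lt_div_of_pos_right _ hσp
    linarith
  have hv2L : v2 * L ≤ 10 := by
    rw [hv2, div_mul_eq_mul_div, div_le_iff₀ hσp]
    nlinarith
  have hv2q : v2 ≤ q := by
    have : v2 * L ≤ q * L := by linarith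
    exact le_of_mul_le_mul_right this hL
  have hvlam : ∀ v : ℝ, 0 ≤ v → v ≤ v2 → v ^ 2 ≤ lam := by
    intro v h0 h1
    rw [← hsq]
    exact pow_le_pow_left₀ h0 (h1.trans hv2q) 2
  have hpos : ∀ v : ℝ, 0 < v → v ≤ v1 → ∃ E : ℝ,
      E = 2 * Real.exp (v ^ 2 / (4 * lam) - p.im * v) ∧ 0 < E ∧ E * α ^ 2 * (c1 * v) ≤ f v := by
    intro v h0 h1
    obtain ⟨E, hE, hE2, h2, -⟩ := hfv v (hvlam v h0.le (h1.trans hv12.le))
    refine ⟨E, hE2, hE, le_trans ?_ h2⟩
    apply mul_le_mul_of_nonneg_left _ (by positivity)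
    have h3 := sin_low he he1 (x := σ * v) (by positivity) (by
      rw [hv1, le_div_iff₀ hσp] at h1
      linarith)
    rw [abs_of_pos h0, hc1]
    have e1 : 22 * v / q = 22 / q * v := by ring
    rw [e1]
    linarith
  have hneg : f v2 < 0 := by
    obtain ⟨E, hE, -, -, h2⟩ := hfv v2 (hvlam v2 (by linarith) le_rfl)
    refine lt_of_le_of_lt h2 ?_
    have h3 : Real.sin (σ * v2) = -Real.sin e := by
      have : σ * v2 = e + Real.pi := by
        rw [hv2]
        field_simp
        ring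
      rw [this, Real.sin_add_pi]
    have h4 : 3 / 5 * e ≤ Real.sin e := by
      have h5 := Real.mul_le_sin he.le (by linarith)
      have h6 : 3 / 5 ≤ 2 / Real.pi := by
        rw [le_div_iff₀ hπ]
        linarith
      exact (mul_le_mul_of_nonneg_right h6 he.le).trans h5
    have h5 : 22 * |v2| / q < 3 / 5 * e := by
      rw [abs_of_pos (by linarith), div_lt_iff₀ hsl]
      have h6 : 22 * v2 * L < 3 / 5 * e * q * L := by nlinarith
      exact lt_of_mul_lt_mul_right h6 hL.le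
    apply mul_neg_of_pos_of_neg (by positivity)
    rw [h3]
    linarith
  constructor
  · -- simplicity
    intro hder
    have hda : HasDerivAt Φ 0 ((y : ℂ) * I) := by
      rw [← hder]
      exact (hd _).hasDerivAt
    have hline : HasDerivAt (fun v : ℝ => ((y + v : ℝ) : ℂ) * I) I 0 := by
      have h1 : HasDerivAt (fun v : ℝ => y + v) 1 0 := (hasDerivAt_id (0 : ℝ)).const_add y
      have h2 := h1.ofReal_comp.mul_const I
      simpa using h2
    have hda' : HasDerivAt Φ 0 (((y + (0 : ℝ) : ℝ) : ℂ) * I) := by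
      rw [add_zero]
      exact hda
    have h1 := hda'.comp (0 : ℝ) hline
    have h2 : HasDerivAt (fun v : ℝ => (Φ (((y + v : ℝ) : ℂ) * I)).re) 0 0 := by
      have h3 := Complex.reCLM.hasFDerivAt.comp_hasDerivAt (0 : ℝ) h1
      refine HasDerivAt.congr_deriv h3 ?_
      simp
    have h3 : HasDerivAt f (-α * 0) 0 := by
      rw [hf]
      exact h2.const_mul (-α)
    rw [mul_zero, hasDerivAt_iff_isLittleO] at h3
    have hf00 : f 0 = 0 := by
      rw [hf]
      simp only
      rw [add_zero, h, zero_re, mul_zero]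
    simp only [hf00, sub_zero, smul_zero] at h3
    set c2 : ℝ := Real.exp (-(|p.im| * v1)) * α ^ 2 * c1 with hc2
    have hc2p : 0 < c2 := by positivity
    have h4 := h3.def hc2p
    have h5 : ∀ᶠ v : ℝ in 𝓝 0, v < v1 := eventually_lt_nhds hv1p
    have h6 : ∀ᶠ v : ℝ in 𝓝[>] 0, ‖f v‖ ≤ c2 * ‖v‖ ∧ v < v1 :=
      (h4.and h5).filter_mono nhdsWithin_le_nhds
    obtain ⟨v, ⟨h7, h8⟩, h9⟩ := (h6.and self_mem_nhdsWithin).exists
    have h9' : 0 < v := h9
    obtain ⟨E, hE1, hE2, h10⟩ := hpos v h9' h8.le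
    rw [Real.norm_eq_abs, Real.norm_eq_abs, abs_of_pos h9'] at h7
    have h11 : f v ≤ c2 * v := (le_abs_self _).trans h7
    have h12 : Real.exp (-(|p.im| * v1)) < E := by
      rw [hE1]
      have h13 : Real.exp (-(|p.im| * v1)) ≤ Real.exp (v ^ 2 / (4 * lam) - p.im * v) := by
        apply Real.exp_le_exp.mpr
        have h14 : 0 ≤ v ^ 2 / (4 * lam) := by positivity
        have h15 : p.im * v ≤ |p.im| * v1 :=
          mul_le_mul (le_abs_self _) h8.le h9'.le (abs_nonneg _)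
        linarith
      have := Real.exp_pos (v ^ 2 / (4 * lam) - p.im * v)
      linarith
    have h13 : c2 * v < E * α ^ 2 * (c1 * v) := by
      rw [hc2]
      have h14 : 0 < α ^ 2 * c1 * v := by positivity
      nlinarith
    linarith
  · -- the next zero
    have hcont : ContinuousOn f (Icc v1 v2) := hfc.continuousOn
    obtain ⟨E, -, hE, hfv1⟩ := hpos v1 hv1p le_rfl
    have hfv1p : 0 < f v1 := lt_of_lt_of_le (by positivity) hfv1
    have hex : ∃ v ∈ Icc v1 v2, f v = 0 := by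
      have := intermediate_value_Icc' hv12.le hcont
      have h0 : (0 : ℝ) ∈ Icc (f v2) (f v1) := ⟨hneg.le, hfv1p.le⟩
      obtain ⟨v, hv, hv0⟩ := this h0
      exact ⟨v, hv, hv0⟩
    set Zs : Set ℝ := Icc v1 v2 ∩ f ⁻¹' {0} with hZs
    have hZc : IsCompact Zs := isCompact_Icc.inter_right (isClosed_singleton.preimage hfc)
    have hZn : Zs.Nonempty := by
      obtain ⟨v, hv, hv0⟩ := hex
      exact ⟨v, hv, hv0⟩
    obtain ⟨g, hg, hmin⟩ := hZc.exists_isLeast hZn
    obtain ⟨hg1, hg2⟩ := hg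
    have hg0 : f g = 0 := hg2
    refine ⟨g, lt_of_lt_of_le hv1p hg1.1, ?_, hf0 g (hvlam g (hv1p.le.trans hg1.1) hg1.2) hg0, ?_⟩
    · have e1 : g - 2 * Real.pi / L = (g * L - 2 * Real.pi) / L := by
        field_simp
      rw [e1, abs_div, abs_of_pos hL]
      apply div_le_div_of_nonneg_right _ hL.le
      have h1 : (Real.pi - e) ≤ g * σ := by
        have := hg1.1
        rw [hv1, div_le_iff₀ hσp] at this
        exact this
      have h2 : g * σ ≤ Real.pi + e := by
        have := hg1.2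
        rw [hv2, le_div_iff₀ hσp] at this
        exact this
      have hgp : 0 < g := lt_of_lt_of_le hv1p hg1.1
      have h3 : g * σ ≤ g * ((1 / 2 + κ) * L) := mul_le_mul_of_nonneg_left hp2 hgp.le
      have h4 : g * ((1 / 2 - κ) * L) ≤ g * σ := mul_le_mul_of_nonneg_left hp1 hgp.le
      have hgL : g * L ≤ 10 := (mul_le_mul_of_nonneg_right hg1.2 hL.le).trans hv2L
      have hgL0 : 0 < g * L := by positivity
      have h5 : κ * (g * L) ≤ e / 25 * 10 := mul_le_mul hκ hgL hgL0.le (by positivity)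
      rw [abs_le]
      constructor <;> nlinarith
    · intro v h0 h1
      apply hfne
      rcases le_or_gt v v1 with h2 | h2
      · obtain ⟨E, -, hE, h3⟩ := hpos v h0 h2
        have : 0 < f v := lt_of_lt_of_le (by positivity) h3
        exact this.ne'
      · intro h3
        have h4 : v ∈ Zs := ⟨⟨h2.le, h1.le.trans hg1.2⟩, h3⟩
        exact absurd (hmin h4) (not_le.mpr h1)

end Md

end Pool.Agent.H466.HP
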