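import Pool.Agent.H466.HP.H12

/-!
# Near regular points all zeros are good
-/

set_option autoImplicit false

open Complex MeasureTheory Filter Topology Set
open scoped ComplexConjugate

namespace Pool.Agent.H466.HP

open Pool.Agent.H466.HF Pool.Agent.H466.LD
open Pool.Agent.H862.VK (Yz)

lemma Reg1.mono {t y0 M κ κ' L : ℝ} (h : Reg1 t y0 M κ L) (hL : 0 ≤ L) (hκ : κ ≤ κ') :
    Reg1 t y0 M κ' L :=
  ⟨h.1, fun z hz => (h.2 z hz).trans (mul_le_mul_of_nonneg_right hκ hL)⟩

theorem zloc (h1 : S_SAD) (h2 : S_HALF) : S_ZLOC := by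
  intro ε δ hε hδ
  set e : ℝ := min (ε / 4) 1 with he
  have hep : 0 < e := lt_min (by positivity) one_pos
  have he1 : e ≤ 1 := min_le_right _ _
  have he4 : 4 * e ≤ ε := by
    have := min_le_left (ε / 4) 1
    rw [← he] at this
    linarith
  obtain ⟨A, -, -, -, -, -, -, -, k, -⟩ := far_data
  obtain ⟨κa, T1, hκa, hκa1, hT1, hmd⟩ := md_of h1 h2 hδ (show 0 < e / 25 by positivity)
  obtain ⟨κb, T2, hκb, hκb1, hT2, hlow⟩ := low h1 h2 δ (e / 25) hδ (by positivity)
  refine ⟨min κa κb, max (10 ^ 7) ((1000 / e) ^ 2), max T1 T2, lt_min hκa hκb, by positivity,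
    hT1.trans (le_max_left _ _), ?_⟩
  intro T t y0 lam hT ht1 ht2 hy0 hR hlam hA hl hy z hz hzt
  have b1 : T1 ≤ T := (le_max_left _ _).trans hT
  have b2 : T2 ≤ T := (le_max_right _ _).trans hT
  have hT10 : 10 ≤ T := hT1.trans b1
  set L := Real.log T with hL
  have hLp : 0 < L := by rw [hL]; exact Real.log_pos (by linarith)
  have hA1 : 10 ^ 7 ≤ lam * L ^ 2 := (le_max_left _ _).trans hA
  have hA2 : (1000 / e) ^ 2 ≤ lam * L ^ 2 := (le_max_right _ _).trans hA
  have hRa : Reg1 t y0 64 κa L := hR.mono hLp.le (min_le_left _ _)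
  have hRb : Reg1 t y0 64 κb L := hR.mono hLp.le (min_le_right _ _)
  have hΔ : 0 < lam * L := by positivity
  have hd : Differentiable ℂ (LL gk lam) := k.differentiable lam
  -- no zeros off the line
  have hoff1 : ∀ z : ℂ, LL gk lam z = 0 → |z.im - t| ≤ lam * L → 0 < z.re → False := by
    intro z hz hzt hre
    have hs := (abs_le.mp (strip lam z hlam hz)).2
    rcases le_or_gt 23 (z.re * L) with h | h
    · exact (hlow T t y0 lam b2 ht1 ht2 hy0 hRb hlam (by linarith) hl z h hs (by linarith)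
        (by linarith)).1 hz
    · obtain ⟨p, a, r, M⟩ := hmd T t y0 lam b1 ht1 ht2 hy0 hRa hlam (by linarith) hl hy z.im hzt
      refine M.off (by linarith) hA1 hre h.le ?_
      have : (z.im : ℂ) * I + (z.re : ℂ) = z := by
        rw [add_comm]
        exact re_add_im z
      rw [this]
      exact hz
  have hoff : ∀ z : ℂ, LL gk lam z = 0 → |z.im - t| ≤ lam * L → z.re = 0 := by
    intro z hz hzt
    rcases lt_trichotomy z.re 0 with h | h | h
    · exfalso
      refine hoff1 (-conj z) (by rw [Flam_fe, hz, map_zero]) ?_ ?_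
      · simpa using hzt
      · simpa using h
    · exact h
    · exact absurd h (fun h => hoff1 z hz hzt h)
  have hzt' : |z.im - t| ≤ lam * L := by linarith
  have hz0 := hoff z hz hzt'
  have hzI : z = (z.im : ℂ) * I := by
    apply Complex.ext
    · simp [hz0]
    · simp
  obtain ⟨p, a, r, M⟩ := hmd T t y0 lam b1 ht1 ht2 hy0 hRa hlam (by linarith) hl hy z.im hzt'
  obtain ⟨hder, g, hg, hgL, hg0, hgn⟩ := M.gap hep he1 hκa1 hκa.le hA2 hd (by
    rw [← hzI]
    exact hz)
  refine ⟨hz0, by rw [hzI]; exact hder, g, hg, ?_, ?_, ?_⟩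
  · refine hgL.trans ?_
    exact div_le_div_of_nonneg_right he4 hLp.le
  · have e1 : z + (g : ℂ) * I = ((z.im + g : ℝ) : ℂ) * I := by
      nth_rewrite 1 [hzI]
      push_cast
      ring
    rw [e1]
    exact hg0
  · intro z' h3 h4 h5
    have hg8 : g ≤ 12 / L := by
      have h6 := (abs_le.mp hgL).2
      have h7 : 2 * Real.pi / L + 4 * e / L ≤ 12 / L := by
        rw [← add_div]
        apply div_le_div_of_nonneg_right _ hLp.le
        linarith [Real.pi_lt_d2]
      linarith
    have hg9 : g ≤ lam * L / 2 := by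
      refine hg8.trans ?_
      rw [div_le_iff₀ hLp]
      nlinarith
    have h8 : |z'.im - t| ≤ lam * L := by
      obtain ⟨h9, h10⟩ := abs_le.mp hzt
      rw [abs_le]
      constructor <;> linarith
    have h9 := hoff z' h5 h8
    have e2 : z' = ((z.im + (z'.im - z.im) : ℝ) : ℂ) * I := by
      apply Complex.ext
      · simp [h9]
      · simp
    refine hgn (z'.im - z.im) (by linarith) (by linarith) ?_
    rw [← e2]
    exact h5

end Pool.Agent.H466.HP
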