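import Pool.Agent.H466.HP.H0

/-!
# The heat flow at a regular point: upper bound and a point of the expected size
-/

set_option autoImplicit false

open Complex MeasureTheory Filter Topology Set
open scoped ComplexConjugate

namespace Pool.Agent.H466.HP

open Pool.Agent.H466.HF Pool.Agent.H466.LD
open Pool.Agent.H862.VK (Yz)

/-- the upper bound to the right of the line -/
structure UB (t ℓ τ E Γ K : ℝ) : Prop where
  Γpos : 0 < Γ
  ℓ0 : 0 ≤ ℓ
  τ0 : 0 ≤ τ
  K0 : 0 ≤ K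
  up : ∀ x v : ℝ, 0 ≤ x → |v| ≤ 3 →
    ‖LL gk 0 ((x : ℂ) + ((t + v : ℝ) : ℂ) * I)‖ ≤
      Γ * Real.exp ((ℓ + τ) * x + 3 * τ * |v| + E + 2 * K * x ^ 2)

lemma UB.up' {t ℓ τ E Γ K : ℝ} (U : UB t ℓ τ E Γ K) (x v : ℝ) (hv : |v| ≤ 3) :
    ‖LL gk 0 ((x : ℂ) + ((t + v : ℝ) : ℂ) * I)‖ ≤
      Γ * Real.exp ((ℓ + τ) * |x| + 3 * τ * |v| + E + 2 * K * x ^ 2) := by
  rcases le_or_gt 0 x with h | h
  · rw [abs_of_nonneg h]
    exact U.up x v h hv
  · have h1 := U.up (-x) v (by linarith) hv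
    rw [abs_of_neg h]
    have e : (((-x : ℝ)) : ℂ) + ((t + v : ℝ) : ℂ) * I =
        -conj ((x : ℂ) + ((t + v : ℝ) : ℂ) * I) := by
      rw [map_add, map_mul, conj_ofReal, conj_ofReal, conj_I]
      push_cast
      ring
    rw [e, F_sym] at h1
    have e2 : (-x) ^ 2 = x ^ 2 := by ring
    rw [e2] at h1
    exact h1

/-- upper bound for the heat flow near a regular point -/
lemma UB.heat {t ℓ τ E Γ K A lam : ℝ} (U : UB t ℓ τ E Γ K) (k : Kern gk A 1) (hlam : 0 < lam)
    (hs : 32 * K * lam ≤ 1) (x v : ℝ) (hv : |v| ≤ 3) :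
    ‖LL gk lam ((x : ℂ) + ((t + v : ℝ) : ℂ) * I)‖ ≤
      Γ * Real.exp ((ℓ + τ) * |x| + 3 * τ * |v| + E + 4 * K * x ^ 2 + lam * (ℓ + τ) ^ 2 +
        8 * (4 * K) * (lam * (ℓ + τ)) ^ 2 + 2) := by
  have hK := U.K0
  refine heat_upper k hlam (ℒ := ℓ + τ) (K := 4 * K) (by positivity) (by linarith) (fun s => ?_)
  have e : (x : ℂ) + ((t + v : ℝ) : ℂ) * I + (s : ℂ) = ((x + s : ℝ) : ℂ) + ((t + v : ℝ) : ℂ) * I := by
    push_cast; ring
  rw [e]
  refine (U.up' (x + s) v hv).trans (mul_le_mul_of_nonneg_left (Real.exp_le_exp.mpr ?_) U.Γpos.le)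
  have h1 : |x + s| ≤ |x| + |s| := abs_add_le _ _
  have h2 : (ℓ + τ) * |x + s| ≤ (ℓ + τ) * (|x| + |s|) :=
    mul_le_mul_of_nonneg_left h1 (by linarith [U.ℓ0, U.τ0])
  have h3 : 2 * K * (x + s) ^ 2 ≤ 2 * K * (2 * x ^ 2 + 2 * s ^ 2) := by
    apply mul_le_mul_of_nonneg_left _ (by positivity)
    nlinarith [sq_nonneg (x - s)]
  nlinarith

/-- the backward heat flow along a shifted vertical line -/
lemma bshift {A lam : ℝ} (k : Kern gk A 1) (hlam : 0 < lam) (z : ℂ) (a : ℝ) :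
    Real.sqrt (Real.pi * (4 * lam)) * Real.exp (-(a ^ 2 / (4 * lam))) * ‖LL gk 0 (z + a)‖ ≤
      ∫ v : ℝ, ‖LL gk lam (z + v * I)‖ * Real.exp (-v ^ 2 / (4 * lam)) := by
  have hS := sqrt_pos' hlam
  set b : ℝ := a / (2 * lam) with hb
  have key : ∫ v : ℝ, LL gk lam (z + v * I) *
      (cexp (-((v * b : ℝ) : ℂ) * I) * (Real.exp (-v ^ 2 / (4 * lam)) : ℂ)) =
      (Real.sqrt (Real.pi * (4 * lam)) : ℂ) * ((Real.exp (-(a ^ 2 / (4 * lam))) : ℝ) : ℂ) *
        LL gk 0 (z + a) := by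
    have h1 : ∀ v : ℝ, LL gk lam (z + v * I) *
        (cexp (-((v * b : ℝ) : ℂ) * I) * (Real.exp (-v ^ 2 / (4 * lam)) : ℂ)) =
        ∫ u : ℝ, (gk u * cexp ((lam : ℂ) * (u : ℂ) ^ 2 + z * u)) *
          (cexp ((v : ℂ) * (I * (u - b))) * (Real.exp (-v ^ 2 / (4 * lam)) : ℂ)) := by
      intro v
      unfold LL
      rw [← integral_mul_const]
      refine integral_congr_ae (Eventually.of_forall fun u => ?_)
      simp only
      have e : (lam : ℂ) * (u : ℂ) ^ 2 + (z + v * I) * u =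
          ((lam : ℂ) * (u : ℂ) ^ 2 + z * u) + (v : ℂ) * I * u := by ring
      have e2 : (v : ℂ) * (I * (u - b)) = (v : ℂ) * I * u + -((v * b : ℝ) : ℂ) * I := by
        push_cast; ring
      have e3 := Complex.exp_add ((lam : ℂ) * (u : ℂ) ^ 2 + z * u) ((v : ℂ) * I * u)
      have e4 := Complex.exp_add ((v : ℂ) * I * u) (-((v * b : ℝ) : ℂ) * I)
      rw [e, e2, e3, e4]
      ring
    simp_rw [h1]
    have hint : Integrable (Function.uncurry fun (v u : ℝ) =>
        (gk u * cexp ((lam : ℂ) * (u : ℂ) ^ 2 + z * u)) *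
          (cexp ((v : ℂ) * (I * (u - b))) * (Real.exp (-v ^ 2 / (4 * lam)) : ℂ)))
        ((volume : Measure ℝ).prod volume) := by
      have i1 : Integrable (fun v : ℝ => Real.exp (-v ^ 2 / (4 * lam))) :=
        ga_integrable (k := 4 * lam) (by positivity)
      have i2 := (k.integrable lam z).norm
      refine (i1.mul_prod i2).mono' ?_ (Eventually.of_forall fun p => ?_)
      · have := k.cont
        refine Continuous.aestronglyMeasurable ?_
        unfold Function.uncurry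
        fun_prop
      · obtain ⟨v, u⟩ := p
        simp only [Function.uncurry]
        rw [norm_mul, norm_mul (cexp _) ((Real.exp _ : ℝ) : ℂ)]
        have e1 : ‖cexp ((v : ℂ) * (I * (u - b)))‖ = 1 := by
          have : (v : ℂ) * (I * (u - b)) = ((v * (u - b) : ℝ) : ℂ) * I := by push_cast; ring
          rw [this, Complex.norm_exp_ofReal_mul_I]
        rw [e1, one_mul, Complex.norm_real, Real.norm_eq_abs, abs_of_pos (Real.exp_pos _), mul_comm]
    rw [integral_integral_swap hint]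
    have h2 : ∀ u : ℝ, ∫ v : ℝ, (gk u * cexp ((lam : ℂ) * (u : ℂ) ^ 2 + z * u)) *
          (cexp ((v : ℂ) * (I * (u - b))) * (Real.exp (-v ^ 2 / (4 * lam)) : ℂ)) =
        ((Real.sqrt (Real.pi * (4 * lam)) : ℂ) * ((Real.exp (-(a ^ 2 / (4 * lam))) : ℝ) : ℂ)) *
          (gk u * cexp ((z + a) * u)) := by
      intro u
      rw [integral_const_mul, gauss_inner' hlam]
      have e : cexp ((lam : ℂ) * (u : ℂ) ^ 2 + z * u) * cexp (lam * (I * (u - b)) ^ 2) =
          ((Real.exp (-(a ^ 2 / (4 * lam))) : ℝ) : ℂ) * cexp ((z + a) * u) := by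
        rw [ofReal_exp, ← Complex.exp_add, ← Complex.exp_add]
        congr 1
        have hI : I ^ 2 = -1 := I_sq
        have hb2 : (2 : ℂ) * lam * b = a := by
          rw [hb]
          push_cast
          have : (lam : ℂ) ≠ 0 := ofReal_ne_zero.mpr hlam.ne'
          field_simp
        have hb3r : a ^ 2 / (4 * lam) = lam * b ^ 2 := by
          rw [hb]
          field_simp
          ring
        have hb3 : ((-(a ^ 2 / (4 * lam)) : ℝ) : ℂ) = -((lam : ℂ) * b ^ 2) := by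
          rw [hb3r]
          push_cast
          ring
        rw [hb3, mul_pow, hI]
        linear_combination (u : ℂ) * hb2
      calc gk u * cexp ((lam : ℂ) * (u : ℂ) ^ 2 + z * u) *
            ((Real.sqrt (Real.pi * (4 * lam)) : ℂ) * cexp (lam * (I * (u - b)) ^ 2))
          = (Real.sqrt (Real.pi * (4 * lam)) : ℂ) * (gk u *
            (cexp ((lam : ℂ) * (u : ℂ) ^ 2 + z * u) * cexp (lam * (I * (u - b)) ^ 2))) := by ring
        _ = _ := by rw [e]; ring
    simp_rw [h2]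
    rw [integral_const_mul, LL_zero]
  have h3 := norm_integral_le_integral_norm (μ := volume) (fun v : ℝ => LL gk lam (z + v * I) *
      (cexp (-((v * b : ℝ) : ℂ) * I) * (Real.exp (-v ^ 2 / (4 * lam)) : ℂ)))
  rw [key, norm_mul, norm_mul, Complex.norm_real, Complex.norm_real, Real.norm_eq_abs,
    Real.norm_eq_abs, abs_of_pos hS, abs_of_pos (Real.exp_pos _)] at h3
  refine h3.trans (le_of_eq ?_)
  refine integral_congr_ae (Eventually.of_forall fun v => ?_)
  simp only [norm_mul]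
  have e1 : ‖cexp (-((v * b : ℝ) : ℂ) * I)‖ = 1 := by
    have : -((v * b : ℝ) : ℂ) * I = ((-(v * b) : ℝ) : ℂ) * I := by push_cast; ring
    rw [this, Complex.norm_exp_ofReal_mul_I]
  rw [e1, one_mul, Complex.norm_real, Real.norm_eq_abs, abs_of_pos (Real.exp_pos _)]

end Pool.Agent.H466.HP
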