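import Pool.Agent.H466.HP.H2

/-!
# A point of the expected size close to a regular point
-/

set_option autoImplicit false

open Complex MeasureTheory Filter Topology Set
open scoped ComplexConjugate

namespace Pool.Agent.H466.HP

open Pool.Agent.H466.HF Pool.Agent.H466.LD
open Pool.Agent.H862.VK (Yz)

lemma exp_neg_log16 : Real.exp (-3) ≤ 1 / 16 := by
  have h1 : (2.7 : ℝ) ≤ Real.exp 1 := by
    have := Real.exp_one_gt_d9
    linarith
  have h2 : Real.exp 3 = Real.exp 1 ^ 3 := by
    rw [← Real.exp_nat_mul]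
    norm_num
  have h3 : (16 : ℝ) ≤ Real.exp 3 := by
    rw [h2]
    have := pow_le_pow_left₀ (by norm_num) h1 3
    norm_num at this
    linarith
  rw [Real.exp_neg, inv_eq_one_div]
  exact one_div_le_one_div_of_le (by norm_num) h3

/-- if the heat flow is of the expected size on average, it is so at a near point -/
theorem bigpt {A lam t ϱ B τ E N C s : ℝ} (k : Kern gk A 1) (hlam : 0 < lam) (hB : 0 < B)
    (hτ : 0 ≤ τ) (hC0 : 0 ≤ C) (hs0 : 0 ≤ s)
    (hs : 24 * τ * lam ≤ s) (hC : 8 * C * lam ≤ 1)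
    (h1 : E + 3 ≤ s ^ 2 / (16 * lam)) (h2 : N + 3 ≤ 9 / (16 * lam))
    (hint : Real.sqrt (Real.pi * (4 * lam)) * B ≤
      ∫ v : ℝ, ‖LL gk lam ((ϱ : ℂ) + ((t + v : ℝ) : ℂ) * I)‖ * Real.exp (-v ^ 2 / (4 * lam)))
    (hnear : ∀ v : ℝ, |v| ≤ 3 →
      ‖LL gk lam ((ϱ : ℂ) + ((t + v : ℝ) : ℂ) * I)‖ ≤ B * Real.exp (E + 3 * τ * |v|))
    (hfar : ∀ v : ℝ, ‖LL gk lam ((ϱ : ℂ) + ((t + v : ℝ) : ℂ) * I)‖ ≤
      B * Real.exp (N + C * v ^ 2)) :
    ∃ v : ℝ, |v| ≤ s ∧ B / 2 ≤ ‖LL gk lam ((ϱ : ℂ) + ((t + v : ℝ) : ℂ) * I)‖ := by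
  by_contra hcon
  push Not at hcon
  have hS := sqrt_pos' hlam
  set G : ℝ → ℝ := fun v => B * (1 / 2 * Real.exp (-v ^ 2 / (4 * lam)) +
    (Real.exp (-3) + Real.exp (-3)) * Real.exp (-v ^ 2 / (16 * lam))) with hG
  have i1 : Integrable (fun v : ℝ => Real.exp (-v ^ 2 / (4 * lam))) :=
    ga_integrable (k := 4 * lam) (by positivity)
  have i2 : Integrable (fun v : ℝ => Real.exp (-v ^ 2 / (16 * lam))) :=
    ga_integrable (k := 16 * lam) (by positivity)
  have v1 : ∫ v : ℝ, Real.exp (-v ^ 2 / (4 * lam)) = Real.sqrt (Real.pi * (4 * lam)) :=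
    ga_integral (k := 4 * lam) (by positivity)
  have v2 : ∫ v : ℝ, Real.exp (-v ^ 2 / (16 * lam)) = 2 * Real.sqrt (Real.pi * (4 * lam)) := by
    have h := ga_integral (k := 16 * lam) (by positivity)
    unfold ga at h
    rw [h, show Real.pi * (16 * lam) = 2 ^ 2 * (Real.pi * (4 * lam)) by ring,
      Real.sqrt_mul (by norm_num), Real.sqrt_sq (by norm_num)]
  have iG : Integrable G := ((i1.const_mul _).add (i2.const_mul _)).const_mul _
  have vG : ∫ v : ℝ, G v = B * ((1 / 2 + 4 * Real.exp (-3)) * Real.sqrt (Real.pi * (4 * lam))) := by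
    rw [hG, integral_const_mul, integral_add (i1.const_mul _) (i2.const_mul _),
      integral_const_mul, integral_const_mul, v1, v2]
    ring
  have hle : ∀ v : ℝ, ‖LL gk lam ((ϱ : ℂ) + ((t + v : ℝ) : ℂ) * I)‖ *
      Real.exp (-v ^ 2 / (4 * lam)) ≤ G v := by
    intro v
    have p1 := Real.exp_pos (-v ^ 2 / (4 * lam))
    have p2 := Real.exp_pos (-v ^ 2 / (16 * lam))
    have p3 := Real.exp_pos (-3)
    have hlam' : lam ≠ 0 := hlam.ne'
    have hv0 := abs_nonneg v
    have hvs : |v| ^ 2 = v ^ 2 := sq_abs v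
    rcases le_or_gt |v| s with hv | hv
    · have h3 := (hcon v hv).le
      have h4 := mul_le_mul_of_nonneg_right h3 p1.le
      refine h4.trans ?_
      rw [hG]
      have : 0 ≤ B * ((Real.exp (-3) + Real.exp (-3)) * Real.exp (-v ^ 2 / (16 * lam))) := by
        positivity
      simp only
      nlinarith
    · rcases le_or_gt |v| 3 with hv3 | hv3
      · have h3 := mul_le_mul_of_nonneg_right (hnear v hv3) p1.le
        refine h3.trans ?_
        rw [mul_assoc, ← Real.exp_add]
        have h4 : E + 3 * τ * |v| + -v ^ 2 / (4 * lam) ≤ -3 + -v ^ 2 / (16 * lam) := by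
          have a1 : 3 * τ * |v| ≤ v ^ 2 / (8 * lam) := by
            rw [le_div_iff₀ (by positivity), ← hvs]
            nlinarith
          have a2 : s ^ 2 / (16 * lam) ≤ v ^ 2 / (16 * lam) := by
            apply div_le_div_of_nonneg_right _ (by positivity)
            rw [← hvs]
            exact pow_le_pow_left₀ hs0 hv.le 2
          have a3 : -v ^ 2 / (4 * lam) = -(v ^ 2 / (8 * lam)) - v ^ 2 / (16 * lam) -
              v ^ 2 / (16 * lam) := by
            field_simp
            ring
          have a4 : -v ^ 2 / (16 * lam) = -(v ^ 2 / (16 * lam)) := by ring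
          rw [a3, a4]
          linarith
        have h5 := Real.exp_le_exp.mpr h4
        rw [Real.exp_add (-3)] at h5
        have h6 := mul_le_mul_of_nonneg_left h5 hB.le
        refine h6.trans ?_
        rw [hG]
        simp only
        have q1 : 0 ≤ B * (1 / 2 * Real.exp (-v ^ 2 / (4 * lam))) := by positivity
        have q2 : 0 ≤ B * (Real.exp (-3) * Real.exp (-v ^ 2 / (16 * lam))) := by positivity
        nlinarith
      · have h3 := mul_le_mul_of_nonneg_right (hfar v) p1.le
        refine h3.trans ?_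
        rw [mul_assoc, ← Real.exp_add]
        have h4 : N + C * v ^ 2 + -v ^ 2 / (4 * lam) ≤ -3 + -v ^ 2 / (16 * lam) := by
          have a1 : C * v ^ 2 ≤ v ^ 2 / (8 * lam) := by
            rw [le_div_iff₀ (by positivity)]
            nlinarith [sq_nonneg v]
          have a2 : 9 / (16 * lam) ≤ v ^ 2 / (16 * lam) := by
            apply div_le_div_of_nonneg_right _ (by positivity)
            rw [← hvs]
            nlinarith
          have a3 : -v ^ 2 / (4 * lam) = -(v ^ 2 / (8 * lam)) - v ^ 2 / (16 * lam) -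
              v ^ 2 / (16 * lam) := by
            field_simp
            ring
          have a4 : -v ^ 2 / (16 * lam) = -(v ^ 2 / (16 * lam)) := by ring
          rw [a3, a4]
          linarith
        have h5 := Real.exp_le_exp.mpr h4
        rw [Real.exp_add (-3)] at h5
        have h6 := mul_le_mul_of_nonneg_left h5 hB.le
        refine h6.trans ?_
        rw [hG]
        simp only
        have q1 : 0 ≤ B * (1 / 2 * Real.exp (-v ^ 2 / (4 * lam))) := by positivity
        have q2 : 0 ≤ B * (Real.exp (-3) * Real.exp (-v ^ 2 / (16 * lam))) := by positivity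
        nlinarith
  have h3 : ∫ v : ℝ, ‖LL gk lam ((ϱ : ℂ) + ((t + v : ℝ) : ℂ) * I)‖ *
      Real.exp (-v ^ 2 / (4 * lam)) ≤ ∫ v : ℝ, G v :=
    integral_mono_of_nonneg (Eventually.of_forall fun v => by positivity) iG
      (Eventually.of_forall hle)
  rw [vG] at h3
  have h4 := exp_neg_log16
  have h5 : B * ((1 / 2 + 4 * Real.exp (-3)) * Real.sqrt (Real.pi * (4 * lam))) ≤
      B * ((3 / 4) * Real.sqrt (Real.pi * (4 * lam))) := by
    apply mul_le_mul_of_nonneg_left _ hB.le
    apply mul_le_mul_of_nonneg_right _ hS.le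
    linarith
  have h6 : 0 < Real.sqrt (Real.pi * (4 * lam)) * B := by positivity
  nlinarith

end Pool.Agent.H466.HP
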