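import Pool.Agent.H466.HP.H3

/-!
# Zeros on a short segment near a regular point
-/

set_option autoImplicit false

open Complex MeasureTheory Filter Topology Set
open scoped ComplexConjugate

namespace Pool.Agent.H466.HP

open Pool.Agent.H466.HF Pool.Agent.H466.LD
open Pool.Agent.H862.VK (Yz)

/-- zeros of the heat flow on the segment of half length `R0`, if there is a point of the expected
size at distance `≤ R0` -/
theorem segz {t ℓ τ E Γ K A lam R0 E1 : ℝ} {w0 : ℂ} (U : UB t ℓ τ E Γ K) (k : Kern gk A 1)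
    (hlam : 0 < lam) (hs : 32 * K * lam ≤ 1) (hR0 : 0 < R0) (hR1 : 13 * R0 ≤ 1) (hE10 : 0 ≤ E1)
    (hE1 : E + τ * (13 * R0) + (lam * (ℓ + τ) ^ 2 - lam * ℓ ^ 2) +
      16 * (2 * K) * (lam * (ℓ + τ)) ^ 2 + 4 * K + (13 * R0) ^ 2 / (4 * lam) + 2 ≤ E1)
    (hw : 0 ≤ w0.re) (hw0 : ‖w0‖ ≤ R0) (hgap : E1 + 2 ≤ 2 * ℓ * w0.re)
    (hlow : Γ * Real.exp (lam * ℓ ^ 2) * Real.exp (ℓ * w0.re) / 2 ≤
      ‖LL gk lam ((t : ℂ) * I + w0)‖) :
    ∃ S : Finset ℝ, (∀ y ∈ S, t - R0 < y ∧ y < t + R0 ∧ LL gk lam ((y : ℂ) * I) = 0) ∧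
      2 * ℓ * R0 / Real.pi - 4 * (E1 + 2) - 3 ≤ (S.card : ℝ) := by
  have hΓ := U.Γpos
  have hK := U.K0
  have hℓ := U.ℓ0
  have hτ := U.τ0
  set Γ1 : ℝ := Γ * Real.exp (lam * ℓ ^ 2) with hΓ1
  have hΓ1p : 0 < Γ1 := by positivity
  have G : Gr (LL gk 0) t (ℓ + τ) (Γ * Real.exp E) (2 * K) lam := by
    refine ⟨(k.differentiable 0).continuous, by positivity, by positivity, by positivity, hlam,
      by linarith, fun v hv => ?_⟩
    have h1 := U.up v 0 hv (by simp)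
    rw [add_zero, abs_zero, mul_zero, add_zero] at h1
    refine h1.trans (le_of_eq ?_)
    rw [mul_assoc Γ, ← Real.exp_add]
    congr 2
    ring
  have hAd : Differentiable ℂ (AA (LL gk 0) t lam) := G.diff
  have hA : ∀ w : ℂ, ‖w‖ ≤ 13 * R0 → ‖AA (LL gk 0) t lam w‖ ≤ Γ1 * Real.exp (ℓ * w.re + E1) := by
    intro w hw
    refine (G.norm_le w).trans ?_
    rw [hΓ1, mul_assoc Γ, mul_assoc Γ, ← Real.exp_add, ← Real.exp_add]
    apply mul_le_mul_of_nonneg_left _ hΓ.le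
    apply Real.exp_le_exp.mpr
    have h0 := (abs_re_le_norm w).trans hw
    have h1 : w.re ^ 2 ≤ 1 := by
      have h3 : |w.re| ≤ 1 := by linarith
      rw [← sq_abs]
      nlinarith [abs_nonneg w.re]
    have h2 : τ * w.re ≤ τ * (13 * R0) :=
      mul_le_mul_of_nonneg_left ((le_abs_self _).trans h0) hτ
    have h3 : w.im ^ 2 / (4 * lam) ≤ (13 * R0) ^ 2 / (4 * lam) := by
      apply div_le_div_of_nonneg_right _ (by positivity)
      have h4 := (abs_im_le_norm w).trans hw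
      exact sq_le_sq' (by linarith [(abs_le.mp h4).1]) (abs_le.mp h4).2
    have h4 : 2 * (2 * K) * w.re ^ 2 ≤ 4 * K := by nlinarith
    nlinarith
  have hAw0 : Γ1 * Real.exp (ℓ * w0.re) / 4 ≤ ‖AA (LL gk 0) t lam w0‖ := by
    have h1 := split k G LL_gk_fe w0
    have h2 : ‖AA (LL gk 0) t lam (-conj w0)‖ ≤ Γ1 * Real.exp (ℓ * w0.re) / 4 := by
      have h3 := hA (-conj w0) (by rw [norm_neg, RCLike.norm_conj]; linarith)
      have e1 : (-conj w0).re = -w0.re := by simp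
      rw [e1] at h3
      refine h3.trans ?_
      have h4 : ℓ * -w0.re + E1 ≤ -2 + ℓ * w0.re := by linarith
      have h5 : Real.exp (-2) ≤ 1 / 4 := by
        have h6 : (2 : ℝ) ≤ Real.exp 1 := by linarith [Real.add_one_le_exp (1 : ℝ)]
        have h7 : Real.exp 2 = Real.exp 1 * Real.exp 1 := by rw [← Real.exp_add]; norm_num
        rw [Real.exp_neg, inv_eq_one_div]
        apply one_div_le_one_div_of_le (by norm_num)
        rw [h7]
        nlinarith
      calc Γ1 * Real.exp (ℓ * -w0.re + E1) ≤ Γ1 * Real.exp (-2 + ℓ * w0.re) := by gcongr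
        _ = Γ1 * (Real.exp (-2) * Real.exp (ℓ * w0.re)) := by rw [Real.exp_add]
        _ ≤ Γ1 * (1 / 4 * Real.exp (ℓ * w0.re)) := by gcongr
        _ = _ := by ring
    have h3 : ‖LL gk lam ((t : ℂ) * I + w0)‖ ≤ ‖AA (LL gk 0) t lam w0‖ +
        ‖AA (LL gk 0) t lam (-conj w0)‖ := by
      rw [h1]
      refine (norm_add_le _ _).trans ?_
      rw [RCLike.norm_conj]
    linarith
  obtain ⟨S, hS1, hS2⟩ := line_zeros (B := nf (AA (LL gk 0) t lam) ℓ Γ1) (nf_diff hAd ℓ Γ1)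
    (ℒ := ℓ) (r := R0) (E1 := E1) (E2 := 2) (w0 := w0) hR0 hw0 (by linarith)
    (by
      intro w hw
      rw [norm_nf _ _ hΓ1p, div_mul_eq_mul_div, div_le_iff₀ hΓ1p]
      have h1 := mul_le_mul_of_nonneg_right (hA w hw) (Real.exp_pos (-(ℓ * w.re))).le
      refine h1.trans (le_of_eq ?_)
      rw [mul_assoc, ← Real.exp_add, mul_comm]
      congr 2
      ring)
    (by
      rw [norm_nf _ _ hΓ1p, div_mul_eq_mul_div, le_div_iff₀ hΓ1p]
      have h5 : Real.exp (-2) ≤ 1 / 4 := by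
        have h6 : (2 : ℝ) ≤ Real.exp 1 := by linarith [Real.add_one_le_exp (1 : ℝ)]
        have h7 : Real.exp 2 = Real.exp 1 * Real.exp 1 := by rw [← Real.exp_add]; norm_num
        rw [Real.exp_neg, inv_eq_one_div]
        apply one_div_le_one_div_of_le (by norm_num)
        rw [h7]
        nlinarith
      have h1 := mul_le_mul_of_nonneg_right hAw0 (Real.exp_pos (-(ℓ * w0.re))).le
      have e : Γ1 * Real.exp (ℓ * w0.re) / 4 * Real.exp (-(ℓ * w0.re)) = Γ1 / 4 := by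
        have : Real.exp (ℓ * w0.re) * Real.exp (-(ℓ * w0.re)) = 1 := by
          rw [← Real.exp_add, add_neg_cancel, Real.exp_zero]
        linear_combination (Γ1 / 4) * this
      rw [e] at h1
      refine le_trans ?_ h1
      have := mul_le_mul_of_nonneg_right h5 hΓ1p.le
      linarith)
  refine ⟨S.image (fun y => t + y), ?_, ?_⟩
  · intro y hy
    rw [Finset.mem_image] at hy
    obtain ⟨x, hx, rfl⟩ := hy
    obtain ⟨h1, h2, h3⟩ := hS1 x hx
    refine ⟨by linarith, by linarith, ?_⟩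
    have h4 := split k G LL_gk_fe ((x : ℂ) * I)
    have e1 : -conj ((x : ℂ) * I) = (x : ℂ) * I := by
      rw [map_mul, conj_ofReal, conj_I]
      ring
    have e2 : (t : ℂ) * I + (x : ℂ) * I = ((t + x : ℝ) : ℂ) * I := by push_cast; ring
    rw [e1, e2, Complex.add_conj] at h4
    have h5 : nf (AA (LL gk 0) t lam) ℓ Γ1 ((x : ℂ) * I) * cexp ((ℓ : ℂ) * ((x : ℂ) * I)) =
        ((1 / Γ1 : ℝ) : ℂ) * AA (LL gk 0) t lam ((x : ℂ) * I) := by
      unfold nf
      have : cexp (-(ℓ : ℂ) * ((x : ℂ) * I)) * cexp ((ℓ : ℂ) * ((x : ℂ) * I)) = 1 := by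
        rw [← Complex.exp_add]
        have : -(ℓ : ℂ) * ((x : ℂ) * I) + (ℓ : ℂ) * ((x : ℂ) * I) = 0 := by ring
        rw [this, Complex.exp_zero]
      linear_combination (((1 / Γ1 : ℝ) : ℂ) * AA (LL gk 0) t lam ((x : ℂ) * I)) * this
    rw [h5, re_ofReal_mul] at h3
    have h6 : (AA (LL gk 0) t lam ((x : ℂ) * I)).re = 0 := by
      rcases mul_eq_zero.mp h3 with h7 | h7
      · exact absurd h7 (by positivity)
      · exact h7
    rw [h4, h6]
    simp
  · rw [Finset.card_image_of_injective _ (add_right_injective t)]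
    exact hS2

end Pool.Agent.H466.HP
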