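import Pool.Agent.H466.HP.H4

/-!
# The local theorem at a regular point
-/

set_option autoImplicit false

open Complex MeasureTheory Filter Topology Set
open scoped ComplexConjugate

namespace Pool.Agent.H466.HP

open Pool.Agent.H466.HF Pool.Agent.H466.LD
open Pool.Agent.H862.VK (Yz)

/-- lower bound for the value at the base point -/
lemma base_low {T t A1 M κ X1 Γt K μ0 : ℝ} (hT : 10 ≤ T) (hA1 : 0 < A1)
    (hy0 : A1 / Real.log T ≤ 1) (hM : 1 ≤ M) (hκ0 : 0 < κ)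
    (R : Rg T t A1 M κ) (D : Far t (Real.log T / 2) Γt K μ0) (hX1 : A1 / Real.log T ≤ X1)
    (hX1' : X1 ≤ 3) :
    Γt * Real.exp (-(10 * K + 3 * (κ * Real.log T))) ≤
      ‖LL gk 0 ((X1 : ℂ) + (t : ℂ) * I)‖ * Real.exp (-(Real.log T / 2 * X1)) := by
  set L := Real.log T with hL
  have hLp : 0 < L := by rw [hL]; exact Real.log_pos (by linarith)
  have hy0p : 0 < A1 / L := by positivity
  have h1 := D.low ((3 : ℝ) + (t : ℂ) * I) (by simp)
  have e1 : (((3 : ℝ) : ℂ) + (t : ℂ) * I).re = 3 := by simp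
  have e2 : (((3 : ℝ) : ℂ) + (t : ℂ) * I).im = t := by simp
  rw [e1, e2, sub_self] at h1
  have s1 : ∀ u ∈ uIcc X1 3, Yz ((u : ℂ) + (t : ℂ) * I) ≠ 0 ∧
      ‖P ((u : ℂ) + (t : ℂ) * I) - ((L / 2 : ℝ) : ℂ)‖ ≤ κ * L := by
    intro u hu
    rw [uIcc_of_le hX1'] at hu
    have hu1 : A1 / L ≤ u := hX1.trans hu.1
    have hu2 : u ≤ 4 := by linarith [hu.2]
    have hmem : (u : ℂ) + (t : ℂ) * I ∈ Kt t (A1 / L) 4 M := by
      refine ⟨by simpa using hu1, by simpa using hu2, ?_⟩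
      simp
      have h0 : 0 ≤ u := by linarith
      positivity
    exact ⟨cone_ne hy0p hM R.cf hmem, R.pb _ hmem⟩
  have h2 := hor s1
  have h3 := h1.trans h2
  have a1 : |3 - X1| ≤ 3 := by
    rw [abs_of_nonneg (by linarith)]
    linarith
  have hX0 : 0 < X1 := by linarith
  have hΓ := D.Γpos
  have h4 : Γt * Real.exp (L / 2 * 3 - K * (1 + 3 ^ 2 + 0 ^ 2)) ≤
      ‖LL gk 0 ((X1 : ℂ) + (t : ℂ) * I)‖ * Real.exp (L / 2 * (3 - X1) + 3 * (κ * L)) := by
    refine h3.trans (mul_le_mul_of_nonneg_left (Real.exp_le_exp.mpr ?_) (norm_nonneg _))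
    have : κ * L * |3 - X1| ≤ κ * L * 3 := mul_le_mul_of_nonneg_left a1 (by positivity)
    linarith
  have h5 := mul_le_mul_of_nonneg_right h4 (Real.exp_pos (-(L / 2 * 3) - 3 * (κ * L))).le
  rw [mul_assoc, mul_assoc, ← Real.exp_add, ← Real.exp_add] at h5
  have e3 : L / 2 * 3 - K * (1 + 3 ^ 2 + 0 ^ 2) + (-(L / 2 * 3) - 3 * (κ * L)) =
      -(10 * K + 3 * (κ * L)) := by ring
  have e4 : L / 2 * (3 - X1) + 3 * (κ * L) + (-(L / 2 * 3) - 3 * (κ * L)) = -(L / 2 * X1) := by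
    ring
  rw [e3, e4] at h5
  exact h5

/-- **the local theorem at regular points** -/
theorem lt1 (hmono : S_MONO) : ∃ δ1 : ℝ, 0 < δ1 ∧ δ1 ≤ 1 / 2 ∧ ∀ ε : ℝ, 0 < ε → ε ≤ 1 →
    ∃ r κ M : ℝ, 0 < r ∧ r ≤ 1 / 1100 ∧ 0 < κ ∧ 1 ≤ M ∧ ∀ A1 : ℝ, 1 ≤ A1 →
    ∃ A0 T0 : ℝ, 0 < A0 ∧ 10 ≤ T0 ∧ ∀ T t lam : ℝ, T0 ≤ T → T ≤ t → t ≤ 2 * T →
      Rg T t A1 M κ → 0 < lam → A0 ≤ lam * Real.log T ^ 2 → lam * Real.log T ≤ δ1 →
      (∃ w0 : ℂ, ‖w0‖ ≤ ε ∧ ‖gz ((t : ℂ) * I)‖ *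
        Real.exp (lam * (Real.log T / 2) ^ 2 - ε * Real.log T) ≤
          ‖LL gk lam ((t : ℂ) * I + w0)‖) ∧
      ∃ S : Finset ℝ, (∀ y ∈ S, t - r * (lam * Real.log T) < y ∧ y < t + r * (lam * Real.log T) ∧
        LL gk lam ((y : ℂ) * I) = 0) ∧
        (1 - ε) * (r * (lam * Real.log T ^ 2) / Real.pi) ≤ (S.card : ℝ) := by
  obtain ⟨A, K, μ0, Q, T00, hK46, hμ0, hT00, k, hdata⟩ := far_data
  have hK0 : 0 < K := by linarith
  set δ1 : ℝ := min (1 / 2) (9 / (16 * (4 + μ0))) with hδ1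
  have hδ1p : 0 < δ1 := lt_min (by norm_num) (by positivity)
  have hδ1a : δ1 ≤ 1 / 2 := min_le_left _ _
  have hδ1b : δ1 ≤ 9 / (16 * (4 + μ0)) := min_le_right _ _
  refine ⟨δ1, hδ1p, hδ1a, ?_⟩
  intro ε hε hε1
  set r : ℝ := ε / 1100 with hr
  have hr0 : 0 < r := by positivity
  have hr1 : r ≤ 1 / 1100 := by rw [hr]; linarith
  set κ : ℝ := r ^ 2 / 4000 with hκ
  have hκ0 : 0 < κ := by positivity
  have hκr : κ ≤ r / 4000 := by
    rw [hκ]
    apply div_le_div_of_nonneg_right _ (by norm_num)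
    nlinarith
  have hκ1 : κ ≤ 1 := by linarith
  refine ⟨r, κ, 1 / κ, hr0, hr1, hκ0, by rw [le_div_iff₀ hκ0]; linarith, ?_⟩
  intro A1 hA1
  set B0 : ℝ := 2 * A1 + 36 * K + 20 with hB0
  have hB0p : 0 < B0 := by positivity
  refine ⟨max A1 (1000 * B0 / r ^ 2), max T00 (Real.exp (A1 + 24 * K + 8 + (20 * K + 10) / ε)),
    lt_of_lt_of_le (by linarith) (le_max_left _ _), hT00.trans (le_max_left _ _), ?_⟩
  intro T t lam hT htT ht2 R hlam hA hδ
  have hTT : T00 ≤ T := (le_max_left _ _).trans hT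
  have hTe : Real.exp (A1 + 24 * K + 8 + (20 * K + 10) / ε) ≤ T := (le_max_right _ _).trans hT
  have hT10 : 10 ≤ T := hT00.trans hTT
  set L := Real.log T with hL
  have hLbig : A1 + 24 * K + 8 + (20 * K + 10) / ε ≤ L := by
    rw [hL, Real.le_log_iff_exp_le (by linarith)]
    exact hTe
  have hq0 : 0 ≤ (20 * K + 10) / ε := by positivity
  have hL1 : A1 ≤ L := by linarith
  have hL2 : 24 * K + 8 ≤ L := by linarith
  have hL3 : 20 * K + 10 ≤ ε * L := by
    have : (20 * K + 10) / ε ≤ L := by linarith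
    rw [div_le_iff₀ hε] at this
    linarith
  have hLp : 0 < L := by linarith
  have hAA1 : A1 ≤ lam * L ^ 2 := (le_max_left _ _).trans hA
  have hAr : 1000 * B0 ≤ r ^ 2 * (lam * L ^ 2) := by
    have := (le_max_right A1 (1000 * B0 / r ^ 2)).trans hA
    rw [div_le_iff₀ (by positivity)] at this
    linarith
  obtain ⟨C, D⟩ := hdata T t hTT htT ht2
  -- notation
  obtain ⟨Δ, hΔ⟩ : ∃ Δ : ℝ, Δ = lam * L := ⟨_, rfl⟩
  obtain ⟨a, ha⟩ : ∃ a : ℝ, a = lam * L ^ 2 := ⟨_, rfl⟩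
  have hΔL : Δ * L = a := by rw [hΔ, ha]; ring
  have hΔp : 0 < Δ := by rw [hΔ]; positivity
  have hap : 0 < a := by rw [ha]; positivity
  have hΔ1 : Δ ≤ δ1 := by rw [hΔ]; exact hδ
  have hΔ2 : Δ ≤ 1 / 2 := hΔ1.trans hδ1a
  rw [← ha] at hAr hAA1
  rw [← hΔ, ← ha]
  set ϱ : ℝ := r * Δ / 2 with hϱ
  have hϱp : 0 < ϱ := by positivity
  have hrΔ2 : r * Δ ≤ 1 / 1100 * Δ := mul_le_mul_of_nonneg_right hr1 hΔp.le
  have hrΔ : r * Δ ≤ Δ := by linarith
  have hϱΔ : ϱ ≤ Δ := by rw [hϱ]; linarith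
  set X1 : ℝ := Δ + ϱ with hX1
  have hy0X : A1 / L ≤ X1 := by
    rw [div_le_iff₀ hLp, hX1]
    have h1 := mul_pos hϱp hLp
    have e : (Δ + ϱ) * L = Δ * L + ϱ * L := by ring
    rw [e, hΔL]
    linarith
  have hy01 : A1 / L ≤ 1 := by rw [div_le_one hLp]; exact hL1
  have hX12 : X1 ≤ 2 * Δ := by linarith
  have hX11 : X1 ≤ 1 := by linarith
  set Γt := ‖gz ((t : ℂ) * I)‖ with hΓt
  set Γ : ℝ := ‖LL gk 0 ((X1 : ℂ) + (t : ℂ) * I)‖ * Real.exp (-(L / 2 * X1)) with hΓ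
  have hΓlow := base_low (X1 := X1) hT10 (by linarith) hy01 (M := 1 / κ)
    (by rw [le_div_iff₀ hκ0]; linarith) hκ0 R D hy0X (by linarith)
  rw [← hΓ, ← hL] at hΓlow
  have hΓtp : 0 < Γt := D.Γpos
  have hΓp : 0 < Γ := lt_of_lt_of_le (by positivity) hΓlow
  have hbase : ‖LL gk 0 ((X1 : ℂ) + (t : ℂ) * I)‖ = Γ * Real.exp (L / 2 * X1) := by
    rw [hΓ, mul_assoc, ← Real.exp_add, neg_add_cancel, Real.exp_zero, mul_one]
  obtain ⟨τ, hτ⟩ : ∃ τ : ℝ, τ = κ * L := ⟨_, rfl⟩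
  have hτp : 0 < τ := by rw [hτ]; positivity
  have hτΔ : τ * Δ = κ * a := by rw [hτ, ← hΔL]; ring
  set E : ℝ := τ * X1 + 2 * A1 with hE
  have U : UB t (L / 2) τ E Γ K := by
    refine ⟨hΓp, by positivity, hτp.le, hK0.le, fun x v hx hv => ?_⟩
    have h1 := ustar hmono (X1 := X1) hT10 (by linarith) hy01 (M := 1 / κ)
      (by rw [le_div_iff₀ hκ0]; linarith) hκ0 hκ1 (by rw [mul_one_div, div_self hκ0.ne']) R D hy0X
      (by linarith) hx hv
    rw [← hL, ← hτ, hbase, mul_assoc, ← Real.exp_add] at h1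
    refine h1.trans (le_of_eq ?_)
    congr 2
    rw [hE, hτ]
    ring
  -- numerical facts
  have hκa : κ * a = r ^ 2 * a / 4000 := by rw [hκ]; ring
  have n0 : B0 ≤ r ^ 2 * a / 1000 := by linarith
  have nτϱ : τ * ϱ ≤ κ * a := by rw [← hτΔ]; exact mul_le_mul_of_nonneg_left hϱΔ hτp.le
  have nτX : τ * X1 ≤ 2 * (κ * a) := by
    rw [← hτΔ]
    have := mul_le_mul_of_nonneg_left hX12 hτp.le
    linarith
  have hlamΔ : lam * (L / 2 + τ) ≤ 1 := by
    have e : lam * (L / 2 + τ) = Δ * (1 / 2 + κ) := by rw [hτ, hΔ]; ring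
    rw [e]
    have h1 : Δ * (1 / 2 + κ) ≤ 1 / 2 * (1 / 2 + κ) := by gcongr
    linarith
  have hlamΔ0 : 0 ≤ lam * (L / 2 + τ) := by positivity
  have nsq : (lam * (L / 2 + τ)) ^ 2 ≤ 1 := pow_le_one₀ hlamΔ0 hlamΔ
  have nquad : lam * (L / 2 + τ) ^ 2 - lam * (L / 2) ^ 2 ≤ 2 * (κ * a) := by
    have e : lam * (L / 2 + τ) ^ 2 - lam * (L / 2) ^ 2 = κ * a + κ * (κ * a) := by
      rw [hτ, ha]; ring
    rw [e]
    have : κ * (κ * a) ≤ 1 * (κ * a) := mul_le_mul_of_nonneg_right hκ1 (by positivity)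
    linarith
  have hlam2 : lam * L ≤ 1 / 2 := by rw [← hΔ]; exact hΔ2
  have h32 : 32 * K * lam ≤ 1 := by
    have h1 : 32 * K * lam * L ≤ 1 * L := by
      have e : 32 * K * lam * L = 32 * K * (lam * L) := by ring
      have h2 := mul_le_mul_of_nonneg_left hlam2 (show 0 ≤ 32 * K by positivity)
      rw [e]
      linarith
    exact le_of_mul_le_mul_right h1 hLp
  set C0 : ℝ := 6 * K + 2 with hC0
  have h8C : 8 * C0 * lam ≤ 1 := by
    have h1 : 8 * C0 * lam * L ≤ 1 * L := by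
      have e : 8 * C0 * lam * L = 8 * C0 * (lam * L) := by ring
      have h2 := mul_le_mul_of_nonneg_left hlam2 (show 0 ≤ 8 * C0 by positivity)
      rw [e]
      rw [hC0] at h2 ⊢
      linarith
    exact le_of_mul_le_mul_right h1 hLp
  set Bb : ℝ := Γ * Real.exp (lam * (L / 2) ^ 2) * Real.exp (L / 2 * ϱ) with hBb
  have hBbp : 0 < Bb := by positivity
  set Eb : ℝ := 5 * (κ * a) + 2 * A1 + 36 * K + 2 with hEb
  set N : ℝ := 10 * K + 3 * τ + L / 2 * μ0 + 2 * C0 with hN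
  have hϱ1 : ϱ ≤ 1 := by linarith
  have hϱsq : ϱ ^ 2 ≤ 1 := pow_le_one₀ hϱp.le hϱ1
  -- the big point
  obtain ⟨v0, hv0, hv0'⟩ := bigpt (t := t) (ϱ := ϱ) (B := Bb) (τ := τ) (E := Eb) (N := N) (C := C0)
    (s := r * Δ / 4) k hlam hBbp hτp.le (by positivity) (by positivity)
    (by
      have e : 24 * τ * lam = 24 * κ * Δ := by rw [hτ, hΔ]; ring
      rw [e]
      have : 24 * κ * Δ ≤ 24 * (r / 4000) * Δ := by gcongr
      have h2 : 0 < r * Δ := by positivity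
      linarith)
    h8C
    (by
      have e : (r * Δ / 4) ^ 2 / (16 * lam) = r ^ 2 * a / 256 := by
        rw [hΔ, ha]
        field_simp
        ring
      rw [e, hEb, hκa]
      have h2 : 0 < r ^ 2 * a := by positivity
      rw [hB0] at n0
      linarith)
    (by
      have h1 : (4 + μ0) * L ≤ 9 / (16 * lam) := by
        rw [le_div_iff₀ (by positivity)]
        rw [le_div_iff₀ (by positivity)] at hδ1b
        have h2 : lam * L * (16 * (4 + μ0)) ≤ 9 := by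
          refine le_trans ?_ hδ1b
          apply mul_le_mul_of_nonneg_right _ (by positivity)
          rw [← hΔ]
          exact hΔ1
        linarith
      refine le_trans ?_ h1
      rw [hN, hC0, hτ]
      have h3 : κ * L ≤ 1 * L := mul_le_mul_of_nonneg_right hκ1 hLp.le
      have h4 : 0 ≤ L * μ0 := by positivity
      linarith)
    (by
      have h1 := bshift k hlam ((ϱ : ℂ) + (t : ℂ) * I) (lam * L)
      have e1 : (ϱ : ℂ) + (t : ℂ) * I + ((lam * L : ℝ) : ℂ) = (X1 : ℂ) + (t : ℂ) * I := by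
        rw [hX1, hΔ]
        push_cast
        ring
      rw [e1, hbase] at h1
      have e2 : ∀ v : ℝ, (ϱ : ℂ) + (t : ℂ) * I + (v : ℂ) * I =
          (ϱ : ℂ) + ((t + v : ℝ) : ℂ) * I := fun v => by push_cast; ring
      simp only [e2] at h1
      refine le_trans (le_of_eq ?_) h1
      rw [hBb]
      have e3 : Real.exp (-((lam * L) ^ 2 / (4 * lam))) * Real.exp (L / 2 * X1) =
          Real.exp (lam * (L / 2) ^ 2) * Real.exp (L / 2 * ϱ) := by
        rw [← Real.exp_add, ← Real.exp_add]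
        congr 1
        rw [hX1, hΔ]
        field_simp
        ring
      linear_combination (-(Real.sqrt (Real.pi * (4 * lam)) * Γ)) * e3)
    (by
      intro v hv
      have h1 := U.heat k hlam h32 ϱ v hv
      refine h1.trans ?_
      rw [hBb, mul_assoc Γ, mul_assoc Γ, ← Real.exp_add, ← Real.exp_add]
      apply mul_le_mul_of_nonneg_left _ hΓp.le
      apply Real.exp_le_exp.mpr
      rw [abs_of_pos hϱp, hEb, hE]
      have h2 : 4 * K * ϱ ^ 2 ≤ 4 * K * 1 := mul_le_mul_of_nonneg_left hϱsq (by positivity)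
      have h3 : 8 * (4 * K) * (lam * (L / 2 + τ)) ^ 2 ≤ 8 * (4 * K) * 1 :=
        mul_le_mul_of_nonneg_left nsq (by positivity)
      linarith)
    (by
      intro v
      have h1 := Fup k C hlam (δ := 1) (by linarith) (by linarith)
        ((ϱ : ℂ) + ((t + v : ℝ) : ℂ) * I)
      have e1 : ((ϱ : ℂ) + ((t + v : ℝ) : ℂ) * I).re = ϱ := by simp
      have e2 : ((ϱ : ℂ) + ((t + v : ℝ) : ℂ) * I).im - t = v := by simp
      rw [e1, e2, abs_of_pos hϱp] at h1
      have h2 : Γt ≤ Γ * Real.exp (10 * K + 3 * τ) := by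
        have h3 := mul_le_mul_of_nonneg_right hΓlow (Real.exp_pos (10 * K + 3 * τ)).le
        rw [mul_assoc, ← Real.exp_add, hτ, neg_add_cancel, Real.exp_zero, mul_one] at h3
        rw [hτ]
        exact h3
      refine h1.trans ((mul_le_mul_of_nonneg_right h2 (Real.exp_pos _).le).trans ?_)
      rw [hBb, mul_assoc Γ, mul_assoc Γ, mul_assoc Γ, ← Real.exp_add, ← Real.exp_add, ← Real.exp_add]
      apply mul_le_mul_of_nonneg_left _ hΓp.le
      apply Real.exp_le_exp.mpr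
      rw [hN, hC0]
      have h3 : (6 * K + 2) * ϱ ^ 2 ≤ (6 * K + 2) * 1 :=
        mul_le_mul_of_nonneg_left hϱsq (by positivity)
      linarith)
  set w0 : ℂ := (ϱ : ℂ) + (v0 : ℂ) * I with hw0
  have ew : (t : ℂ) * I + w0 = (ϱ : ℂ) + ((t + v0 : ℝ) : ℂ) * I := by rw [hw0]; push_cast; ring
  have hwre : w0.re = ϱ := by rw [hw0]; simp
  have hwn : ‖w0‖ ≤ r * Δ := by
    rw [hw0]
    refine (norm_add_le _ _).trans ?_
    rw [norm_mul, Complex.norm_I, mul_one, Complex.norm_real, Complex.norm_real, Real.norm_eq_abs,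
      Real.norm_eq_abs, abs_of_pos hϱp, hϱ]
    have : 0 < r * Δ := by positivity
    linarith
  have hΓ2 : Γ * Real.exp (lam * (L / 2) ^ 2) * Real.exp (L / 2 * w0.re) / 2 ≤
      ‖LL gk lam ((t : ℂ) * I + w0)‖ := by
    rw [ew, hwre]
    exact hv0'
  have hr2a : 0 < r ^ 2 * a := by positivity
  have hra : 0 < r * a := by positivity
  have hR0p : 0 < r * Δ := by positivity
  refine ⟨⟨w0, hwn.trans ?_, ?_⟩, ?_⟩
  · have : r * Δ ≤ r * 1 := mul_le_mul_of_nonneg_left (by linarith) hr0.le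
    rw [hr] at this ⊢
    linarith
  · refine le_trans ?_ hΓ2
    have h1 : Γt * Real.exp (-(10 * K + 3 * (κ * L))) * Real.exp (lam * (L / 2) ^ 2) * 1 / 2 ≤
        Γ * Real.exp (lam * (L / 2) ^ 2) * Real.exp (L / 2 * w0.re) / 2 := by
      have h2 : (1 : ℝ) ≤ Real.exp (L / 2 * w0.re) := by
        apply Real.one_le_exp
        rw [hwre]
        positivity
      gcongr
    refine le_trans ?_ h1
    have h3 : Real.exp (-1) ≤ 1 / 2 := by
      rw [Real.exp_neg, inv_eq_one_div]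
      apply one_div_le_one_div_of_le (by norm_num)
      linarith [Real.add_one_le_exp (1 : ℝ)]
    have h4 : lam * (L / 2) ^ 2 - ε * L ≤ -(10 * K + 3 * (κ * L)) + lam * (L / 2) ^ 2 + -1 := by
      have h5 : κ * L ≤ ε / 100 * L := by
        apply mul_le_mul_of_nonneg_right _ hLp.le
        rw [hr] at hκr
        linarith
      linarith
    calc Γt * Real.exp (lam * (L / 2) ^ 2 - ε * L)
        ≤ Γt * Real.exp (-(10 * K + 3 * (κ * L)) + lam * (L / 2) ^ 2 + -1) := by gcongr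
      _ = Γt * Real.exp (-(10 * K + 3 * (κ * L))) * Real.exp (lam * (L / 2) ^ 2) *
          Real.exp (-1) := by
          rw [Real.exp_add, Real.exp_add]
          ring
      _ ≤ Γt * Real.exp (-(10 * K + 3 * (κ * L))) * Real.exp (lam * (L / 2) ^ 2) * (1 / 2) := by
          gcongr
      _ = _ := by ring
  · have h43 : E + τ * (13 * (r * Δ)) + (lam * (L / 2 + τ) ^ 2 - lam * (L / 2) ^ 2) +
        16 * (2 * K) * (lam * (L / 2 + τ)) ^ 2 + 4 * K + (13 * (r * Δ)) ^ 2 / (4 * lam) + 2 ≤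
        43 * (r ^ 2 * a) := by
      have h2 : 16 * (2 * K) * (lam * (L / 2 + τ)) ^ 2 ≤ 16 * (2 * K) * 1 :=
        mul_le_mul_of_nonneg_left nsq (by positivity)
      have h3 : (13 * (r * Δ)) ^ 2 / (4 * lam) = 169 / 4 * (r ^ 2 * a) := by
        rw [hΔ, ha]
        field_simp
        ring
      have h4 : τ * (13 * (r * Δ)) ≤ κ * a := by
        rw [← hτΔ]
        apply mul_le_mul_of_nonneg_left _ hτp.le
        linarith
      rw [h3, hE]
      rw [hB0] at n0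
      rw [hκa] at h4 nτX nquad
      linarith
    have hrr : r ^ 2 * a ≤ 1 / 1100 * (r * a) := by
      have : r ^ 2 * a = r * (r * a) := by ring
      rw [this]
      exact mul_le_mul_of_nonneg_right hr1 hra.le
    have hbig : 20000 ≤ r ^ 2 * a := by
      rw [hB0] at n0
      linarith
    obtain ⟨S, hS1, hS2⟩ := segz (R0 := r * Δ) (E1 := 43 * (r ^ 2 * a)) (w0 := w0) U k hlam h32 hR0p
      (by linarith) (by positivity) h43 (by rw [hwre]; exact hϱp.le) hwn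
      (by
        rw [hwre, hϱ]
        have e : 2 * (L / 2) * (r * Δ / 2) = r * a / 2 := by rw [← hΔL]; ring
        rw [e]
        linarith)
      hΓ2
    refine ⟨S, hS1, le_trans ?_ hS2⟩
    have e : 2 * (L / 2) * (r * Δ) / Real.pi = r * a / Real.pi := by rw [← hΔL]; ring
    rw [e]
    have hπ := Real.pi_pos
    have hπ4 := Real.pi_lt_d2
    have h1 : 4 * (43 * (r ^ 2 * a) + 2) + 3 ≤ ε * (r * a / Real.pi) := by
      have h2 : ε * (r * a) * (1 / 4) ≤ ε * (r * a / Real.pi) := by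
        have e : ε * (r * a) * (1 / 4) = ε * (r * a / 4) := by ring
        rw [e]
        apply mul_le_mul_of_nonneg_left _ hε.le
        exact div_le_div_of_nonneg_left hra.le hπ (by linarith)
      refine le_trans ?_ h2
      have h3 : r ^ 2 * a = ε / 1100 * (r * a) := by rw [hr]; ring
      have h4 : 11 ≤ 1 / 1000 * (r ^ 2 * a) := by linarith
      have h5 : 0 < ε * (r * a) := by positivity
      have h6 : 4 * (43 * (r ^ 2 * a) + 2) + 3 ≤ 173 * (r ^ 2 * a) := by linarith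
      rw [h3] at h6
      linarith
    linarith

end Pool.Agent.H466.HP
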