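import Pool.Agent.H466.HP.H5

/-!
# Upper bounds for the number of zeros near a height
-/

set_option autoImplicit false

open Complex MeasureTheory Filter Topology Set
open scoped ComplexConjugate

namespace Pool.Agent.H466.HP

open Pool.Agent.H466.HF Pool.Agent.H466.LD

/-- sums of nonnegative weights over a set of zeros, from Jensen's inequality -/
lemma jen_weight {F : ℂ → ℂ} (hF : Differentiable ℂ F) {C : ℂ} {R B b ℒ : ℝ} (hR : 0 < R)
    (hb : 0 < b) (hℒ : 0 ≤ ℒ) (hup : ∀ z : ℂ, ‖z‖ ≤ R → ‖F (C + z)‖ ≤ B * Real.exp (ℒ * |z.re|))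
    (hlow : b ≤ ‖F C‖) (S : Finset ℂ) (w : ℂ → ℝ) (hS : ∀ u ∈ S, F u = 0)
    (hw : ∀ u ∈ S, ‖u - C‖ ≤ R → w u ≤ Real.log (R / ‖u - C‖))
    (hw' : ∀ u ∈ S, R < ‖u - C‖ → w u ≤ 0) :
    ∑ u ∈ S, (analyticOrderNatAt F u : ℝ) * w u ≤ Real.log (B / b) + 2 * R / Real.pi * ℒ := by
  classical
  obtain ⟨Z, hZ, hJ⟩ := jen_all hF hR hb hℒ hup hlow
  refine le_trans ?_ hJ
  have hne : F C ≠ 0 := by
    rw [← norm_pos_iff]
    exact lt_of_lt_of_le hb hlow
  rw [← Finset.sum_filter_add_sum_filter_not S (fun u => ‖u - C‖ ≤ R)]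
  have h1 : ∑ u ∈ S with ¬ ‖u - C‖ ≤ R, (analyticOrderNatAt F u : ℝ) * w u ≤ 0 := by
    refine Finset.sum_nonpos fun u hu => ?_
    rw [Finset.mem_filter, not_le] at hu
    exact mul_nonpos_of_nonneg_of_nonpos (Nat.cast_nonneg _) (hw' u hu.1 hu.2)
  have h2 : ∑ u ∈ S with ‖u - C‖ ≤ R, (analyticOrderNatAt F u : ℝ) * w u ≤
      ∑ u ∈ S with ‖u - C‖ ≤ R, (analyticOrderNatAt F u : ℝ) * Real.log (R / ‖u - C‖) := by
    refine Finset.sum_le_sum fun u hu => ?_
    rw [Finset.mem_filter] at hu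
    exact mul_le_mul_of_nonneg_left (hw u hu.1 hu.2) (Nat.cast_nonneg _)
  have h3 : ∑ u ∈ S with ‖u - C‖ ≤ R, (analyticOrderNatAt F u : ℝ) * Real.log (R / ‖u - C‖) ≤
      ∑ u ∈ Z, (analyticOrderNatAt F u : ℝ) * Real.log (R / ‖u - C‖) := by
    refine Finset.sum_le_sum_of_subset_of_nonneg (fun u hu => ?_) (fun u hu _ => ?_)
    · rw [Finset.mem_filter] at hu
      exact (hZ u).mpr ⟨hu.2, hS u hu.1⟩
    · have h4 := ((hZ u).mp hu)
      apply mul_nonneg (Nat.cast_nonneg _)
      apply Real.log_nonneg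
      have h5 : 0 < ‖u - C‖ := by
        rw [norm_pos_iff, sub_ne_zero]
        intro h
        rw [h] at h4
        exact hne h4.2
      rw [one_le_div h5]
      exact h4.1
  linarith

/-- **crude count**: `≪ log T` zeros near a height, for all small times -/
theorem crude {δ Y : ℝ} (hδ : 0 < δ) (hY : 0 ≤ Y) : ∃ C T0 : ℝ, 0 < C ∧ 10 ≤ T0 ∧
    ∀ T t lam : ℝ, T0 ≤ T → T ≤ t → t ≤ 2 * T → 0 < lam → lam * Real.log T ≤ δ →
      ∀ S : Finset ℂ, (∀ z ∈ S, LL gk lam z = 0 ∧ |z.re| ≤ 1 / 2 ∧ |z.im - t| ≤ Y) →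
        ∑ z ∈ S, (analyticOrderNatAt (LL gk lam) z : ℝ) ≤ C * Real.log T := by
  obtain ⟨A, K, μ0, Q, T00, hK46, hμ0, hT00, k, hdata⟩ := far_data
  set c0 : ℝ := 5 + μ0 with hc0
  set R : ℝ := Real.exp 1 * (c0 + 1 + Y) with hR
  have he : 1 ≤ Real.exp 1 := Real.one_le_exp (by norm_num)
  have hc0p : 0 < c0 := by positivity
  have hRp : 0 < R := by positivity
  have hRge : c0 + 1 + Y ≤ R := by
    rw [hR]
    have := mul_le_mul_of_nonneg_right he (show 0 ≤ c0 + 1 + Y by positivity)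
    linarith
  obtain ⟨ℒ0, hℒ0, hb⟩ := bounds (K := K) (μ0 := μ0) (δ := δ) (R1 := R + c0) (η := 1) (by linarith)
    hδ one_pos (by positivity)
  refine ⟨(μ0 + 2) / 2 + R, max T00 (Real.exp (2 * ℒ0)), by positivity,
    hT00.trans (le_max_left _ _), ?_⟩
  intro T t lam hT htT ht2 hlam hl S hS
  have hTT : T00 ≤ T := (le_max_left _ _).trans hT
  have hT10 : 10 ≤ T := hT00.trans hTT
  have hTe : Real.exp (2 * ℒ0) ≤ T := (le_max_right _ _).trans hT
  set ℓ := Real.log T / 2 with hℓ
  have hLe : 2 * ℒ0 ≤ Real.log T := by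
    rw [Real.le_log_iff_exp_le (by linarith)]
    exact hTe
  have hℓ0 : ℒ0 ≤ ℓ := by rw [hℓ]; linarith
  have hℓp : 0 < ℓ := by linarith
  obtain ⟨C, -⟩ := hdata T t hTT htT ht2
  rw [← hℓ] at C
  obtain ⟨-, hSz⟩ := hb k C hℓ0 hlam (by rw [hℓ]; linarith)
  set Γ1 := ‖gz ((t : ℂ) * I)‖ * Real.exp (lam * ℓ ^ 2) with hΓ1
  have hΓ1p : 0 < Γ1 := hSz.Γ1pos
  have hFd : Differentiable ℂ (LL gk lam) := k.differentiable lam
  set cc : ℂ := (c0 : ℂ) + (t : ℂ) * I with hcc
  have hcre : cc.re = c0 := by rw [hcc]; simp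
  have hcim : cc.im = t := by rw [hcc]; simp
  have hR1 : 0 ≤ R + c0 := by positivity
  have hlow := hSz.low cc (by rw [hcre, abs_of_pos hc0p]; linarith) (by
    rw [hcim, sub_self, abs_zero]; exact hR1) (by rw [hcre, hc0]; linarith)
  rw [hcre] at hlow
  have h1 := jen_weight hFd (C := cc) (R := R) (B := Γ1 * Real.exp (ℓ * (c0 + μ0 + 1)))
    (b := Γ1 * Real.exp (ℓ * (c0 - 1))) (ℒ := ℓ) hRp (by positivity) hℓp.le (by
      intro z hz
      have hzre := (abs_re_le_norm z).trans hz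
      have hzim := (abs_im_le_norm z).trans hz
      have h2 := hSz.up (cc + z) (by
        rw [add_re, hcre]
        refine (abs_add_le _ _).trans ?_
        rw [abs_of_pos hc0p]
        linarith) (by
        rw [add_im, hcim, add_sub_cancel_left]
        linarith)
      refine h2.trans ?_
      rw [mul_assoc Γ1, ← Real.exp_add]
      apply mul_le_mul_of_nonneg_left _ hΓ1p.le
      apply Real.exp_le_exp.mpr
      have h3 : |(cc + z).re| ≤ c0 + |z.re| := by
        rw [add_re, hcre]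
        refine (abs_add_le _ _).trans ?_
        rw [abs_of_pos hc0p]
      have h4 := mul_le_mul_of_nonneg_left h3 hℓp.le
      nlinarith) hlow S (fun _ => 1) (fun u hu => (hS u hu).1)
    (fun u hu _ => by
      obtain ⟨h2, h3, h4⟩ := hS u hu
      have hne : u ≠ cc := by
        intro h
        rw [h, hcre, abs_of_pos hc0p, hc0] at h3
        linarith
      have h5 : 0 < ‖u - cc‖ := by
        rw [norm_pos_iff, sub_ne_zero]
        exact hne
      have h6 : ‖u - cc‖ ≤ c0 + 1 + Y := by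
        refine (norm_le_abs_re_add_abs_im _).trans ?_
        rw [sub_re, sub_im, hcre, hcim]
        have : |u.re - c0| ≤ |u.re| + |c0| := abs_sub _ _
        rw [abs_of_pos hc0p] at this
        linarith
      rw [Real.le_log_iff_exp_le (by positivity), le_div_iff₀ h5, hR]
      exact mul_le_mul_of_nonneg_left h6 (by positivity))
    (fun u hu h => by
      exfalso
      obtain ⟨h2, h3, h4⟩ := hS u hu
      have h6 : ‖u - cc‖ ≤ c0 + 1 + Y := by
        refine (norm_le_abs_re_add_abs_im _).trans ?_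
        rw [sub_re, sub_im, hcre, hcim]
        have : |u.re - c0| ≤ |u.re| + |c0| := abs_sub _ _
        rw [abs_of_pos hc0p] at this
        linarith
      linarith)
  simp only [mul_one] at h1
  refine h1.trans ?_
  have e1 : Real.log (Γ1 * Real.exp (ℓ * (c0 + μ0 + 1)) / (Γ1 * Real.exp (ℓ * (c0 - 1)))) =
      ℓ * (μ0 + 2) := by
    rw [mul_div_mul_left _ _ hΓ1p.ne', ← Real.exp_sub, Real.log_exp]
    ring
  rw [e1]
  have hπ : (2 : ℝ) ≤ Real.pi := by linarith [Real.pi_gt_three]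
  have h7 : 2 * R / Real.pi * ℓ ≤ R * Real.log T := by
    have h8 : 2 * R / Real.pi ≤ R := by
      rw [div_le_iff₀ Real.pi_pos]
      nlinarith
    have h9 := mul_le_mul_of_nonneg_right h8 hℓp.le
    rw [hℓ] at h9 ⊢
    have h10 : 0 ≤ R * Real.log T := by
      have : 0 < Real.log T := by linarith
      positivity
    linarith
  rw [hℓ] at h7 ⊢
  linarith

/-- **the sharp count** in a window, from a point of the expected size -/
theorem window {R ε δ : ℝ} (hR : 4 ≤ R) (hε : 0 < ε) (hδ : 0 < δ) : ∃ T0 : ℝ, 10 ≤ T0 ∧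
    ∃ η R' : ℝ, 0 < η ∧ 0 < R' ∧
    ∀ T t lam : ℝ, T0 ≤ T → T ≤ t → t ≤ 2 * T → 0 < lam → lam * Real.log T ≤ δ →
      (∀ y : ℝ, |y - t| ≤ R' → ‖riemannZeta (1 / 2 + I * y)‖ ≤ T ^ η) →
      (∃ w0 : ℂ, ‖w0‖ ≤ min ε 1 ∧ ‖gz ((t : ℂ) * I)‖ *
        Real.exp (lam * (Real.log T / 2) ^ 2 - ε * Real.log T) ≤
          ‖LL gk lam ((t : ℂ) * I + w0)‖) →
      ∀ S : Finset ℂ, (∀ z ∈ S, LL gk lam z = 0 ∧ |z.re| ≤ 1 / 2) →
        ∑ z ∈ S, (analyticOrderNatAt (LL gk lam) z : ℝ) * max 0 (Real.log (R / (|z.im - t| + 2))) ≤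
          (R / Real.pi + 4 * ε) * Real.log T := by
  obtain ⟨A, K, μ0, Q, T00, hK46, hμ0, hT00, k, hdata⟩ := far_data
  obtain ⟨R', hR', T1, hT1, hnear⟩ := near_of_small (μ := ε) (W := R + 2) hε (by linarith)
  set K2 : ℝ := K + 10 * (1 + ε) with hK2
  have hK0 : 0 < K := by linarith
  have hK2p : 0 < K2 := by positivity
  set Cr : ℝ := (2 * K2 + 4 * K2 * δ ^ 2 + 2) * (1 + 2 * (R + 1) ^ 2) with hCr
  have hCrp : 0 < Cr := by positivity
  refine ⟨max (max T00 T1) (Real.exp ((Cr + 16 * K2 * δ + 4) / ε + 16 * K2 * δ + 4)),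
    hT00.trans ((le_max_left _ _).trans (le_max_left _ _)), ε / 8, R', by positivity, hR', ?_⟩
  intro T t lam hT htT ht2 hlam hl hζ hw S hS
  have hTT : T00 ≤ T := ((le_max_left _ _).trans (le_max_left _ _)).trans hT
  have hTT1 : T1 ≤ T := ((le_max_right _ _).trans (le_max_left _ _)).trans hT
  have hT10 : 10 ≤ T := hT00.trans hTT
  set L := Real.log T with hL
  have hLe : (Cr + 16 * K2 * δ + 4) / ε + 16 * K2 * δ + 4 ≤ L := by
    rw [hL, Real.le_log_iff_exp_le (by linarith)]
    exact (le_max_right _ _).trans hT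
  have hq1 : 0 ≤ (Cr + 16 * K2 * δ + 4) / ε := by positivity
  have hq2 : 0 ≤ 16 * K2 * δ := by positivity
  have hLp : 0 < L := by linarith
  have hL2 : Cr + 16 * K2 * δ + 4 ≤ ε * L := by
    have : (Cr + 16 * K2 * δ + 4) / ε ≤ L := by linarith
    rw [div_le_iff₀ hε] at this
    linarith
  obtain ⟨C, -⟩ := hdata T t hTT htT ht2
  have hlogt : L ≤ Real.log t := Real.log_le_log (by linarith) htT
  have N0 := hnear t (by linarith) (fun y hy => by
    have h1 := hζ y hy
    have e : (1 / 2 + (y : ℂ) * I) = 1 / 2 + I * y := by ring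
    rw [e]
    refine h1.trans ?_
    rw [Real.rpow_def_of_pos (by linarith)]
    apply Real.exp_le_exp.mpr
    rw [← hL]
    have := mul_le_mul_of_nonneg_left hlogt (show 0 ≤ ε / 8 by positivity)
    linarith) K (by linarith)
  have hΓp := C.Γpos
  have N := Near.shift N0 (c := 10) (by norm_num) hΓp.le hε.le (Dz_close (by linarith) htT ht2)
  rw [← hK2, ← hL] at N
  have hK12 : K ≤ K2 := by rw [hK2]; nlinarith
  have C2 : Loc (LL gk 0) Q t (L / 2) ‖gz ((t : ℂ) * I)‖ K2 μ0 := C.mono hK12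
  have h16 : 16 * K2 * lam ≤ 1 := by
    have h1 : 16 * K2 * lam * L ≤ 1 * L := by
      have e : 16 * K2 * lam * L = 16 * K2 * (lam * L) := by ring
      have := mul_le_mul_of_nonneg_left hl (show 0 ≤ 16 * K2 by positivity)
      rw [e]
      linarith
    exact le_of_mul_le_mul_right h1 hLp
  obtain ⟨w0, hw0, hw1⟩ := hw
  have hw0a : ‖w0‖ ≤ ε := hw0.trans (min_le_left _ _)
  have hw0b : ‖w0‖ ≤ 1 := hw0.trans (min_le_right _ _)
  set Γt := ‖gz ((t : ℂ) * I)‖ with hΓt
  set cc : ℂ := (t : ℂ) * I + w0 with hcc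
  have hcre : cc.re = w0.re := by rw [hcc]; simp
  have hcim : cc.im = t + w0.im := by rw [hcc]; simp
  have hwre := abs_re_le_norm w0
  have hwim := abs_im_le_norm w0
  have hFd : Differentiable ℂ (LL gk lam) := k.differentiable lam
  have hRp : 0 < R := by linarith
  have h1 := jen_weight hFd (C := cc) (R := R)
    (B := Γt * Real.exp (L / 2 * (ε + ε) + lam * (L / 2) ^ 2 + Cr))
    (b := Γt * Real.exp (lam * (L / 2) ^ 2 - ε * L)) (ℒ := L / 2) hRp (by positivity)
    (by positivity) (by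
      intro z hz
      have hzre := (abs_re_le_norm z).trans hz
      have hzim := (abs_im_le_norm z).trans hz
      have e1 : (cc + z).re = w0.re + z.re := by rw [add_re, hcre]
      have e2 : (cc + z).im - t = w0.im + z.im := by rw [add_im, hcim]; ring
      have h3 : |w0.re + z.re| ≤ |w0.re| + |z.re| := abs_add_le _ _
      have h4 : |w0.im + z.im| ≤ |w0.im| + |z.im| := abs_add_le _ _
      have h2 := Fup2 k C2 N hlam h16 (δ := δ) (by linarith) (z := cc + z) (by
        rw [e2]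
        linarith)
      refine h2.trans ?_
      rw [mul_assoc Γt, ← Real.exp_add, e1, e2]
      apply mul_le_mul_of_nonneg_left _ hΓp.le
      apply Real.exp_le_exp.mpr
      have h5 : (w0.re + z.re) ^ 2 ≤ (R + 1) ^ 2 := by
        rw [← sq_abs]
        exact pow_le_pow_left₀ (abs_nonneg _) (by linarith) 2
      have h6 : (w0.im + z.im) ^ 2 ≤ (R + 1) ^ 2 := by
        rw [← sq_abs]
        exact pow_le_pow_left₀ (abs_nonneg _) (by linarith) 2
      have h7 : (2 * K2 + 4 * K2 * δ ^ 2 + 2) * (1 + (w0.re + z.re) ^ 2 + (w0.im + z.im) ^ 2) ≤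
          Cr := by
        rw [hCr]
        apply mul_le_mul_of_nonneg_left _ (by positivity)
        linarith
      have h8 : L / 2 * (|w0.re + z.re| + ε) ≤ L / 2 * (ε + |z.re| + ε) := by
        apply mul_le_mul_of_nonneg_left _ (by positivity)
        linarith
      linarith) hw1 S (fun u => max 0 (Real.log (R / (|u.im - t| + 2)))) (fun u hu => (hS u hu).1)
    (fun u hu hle => by
      obtain ⟨-, h3⟩ := hS u hu
      have h4 : ‖u - cc‖ ≤ |u.im - t| + 2 := by
        refine (norm_le_abs_re_add_abs_im _).trans ?_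
        rw [sub_re, sub_im, hcre, hcim]
        have h5 : |u.re - w0.re| ≤ |u.re| + |w0.re| := abs_sub _ _
        have h6 : |u.im - (t + w0.im)| ≤ |u.im - t| + |w0.im| := by
          have : u.im - (t + w0.im) = (u.im - t) - w0.im := by ring
          rw [this]
          exact abs_sub _ _
        have h7 : |w0.re| + |w0.im| ≤ 3 / 2 := by
          have h8 : (|w0.re| + |w0.im|) ^ 2 ≤ 2 := by
            have h9 : |w0.re| ^ 2 + |w0.im| ^ 2 = ‖w0‖ ^ 2 := by
              rw [sq_abs, sq_abs, Complex.sq_norm, normSq_apply]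
              ring
            have h10 : ‖w0‖ ^ 2 ≤ 1 := pow_le_one₀ (norm_nonneg _) hw0b
            nlinarith [sq_nonneg (|w0.re| - |w0.im|)]
          nlinarith [abs_nonneg w0.re, abs_nonneg w0.im]
        linarith
      apply max_le
      · rcases eq_or_lt_of_le (norm_nonneg (u - cc)) with h0 | h0
        · rw [← h0, div_zero, Real.log_zero]
        · apply Real.log_nonneg
          rw [one_le_div h0]
          exact hle
      · rcases eq_or_lt_of_le (norm_nonneg (u - cc)) with h0 | h0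
        · exfalso
          have h5 : u = cc := by
            rw [← sub_eq_zero, ← norm_eq_zero]
            exact h0.symm
          have h6 : LL gk lam cc = 0 := by rw [← h5]; exact (hS u hu).1
          rw [h6, norm_zero] at hw1
          have : 0 < Γt * Real.exp (lam * (L / 2) ^ 2 - ε * L) := by positivity
          linarith
        · apply Real.log_le_log (by positivity)
          exact div_le_div_of_nonneg_left hRp.le h0 h4)
    (fun u hu hgt => by
      obtain ⟨-, h3⟩ := hS u hu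
      have h4 : ‖u - cc‖ ≤ |u.im - t| + 2 := by
        refine (norm_le_abs_re_add_abs_im _).trans ?_
        rw [sub_re, sub_im, hcre, hcim]
        have h5 : |u.re - w0.re| ≤ |u.re| + |w0.re| := abs_sub _ _
        have h6 : |u.im - (t + w0.im)| ≤ |u.im - t| + |w0.im| := by
          have : u.im - (t + w0.im) = (u.im - t) - w0.im := by ring
          rw [this]
          exact abs_sub _ _
        have h7 : |w0.re| + |w0.im| ≤ 3 / 2 := by
          have h8 : (|w0.re| + |w0.im|) ^ 2 ≤ 2 := by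
            have h9 : |w0.re| ^ 2 + |w0.im| ^ 2 = ‖w0‖ ^ 2 := by
              rw [sq_abs, sq_abs, Complex.sq_norm, normSq_apply]
              ring
            have h10 : ‖w0‖ ^ 2 ≤ 1 := pow_le_one₀ (norm_nonneg _) hw0b
            nlinarith [sq_nonneg (|w0.re| - |w0.im|)]
          nlinarith [abs_nonneg w0.re, abs_nonneg w0.im]
        linarith
      apply max_le le_rfl
      apply Real.log_nonpos (by positivity)
      rw [div_le_one (by positivity)]
      linarith)
  refine h1.trans ?_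
  have e1 : Real.log (Γt * Real.exp (L / 2 * (ε + ε) + lam * (L / 2) ^ 2 + Cr) /
      (Γt * Real.exp (lam * (L / 2) ^ 2 - ε * L))) = 2 * ε * L + Cr := by
    rw [mul_div_mul_left _ _ hΓp.ne', ← Real.exp_sub, Real.log_exp]
    ring
  rw [e1]
  have e2 : 2 * R / Real.pi * (L / 2) = R / Real.pi * L := by ring
  rw [e2]
  linarith

end Pool.Agent.H466.HP
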