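import Pool.Agent.H466.HP.H6
import Pool.Agent.H466.HP.Asm
import Pool.Agent.H894.HP.Int
import Pool.Agent.H113.HP.STRIP

/-!
# The zeros with `T ≤ Im ≤ 2T` at small times
-/

set_option autoImplicit false

open Complex MeasureTheory Filter Topology Set
open scoped ComplexConjugate

namespace Pool.Agent.H466.HP

open Pool.Agent.H466.HF Pool.Agent.H466.LD

theorem strip : S_STRIP := Pool.Agent.H113.HP.strip
theorem intlow : S_INTLOW := Pool.Agent.H894.HP.intlow
theorem intup : S_INTUP := Pool.Agent.H894.HP.intup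
theorem intcnt : S_INTCNT := Pool.Agent.H894.HP.intcnt

lemma Fl_ne {lam : ℝ} (hlam : 0 < lam) : LL gk lam 1 ≠ 0 := by
  intro h
  have := strip lam 1 hlam h
  norm_num at this

/-- the zeros on a segment of the line form a finite set -/
lemma line_fin {A lam : ℝ} (k : Kern gk A 1) (hlam : 0 < lam) (a b : ℝ) :
    {y : ℝ | y ∈ Icc a b ∧ LL gk lam ((y : ℂ) * I) = 0}.Finite := by
  have hK : IsCompact ((fun y : ℝ => (y : ℂ) * I) '' Icc a b) :=
    isCompact_Icc.image (by fun_prop)
  have h1 := Pool.Agent.H333.HP.fin_zeros (k.differentiable lam) ⟨1, Fl_ne hlam⟩ hK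
  refine Set.Finite.of_injOn (f := fun y : ℝ => (y : ℂ) * I) (fun y hy => ?_) ?_ h1
  · exact ⟨⟨y, hy.1, rfl⟩, hy.2⟩
  · intro x _ y _ hxy
    have h2 := mul_right_cancel₀ I_ne_zero hxy
    exact_mod_cast h2

lemma exists_R {ε : ℝ} (hε : 0 < ε) : ∃ R : ℝ, 4 ≤ R ∧ 2 + 2 * Real.log (R / 2) ≤ ε * R := by
  set q : ℝ := 6 / ε + 2 with hq
  have hq2 : 2 ≤ q := by rw [hq]; have : 0 < 6 / ε := by positivity
                         linarith
  have hqp : 0 < q := by linarith
  refine ⟨q ^ 2, by nlinarith, ?_⟩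
  have h1 : Real.log (q ^ 2 / 2) ≤ 2 * q := by
    have h2 : Real.log (q ^ 2 / 2) ≤ Real.log (q ^ 2) :=
      Real.log_le_log (by positivity) (by linarith [sq_nonneg q])
    rw [Real.log_pow] at h2
    have h3 := Real.log_le_sub_one_of_pos hqp
    push_cast at h2
    linarith
  have h4 : 6 ≤ ε * q := by
    rw [hq, mul_add, mul_div_cancel₀ _ hε.ne']
    linarith
  nlinarith

/-- **small times**: nearly all zeros are on the line -/
theorem small_range : ∃ δ1 : ℝ, 0 < δ1 ∧ ∀ ε : ℝ, 0 < ε → ε ≤ 1 → ∃ A0 T0 : ℝ, 0 < A0 ∧ 10 ≤ T0 ∧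
    ∀ T lam : ℝ, T0 ≤ T → 0 < lam → A0 ≤ lam * Real.log T ^ 2 → lam * Real.log T ≤ δ1 →
    (∃ S : Finset ℝ, (∀ y ∈ S, T < y ∧ y < 2 * T ∧ LL gk lam ((y : ℂ) * I) = 0) ∧
      (1 - ε) * (T * Real.log T / (2 * Real.pi)) ≤ (S.card : ℝ)) ∧
    ∀ S : Finset ℂ, (∀ z ∈ S, LL gk lam z = 0 ∧ T ≤ z.im ∧ z.im ≤ 2 * T) →
      ∑ z ∈ S, (analyticOrderNatAt (LL gk lam) z : ℝ) ≤
        (1 + ε) * (T * Real.log T / (2 * Real.pi)) := by
  classical
  obtain ⟨δ1, hδ1, hδ1a, hlt⟩ := lt1 mono
  obtain ⟨A, -, -, -, -, -, -, -, k, -⟩ := far_data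
  refine ⟨δ1, hδ1, fun ε hε hε1 => ?_⟩
  have hπ := Real.pi_pos
  have hπ3 := Real.pi_gt_three
  have hπ4 := Real.pi_lt_d2
  -- the window
  obtain ⟨R, hR4, hRlog⟩ := exists_R (show 0 < ε / 16 by positivity)
  have hRp : 0 < R := by linarith
  set ε3 : ℝ := ε / 64 with hε3
  have hε3p : 0 < ε3 := by positivity
  obtain ⟨T1, hT1, η, R', hη, hR', hwin⟩ := window (R := R) (ε := ε3) (δ := δ1) hR4 hε3p hδ1
  obtain ⟨Cc, T2, hCc, hT2, hcr⟩ := crude (δ := δ1) (Y := R) hδ1 hRp.le
  -- the regular points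
  obtain ⟨r, κ, M, hr, hr1, hκ, hM, hloc⟩ := hlt ε3 hε3p (by rw [hε3]; linarith)
  have hlogR : 0 ≤ Real.log (R / 2) := Real.log_nonneg (by linarith)
  set ε2 : ℝ := ε / (64 * (1 + Cc * Real.log (R / 2))) with hε2
  have hden : 0 < 1 + Cc * Real.log (R / 2) := by positivity
  have hε2p : 0 < ε2 := by positivity
  have hε2a : ε2 ≤ ε / 64 := by
    rw [hε2]
    apply div_le_div_of_nonneg_left hε.le (by norm_num)
    nlinarith [mul_nonneg hCc.le hlogR]
  have hε2b : Cc * Real.log (R / 2) * ε2 ≤ ε / 64 := by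
    rw [hε2, mul_div_assoc', div_le_div_iff₀ (by positivity) (by norm_num)]
    nlinarith [mul_nonneg hCc.le hlogR]
  obtain ⟨A1, T3, hA1, hT3, hreg⟩ := reg M κ ε2 hM hκ hε2p
  obtain ⟨A0, T4, hA0, hT4, hloc⟩ := hloc A1 hA1
  obtain ⟨T5, hT5, hgw⟩ := gw_all R' η ε2 hR' hη hε2p
  refine ⟨A0, max (max (max T1 T2) (max T3 T4)) (max T5 (64 * (R + 1) * (1 + Cc) / ε)), hA0,
    hT1.trans ((le_max_left _ _).trans ((le_max_left _ _).trans (le_max_left _ _))), ?_⟩
  intro T lam hT hlam hA hl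
  have b1 : T1 ≤ T := ((le_max_left _ _).trans ((le_max_left _ _).trans (le_max_left _ _))).trans hT
  have b2 : T2 ≤ T := ((le_max_right _ _).trans ((le_max_left _ _).trans (le_max_left _ _))).trans hT
  have b3 : T3 ≤ T := ((le_max_left _ _).trans ((le_max_right _ _).trans (le_max_left _ _))).trans hT
  have b4 : T4 ≤ T := ((le_max_right _ _).trans ((le_max_right _ _).trans (le_max_left _ _))).trans hT
  have b5 : T5 ≤ T := ((le_max_left _ _).trans (le_max_right _ _)).trans hT
  have b6 : 64 * (R + 1) * (1 + Cc) / ε ≤ T := ((le_max_right _ _).trans (le_max_right _ _)).trans hT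
  have hT10 : 10 ≤ T := hT1.trans b1
  have hTp : 0 < T := by linarith
  rw [div_le_iff₀ hε] at b6
  have c1 : 64 * (R + 1) ≤ T * ε := by nlinarith
  have c2 : 64 * (R + 1) * Cc ≤ T * ε := by nlinarith
  set L := Real.log T with hL
  have hLp : 0 < L := by rw [hL]; exact Real.log_pos (by linarith)
  -- the bad sets
  set B1 : Set ℝ := {t : ℝ | t ∈ Icc T (2 * T) ∧ ¬ (CF t (A1 / L) M ∧
      ∀ z ∈ Kt t (A1 / L) 4 M, ‖P z - (L / 2 : ℝ)‖ ≤ κ * L)} with hB1
  set B2 : Set ℝ := {t : ℝ | t ∈ Icc T (2 * T) ∧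
      ∃ y : ℝ, |y - t| ≤ R' ∧ T ^ η < ‖riemannZeta (1 / 2 + I * y)‖} with hB2
  have v1 : volume B1 ≤ ENNReal.ofReal (ε2 * T) := hreg T b3
  have v2 : volume B2 ≤ ENNReal.ofReal (ε2 * T) := hgw T b5
  have hRg : ∀ t ∈ Icc T (2 * T), t ∉ B1 → Rg T t A1 M κ := by
    intro t ht hn
    have h1 : CF t (A1 / L) M ∧
      ∀ z ∈ Kt t (A1 / L) 4 M, ‖P z - (L / 2 : ℝ)‖ ≤ κ * L := by
      by_contra hcon
      exact hn ⟨ht, hcon⟩
    exact ⟨h1.1, h1.2⟩
  have hΔp : 0 < lam * L := by positivity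
  have hrΔ : r * (lam * L) ≤ 1 := by nlinarith
  have hrΔp : 0 < r * (lam * L) := by positivity
  constructor
  · -- zeros on the line
    have hfin := line_fin k hlam T (2 * T)
    set Z : Finset ℝ := hfin.toFinset.filter (fun y => T < y ∧ y < 2 * T) with hZ
    refine ⟨Z, fun y hy => ?_, ?_⟩
    · rw [hZ, Finset.mem_filter, Set.Finite.mem_toFinset] at hy
      exact ⟨hy.2.1, hy.2.2, hy.1.2⟩
    · have h1 := intlow Z B1 (T + 1) (2 * T - 1) (-(r * (lam * L))) (2 * (r * (lam * L)))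
        ((1 - ε3) * (r * (lam * L ^ 2) / Real.pi)) (ε2 * T) (by linarith) (by positivity)
        (mul_nonneg (by rw [hε3]; linarith) (by positivity)) (by positivity) v1 (by
          intro t ht hn
          have ht' : t ∈ Icc T (2 * T) := ⟨by linarith [ht.1], by linarith [ht.2]⟩
          obtain ⟨-, S, hS, hcard⟩ := hloc T t lam b4 ht'.1 ht'.2 (hRg t ht' hn) hlam hA hl
          refine hcard.trans ?_
          have hsub : S ⊆ Z.filter fun y : ℝ => t + -(r * (lam * L)) < y ∧
              y < t + -(r * (lam * L)) + 2 * (r * (lam * L)) := by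
            intro y hy
            obtain ⟨h2, h3, h4⟩ := hS y hy
            have h5 : T < y := by linarith [ht.1]
            have h6 : y < 2 * T := by linarith [ht.2]
            rw [Finset.mem_filter, hZ, Finset.mem_filter, Set.Finite.mem_toFinset]
            exact ⟨⟨⟨⟨h5.le, h6.le⟩, h4⟩, h5, h6⟩, by linarith, by linarith⟩
          exact_mod_cast Finset.card_le_card hsub)
      have h2 : (1 - ε3) * (r * (lam * L ^ 2) / Real.pi) * (2 * T - 1 - (T + 1) - ε2 * T) =
          (2 * (r * (lam * L))) * ((1 - ε3) * ((1 - ε2) * T - 2) * (L / (2 * Real.pi))) := by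
        field_simp
        ring
      rw [h2] at h1
      have h3 := le_of_mul_le_mul_left h1 (by positivity)
      refine le_trans ?_ h3
      have e1 : (1 - ε) * (T * L / (2 * Real.pi)) = ((1 - ε) * T) * (L / (2 * Real.pi)) := by ring
      rw [e1]
      apply mul_le_mul_of_nonneg_right _ (by positivity)
      have h4 : (1 - ε3) * ((1 - ε2) * T - 2) ≥ (1 - ε3 - ε2) * T - 2 := by
        have : 0 ≤ ε3 * ε2 * T := by positivity
        nlinarith
      have h5 : ε2 * T ≤ ε / 64 * T := mul_le_mul_of_nonneg_right hε2a hTp.le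
      rw [hε3] at h4 ⊢
      nlinarith
  · -- all zeros
    intro S hS
    set m : ℂ → ℝ := fun z => (analyticOrderNatAt (LL gk lam) z : ℝ) with hm
    have hm0 : ∀ z, 0 ≤ m z := fun z => Nat.cast_nonneg _
    have hstrip : ∀ z ∈ S, |z.re| ≤ 1 / 2 := fun z hz => strip lam z hlam (hS z hz).1
    set S1 := S.filter (fun z => T + R ≤ z.im ∧ z.im ≤ 2 * T - R) with hS1
    set S2 := S.filter (fun z => z.im < T + R) with hS2
    set S3 := S.filter (fun z => 2 * T - R < z.im) with hS3
    have hsub : S ⊆ S1 ∪ (S2 ∪ S3) := by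
      intro z hz
      rw [Finset.mem_union, Finset.mem_union, hS1, hS2, hS3, Finset.mem_filter, Finset.mem_filter,
        Finset.mem_filter]
      by_cases h1 : z.im < T + R
      · exact Or.inr (Or.inl ⟨hz, h1⟩)
      · by_cases h2 : 2 * T - R < z.im
        · exact Or.inr (Or.inr ⟨hz, h2⟩)
        · exact Or.inl ⟨hz, by linarith, by linarith⟩
    have hsplit : ∑ z ∈ S, m z ≤ ∑ z ∈ S1, m z + (∑ z ∈ S2, m z + ∑ z ∈ S3, m z) := by
      refine (Finset.sum_le_sum_of_subset_of_nonneg hsub fun _ _ _ => hm0 _).trans ?_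
      have h1 := Finset.sum_union_inter (s₁ := S1) (s₂ := S2 ∪ S3) (f := m)
      have h2 := Finset.sum_union_inter (s₁ := S2) (s₂ := S3) (f := m)
      have h3 : 0 ≤ ∑ z ∈ S1 ∩ (S2 ∪ S3), m z := Finset.sum_nonneg fun _ _ => hm0 _
      have h4 : 0 ≤ ∑ z ∈ S2 ∩ S3, m z := Finset.sum_nonneg fun _ _ => hm0 _
      linarith
    have h2 : ∑ z ∈ S2, m z ≤ Cc * L := by
      refine hcr T T lam b2 le_rfl (by linarith) hlam hl S2 fun z hz => ?_
      rw [hS2, Finset.mem_filter] at hz
      refine ⟨(hS z hz.1).1, hstrip z hz.1, ?_⟩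
      rw [abs_of_nonneg (by linarith [(hS z hz.1).2.1])]
      linarith [hz.2]
    have h3 : ∑ z ∈ S3, m z ≤ Cc * L := by
      refine hcr T (2 * T) lam b2 (by linarith) le_rfl hlam hl S3 fun z hz => ?_
      rw [hS3, Finset.mem_filter] at hz
      refine ⟨(hS z hz.1).1, hstrip z hz.1, ?_⟩
      rw [abs_le]
      constructor <;> linarith [(hS z hz.1).2.2, hz.2]
    -- the main part
    have hphi : ∀ v : ℝ, phi R v ≤ Real.log (R / 2) := by
      intro v
      unfold phi
      apply max_le hlogR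
      apply Real.log_le_log (by positivity)
      apply div_le_div_of_nonneg_left hRp.le (by norm_num)
      linarith [abs_nonneg v]
    have hphi0 : ∀ v : ℝ, R < |v| → phi R v = 0 := by
      intro v hv
      unfold phi
      apply max_eq_left
      apply Real.log_nonpos (by positivity)
      rw [div_le_one (by positivity)]
      linarith
    have hphin : ∀ v : ℝ, 0 ≤ phi R v := fun v => le_max_left _ _
    have hU : ∀ t ∈ Icc T (2 * T), t ∉ B1 ∪ B2 → ∑ z ∈ S1, m z * phi R (z.im - t) ≤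
        (R / Real.pi + 4 * ε3) * L := by
      intro t ht hn
      rw [Set.mem_union, not_or] at hn
      obtain ⟨⟨w0, hw0, hw1⟩, -⟩ := hloc T t lam b4 ht.1 ht.2 (hRg t ht hn.1) hlam hA hl
      have hz : ∀ y : ℝ, |y - t| ≤ R' → ‖riemannZeta (1 / 2 + I * y)‖ ≤ T ^ η := by
        intro y hy
        by_contra hcon
        push Not at hcon
        exact hn.2 ⟨ht, y, hy, hcon⟩
      have h4 := hwin T t lam b1 ht.1 ht.2 hlam hl hz ⟨w0, le_min hw0 (hw0.trans (by
        rw [hε3]; linarith)), hw1⟩ S1 (fun z hz => by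
          rw [hS1, Finset.mem_filter] at hz
          exact ⟨(hS z hz.1).1, hstrip z hz.1⟩)
      exact h4
    have hV : ∀ t ∈ Icc T (2 * T), ∑ z ∈ S1, m z * phi R (z.im - t) ≤
        Cc * L * Real.log (R / 2) := by
      intro t ht
      have h4 : ∑ z ∈ S1, m z * phi R (z.im - t) =
          ∑ z ∈ S1 with |z.im - t| ≤ R, m z * phi R (z.im - t) := by
        have h5 := Finset.sum_filter_add_sum_filter_not S1 (fun z : ℂ => |z.im - t| ≤ R)
          (fun z => m z * phi R (z.im - t))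
        have h6 : ∑ z ∈ S1 with ¬ |z.im - t| ≤ R, m z * phi R (z.im - t) = 0 := by
          refine Finset.sum_eq_zero fun z hz => ?_
          rw [Finset.mem_filter] at hz
          rw [hphi0 _ (not_le.mp hz.2), mul_zero]
        rw [h6, add_zero] at h5
        exact h5.symm
      rw [h4]
      have h5 : ∑ z ∈ S1 with |z.im - t| ≤ R, m z * phi R (z.im - t) ≤
          ∑ z ∈ S1 with |z.im - t| ≤ R, m z * Real.log (R / 2) :=
        Finset.sum_le_sum fun z _ => mul_le_mul_of_nonneg_left (hphi _) (hm0 _)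
      refine h5.trans ?_
      rw [← Finset.sum_mul]
      apply mul_le_mul_of_nonneg_right _ hlogR
      refine hcr T t lam b2 ht.1 ht.2 hlam hl _ fun z hz => ?_
      rw [Finset.mem_filter, hS1, Finset.mem_filter] at hz
      exact ⟨(hS z hz.1.1).1, hstrip z hz.1.1, hz.2⟩
    have vB : volume (B1 ∪ B2) ≤ ENNReal.ofReal (2 * ε2 * T) := by
      refine (measure_union_le _ _).trans ((add_le_add v1 v2).trans ?_)
      rw [← ENNReal.ofReal_add (by positivity) (by positivity)]
      exact ENNReal.ofReal_le_ofReal (by linarith)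
    have h4 := intup ℂ S1 m Complex.im (B1 ∪ B2) T (2 * T) R ((R / Real.pi + 4 * ε3) * L)
      (Cc * L * Real.log (R / 2)) (2 * ε2 * T) (by linarith) (by linarith) (by positivity)
      (by positivity) (by positivity) (fun z hz => by
        rw [hS1, Finset.mem_filter] at hz
        exact ⟨hm0 z, hz.2.1, hz.2.2⟩) vB hU hV
    have h5 : 2 * ((1 - ε / 16) * R) * ∑ z ∈ S1, m z ≤
        2 * (R - 2 - 2 * Real.log (R / 2)) * ∑ z ∈ S1, m z := by
      apply mul_le_mul_of_nonneg_right _ (Finset.sum_nonneg fun z _ => hm0 z)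
      linarith
    have h6 : 2 * ((1 - ε / 16) * R) * ∑ z ∈ S1, m z ≤ (R / Real.pi + ε / 8) * (L * T) := by
      refine (h5.trans h4).trans ?_
      have h7 : Cc * L * Real.log (R / 2) * (2 * ε2 * T) ≤ ε / 32 * (L * T) := by
        have e : Cc * L * Real.log (R / 2) * (2 * ε2 * T) =
            2 * (Cc * Real.log (R / 2) * ε2) * (L * T) := by ring
        rw [e]
        apply mul_le_mul_of_nonneg_right _ (by positivity)
        linarith
      have e2 : (R / Real.pi + 4 * ε3) * L * (2 * T - T) = (R / Real.pi + 4 * ε3) * (L * T) := by ring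
      rw [e2, hε3]
      have : 0 < L * T := by positivity
      nlinarith
    have h7 : ∑ z ∈ S1, m z ≤ (1 + ε / 2) * (T * L / (2 * Real.pi)) := by
      have h8 : 0 < 2 * ((1 - ε / 16) * R) := by
        apply mul_pos two_pos
        apply mul_pos _ hRp
        linarith
      refine le_of_mul_le_mul_left (h6.trans ?_) h8
      have e3 : 2 * ((1 - ε / 16) * R) * ((1 + ε / 2) * (T * L / (2 * Real.pi))) =
          ((1 - ε / 16) * (1 + ε / 2) * (R / Real.pi)) * (L * T) := by
        field_simp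
      rw [e3]
      apply mul_le_mul_of_nonneg_right _ (by positivity)
      have h9 : 1 ≤ R / Real.pi := by
        rw [one_le_div hπ]
        linarith
      have h10 : (1 - ε / 16) * (1 + ε / 2) ≥ 1 + ε / 8 := by nlinarith
      have h11 : (1 + ε / 8) * (R / Real.pi) ≤ (1 - ε / 16) * (1 + ε / 2) * (R / Real.pi) :=
        mul_le_mul_of_nonneg_right h10 (by positivity)
      nlinarith
    have h8 : 2 * (Cc * L) ≤ ε / 2 * (T * L / (2 * Real.pi)) := by
      have e4 : ε / 2 * (T * L / (2 * Real.pi)) = (ε * T / (4 * Real.pi)) * L := by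
        field_simp
        ring
      have e5 : 2 * (Cc * L) = 2 * Cc * L := by ring
      rw [e4, e5]
      apply mul_le_mul_of_nonneg_right _ hLp.le
      rw [le_div_iff₀ (by positivity)]
      nlinarith
    have e6 : (1 + ε) * (T * L / (2 * Real.pi)) = (1 + ε / 2) * (T * L / (2 * Real.pi)) +
        ε / 2 * (T * L / (2 * Real.pi)) := by ring
    rw [e6]
    linarith

end Pool.Agent.H466.HP
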