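import Pool.Agent.H466.HP.H7

/-!
# The zeros with `T ≤ Im ≤ 2T`, for all times
-/

set_option autoImplicit false

open Complex MeasureTheory Filter Topology Set
open scoped ComplexConjugate

namespace Pool.Agent.H466.HP

open Pool.Agent.H466.HF Pool.Agent.H466.LD

/-- the excess of a zero is nonnegative -/
lemma excess_nonneg {A lam : ℝ} (k : Kern gk A 1) (hlam : 0 < lam) {z : ℂ} (hz : LL gk lam z = 0) :
    (0 : ℝ) ≤ (analyticOrderNatAt (LL gk lam) z : ℝ) - if z.re = 0 then 1 else 0 := by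
  have h1 := order_ge_one (k.differentiable lam) (Fl_ne hlam) hz
  have h2 : (1 : ℝ) ≤ (analyticOrderNatAt (LL gk lam) z : ℝ) := by exact_mod_cast h1
  split_ifs <;> linarith

/-- **larger times** -/
theorem large_range {δ1 δ ε : ℝ} (hδ1 : 0 < δ1) (hδ : δ1 ≤ δ) (hε : 0 < ε) (hε1 : ε ≤ 1) :
    ∃ T0 : ℝ, 10 ≤ T0 ∧
    ∀ T lam : ℝ, T0 ≤ T → 0 < lam → δ1 ≤ lam * Real.log T → lam * Real.log T ≤ δ →
    (∃ S : Finset ℝ, (∀ y ∈ S, T < y ∧ y < 2 * T ∧ LL gk lam ((y : ℂ) * I) = 0 ∧
        deriv (LL gk lam) ((y : ℂ) * I) ≠ 0) ∧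
      (1 - ε) * (T * Real.log T / (2 * Real.pi)) ≤ (S.card : ℝ)) ∧
    ∀ S : Finset ℂ, (∀ z ∈ S, LL gk lam z = 0 ∧ T ≤ z.im ∧ z.im ≤ 2 * T) →
      ∑ z ∈ S, ((analyticOrderNatAt (LL gk lam) z : ℝ) - if z.re = 0 then 1 else 0) ≤
        ε * (T * Real.log T / (2 * Real.pi)) := by
  classical
  obtain ⟨A, -, -, -, -, -, -, -, k, -⟩ := far_data
  have hπ := Real.pi_pos
  have hπ3 := Real.pi_gt_three
  have hπ4 := Real.pi_lt_d2
  set ε3 : ℝ := ε / 64 with hε3
  have hε3p : 0 < ε3 := by positivity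
  obtain ⟨η1, hη1, R1, hR1, T1, hT1, hmany⟩ := many_z (δ1 := δ1) (δ := 2 * δ) (ε := ε3) (h := 1) hδ1
    (by linarith) hε3p one_pos
  obtain ⟨η2, hη2, R2, hR2, T2, hT2, hfew⟩ := few_z (δ1 := δ1) (δ := 2 * δ) (ε := ε3) (Y := 1) hδ1
    (by linarith) hε3p zero_le_one
  obtain ⟨Cc, T3, hCc, hT3, hcr⟩ := crude (δ := δ) (Y := 1) (by linarith) zero_le_one
  set ε2 : ℝ := ε / (64 * (1 + Cc)) with hε2
  have hε2p : 0 < ε2 := by positivity
  have hε2a : ε2 ≤ ε / 64 := by
    rw [hε2]
    apply div_le_div_of_nonneg_left hε.le (by norm_num)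
    linarith
  have hε2b : Cc * ε2 ≤ ε / 64 := by
    rw [hε2, mul_div_assoc', div_le_div_iff₀ (by positivity) (by norm_num)]
    nlinarith
  obtain ⟨T4, hT4, hgw1⟩ := gw_all R1 η1 ε2 hR1 hη1 hε2p
  obtain ⟨T5, hT5, hgw2⟩ := gw_all R2 η2 ε2 hR2 hη2 hε2p
  refine ⟨max (max (max T1 T2) (max T3 T4)) (max T5 (256 * (1 + Cc) / ε)),
    hT5.trans ((le_max_left _ _).trans (le_max_right _ _)), ?_⟩
  intro T lam hT hlam hl1 hl
  have b1 : T1 ≤ T := ((le_max_left _ _).trans ((le_max_left _ _).trans (le_max_left _ _))).trans hT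
  have b2 : T2 ≤ T := ((le_max_right _ _).trans ((le_max_left _ _).trans (le_max_left _ _))).trans hT
  have b3 : T3 ≤ T := ((le_max_left _ _).trans ((le_max_right _ _).trans (le_max_left _ _))).trans hT
  have b4 : T4 ≤ T := ((le_max_right _ _).trans ((le_max_right _ _).trans (le_max_left _ _))).trans hT
  have b5 : T5 ≤ T := ((le_max_left _ _).trans (le_max_right _ _)).trans hT
  have b6 : 256 * (1 + Cc) / ε ≤ T := ((le_max_right _ _).trans (le_max_right _ _)).trans hT
  have hT10 : 10 ≤ T := hT5.trans b5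
  have hTp : 0 < T := by linarith
  rw [div_le_iff₀ hε] at b6
  have c1 : 256 ≤ T * ε := by nlinarith
  have c2 : 256 * Cc ≤ T * ε := by nlinarith
  set L := Real.log T with hL
  have hLp : 0 < L := by rw [hL]; exact Real.log_pos (by linarith)
  have hL1 : 1 ≤ L := by
    rw [hL, Real.le_log_iff_exp_le hTp]
    have := Real.exp_one_lt_d9
    linarith
  have hlog : ∀ t ∈ Icc T (2 * T), L ≤ Real.log t ∧ Real.log t ≤ 2 * L := by
    intro t ht
    refine ⟨Real.log_le_log hTp ht.1, ?_⟩
    have h6 : Real.log t ≤ Real.log (2 * T) := Real.log_le_log (by linarith [ht.1]) ht.2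
    rw [Real.log_mul (by norm_num) hTp.ne'] at h6
    have := Real.log_two_lt_d9
    linarith
  have hlamt : ∀ t ∈ Icc T (2 * T), δ1 ≤ lam * Real.log t ∧ lam * Real.log t ≤ 2 * δ := by
    intro t ht
    obtain ⟨h1, h2⟩ := hlog t ht
    have h3 := mul_le_mul_of_nonneg_left h1 hlam.le
    have h4 := mul_le_mul_of_nonneg_left h2 hlam.le
    constructor <;> linarith
  constructor
  · set B1 : Set ℝ := {t : ℝ | t ∈ Icc T (2 * T) ∧
      ∃ y : ℝ, |y - t| ≤ R1 ∧ T ^ η1 < ‖riemannZeta (1 / 2 + I * y)‖} with hB1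
    have v1 : volume B1 ≤ ENNReal.ofReal (ε2 * T) := hgw1 T b4
    have hfin := line_fin k hlam T (2 * T)
    set Z : Finset ℝ := hfin.toFinset.filter (fun y => T < y ∧ y < 2 * T ∧
      deriv (LL gk lam) ((y : ℂ) * I) ≠ 0) with hZ
    refine ⟨Z, fun y hy => ?_, ?_⟩
    · rw [hZ, Finset.mem_filter, Set.Finite.mem_toFinset] at hy
      exact ⟨hy.2.1, hy.2.2.1, hy.1.2, hy.2.2.2⟩
    · have h1 := intlow Z B1 T (2 * T - 1) 0 1
        ((1 - ε3) * (L / (2 * Real.pi))) (ε2 * T) (by linarith) one_pos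
        (mul_nonneg (by rw [hε3]; linarith) (by positivity)) (by positivity) v1 (by
          intro t ht hn
          have ht' : t ∈ Icc T (2 * T) := ⟨ht.1, by linarith [ht.2]⟩
          have hz : ∀ y : ℝ, |y - t| ≤ R1 →
              ‖riemannZeta (1 / 2 + y * I)‖ ≤ Real.exp (η1 * Real.log t) := by
            intro y hy
            by_contra hcon
            push Not at hcon
            refine hn ⟨ht', y, hy, lt_of_le_of_lt ?_ (by
              have e : (1 / 2 + I * (y : ℂ)) = 1 / 2 + y * I := by ring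
              rw [e]
              exact hcon)⟩
            rw [Real.rpow_def_of_pos hTp]
            apply Real.exp_le_exp.mpr
            have := mul_le_mul_of_nonneg_left (hlog t ht').1 hη1.le
            rw [← hL]
            linarith
          obtain ⟨S, hS, hcard⟩ := hmany t (by linarith [ht.1]) hz lam hlam (hlamt t ht').1
            (hlamt t ht').2
          have h2 : (1 - ε3) * (L / (2 * Real.pi)) ≤ (1 - ε3) * (1 * Real.log t / (2 * Real.pi)) := by
            apply mul_le_mul_of_nonneg_left _ (by rw [hε3]; linarith)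
            apply div_le_div_of_nonneg_right _ (by positivity)
            linarith [(hlog t ht').1]
          refine h2.trans (hcard.trans ?_)
          have hsub : S ⊆ Z.filter fun y : ℝ => t + 0 < y ∧ y < t + 0 + 1 := by
            intro y hy
            obtain ⟨h2, h3, h4, h5⟩ := hS y hy
            have h6 : T < y := by linarith [ht.1]
            have h7 : y < 2 * T := by linarith [ht.2]
            rw [Finset.mem_filter, hZ, Finset.mem_filter, Set.Finite.mem_toFinset]
            exact ⟨⟨⟨⟨h6.le, h7.le⟩, h4⟩, h6, h7, h5⟩, by linarith, by linarith⟩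
          exact_mod_cast Finset.card_le_card hsub)
      rw [one_mul] at h1
      refine le_trans ?_ h1
      have e1 : (1 - ε) * (T * L / (2 * Real.pi)) = ((1 - ε) * T) * (L / (2 * Real.pi)) := by ring
      have e2 : (1 - ε3) * (L / (2 * Real.pi)) * (2 * T - 1 - T - ε2 * T) =
          ((1 - ε3) * ((1 - ε2) * T - 1)) * (L / (2 * Real.pi)) := by ring
      rw [e1, e2]
      apply mul_le_mul_of_nonneg_right _ (by positivity)
      have h4 : (1 - ε3) * ((1 - ε2) * T - 1) ≥ (1 - ε3 - ε2) * T - 1 := by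
        have : 0 ≤ ε3 * ε2 * T := by positivity
        nlinarith
      have h5 : ε2 * T ≤ ε / 64 * T := mul_le_mul_of_nonneg_right hε2a hTp.le
      rw [hε3] at h4 ⊢
      nlinarith
  · intro S hS
    set B2 : Set ℝ := {t : ℝ | t ∈ Icc T (2 * T) ∧
      ∃ y : ℝ, |y - t| ≤ R2 ∧ T ^ η2 < ‖riemannZeta (1 / 2 + I * y)‖} with hB2
    have v2 : volume B2 ≤ ENNReal.ofReal (ε2 * T) := hgw2 T b5
    set m : ℂ → ℝ := fun z => (analyticOrderNatAt (LL gk lam) z : ℝ) - if z.re = 0 then 1 else 0
      with hm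
    have hm0 : ∀ z ∈ S, 0 ≤ m z := fun z hz => excess_nonneg k hlam (hS z hz).1
    have hmle : ∀ z, m z ≤ (analyticOrderNatAt (LL gk lam) z : ℝ) := by
      intro z
      rw [hm]
      simp only
      split_ifs <;> linarith
    have hstrip : ∀ z ∈ S, |z.re| ≤ 1 / 2 := fun z hz => strip lam z hlam (hS z hz).1
    set S1 := S.filter (fun z => T + 1 ≤ z.im ∧ z.im ≤ 2 * T - 1) with hS1
    set S2 := S.filter (fun z => z.im < T + 1) with hS2
    set S3 := S.filter (fun z => 2 * T - 1 < z.im) with hS3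
    have hmem1 : ∀ z ∈ S1, z ∈ S := fun z hz => (Finset.mem_filter.mp hz).1
    have hmem2 : ∀ z ∈ S2, z ∈ S := fun z hz => (Finset.mem_filter.mp hz).1
    have hmem3 : ∀ z ∈ S3, z ∈ S := fun z hz => (Finset.mem_filter.mp hz).1
    have hsub : S ⊆ S1 ∪ (S2 ∪ S3) := by
      intro z hz
      rw [Finset.mem_union, Finset.mem_union, hS1, hS2, hS3, Finset.mem_filter, Finset.mem_filter,
        Finset.mem_filter]
      by_cases h1 : z.im < T + 1
      · exact Or.inr (Or.inl ⟨hz, h1⟩)
      · by_cases h2 : 2 * T - 1 < z.im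
        · exact Or.inr (Or.inr ⟨hz, h2⟩)
        · exact Or.inl ⟨hz, by linarith, by linarith⟩
    have hsplit : ∑ z ∈ S, m z ≤ ∑ z ∈ S1, m z + (∑ z ∈ S2, m z + ∑ z ∈ S3, m z) := by
      refine (Finset.sum_le_sum_of_subset_of_nonneg hsub fun z hz _ => ?_).trans ?_
      · rw [Finset.mem_union, Finset.mem_union] at hz
        rcases hz with h | h | h
        · exact hm0 z (hmem1 z h)
        · exact hm0 z (hmem2 z h)
        · exact hm0 z (hmem3 z h)
      have h1 := Finset.sum_union_inter (s₁ := S1) (s₂ := S2 ∪ S3) (f := m)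
      have h2 := Finset.sum_union_inter (s₁ := S2) (s₂ := S3) (f := m)
      have h3 : 0 ≤ ∑ z ∈ S1 ∩ (S2 ∪ S3), m z := Finset.sum_nonneg fun z hz =>
        hm0 z (hmem1 z (Finset.mem_inter.mp hz).1)
      have h4 : 0 ≤ ∑ z ∈ S2 ∩ S3, m z := Finset.sum_nonneg fun z hz =>
        hm0 z (hmem2 z (Finset.mem_inter.mp hz).1)
      linarith
    have h2 : ∑ z ∈ S2, m z ≤ Cc * L := by
      refine (Finset.sum_le_sum fun z _ => hmle z).trans ?_
      refine hcr T T lam b3 le_rfl (by linarith) hlam hl S2 fun z hz => ?_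
      rw [hS2, Finset.mem_filter] at hz
      refine ⟨(hS z hz.1).1, hstrip z hz.1, ?_⟩
      rw [abs_of_nonneg (by linarith [(hS z hz.1).2.1])]
      linarith [hz.2]
    have h3 : ∑ z ∈ S3, m z ≤ Cc * L := by
      refine (Finset.sum_le_sum fun z _ => hmle z).trans ?_
      refine hcr T (2 * T) lam b3 (by linarith) le_rfl hlam hl S3 fun z hz => ?_
      rw [hS3, Finset.mem_filter] at hz
      refine ⟨(hS z hz.1).1, hstrip z hz.1, ?_⟩
      rw [abs_le]
      constructor <;> linarith [(hS z hz.1).2.2, hz.2]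
    have hU : ∀ t ∈ Icc T (2 * T), t ∉ B2 → ∑ z ∈ S1 with |z.im - t| ≤ 1, m z ≤ 2 * ε3 * L := by
      intro t ht hn
      have hz : ∀ y : ℝ, |y - t| ≤ R2 →
          ‖riemannZeta (1 / 2 + y * I)‖ ≤ Real.exp (η2 * Real.log t) := by
        intro y hy
        by_contra hcon
        push Not at hcon
        refine hn ⟨ht, y, hy, lt_of_le_of_lt ?_ (by
          have e : (1 / 2 + I * (y : ℂ)) = 1 / 2 + y * I := by ring
          rw [e]
          exact hcon)⟩
        rw [Real.rpow_def_of_pos hTp]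
        apply Real.exp_le_exp.mpr
        have := mul_le_mul_of_nonneg_left (hlog t ht).1 hη2.le
        rw [← hL]
        linarith
      have h4 := hfew t (by linarith [ht.1]) hz lam hlam (hlamt t ht).1 (hlamt t ht).2
        (S1.filter fun z => |z.im - t| ≤ 1) (fun z hz => by
          rw [Finset.mem_filter] at hz
          exact ⟨(hS z (hmem1 z hz.1)).1, hz.2⟩)
      refine h4.trans ?_
      have := mul_le_mul_of_nonneg_left (hlog t ht).2 hε3p.le
      linarith
    have hV : ∀ t ∈ Icc T (2 * T), ∑ z ∈ S1 with |z.im - t| ≤ 1, m z ≤ Cc * L := by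
      intro t ht
      refine (Finset.sum_le_sum fun z _ => hmle z).trans ?_
      refine hcr T t lam b3 ht.1 ht.2 hlam hl _ fun z hz => ?_
      rw [Finset.mem_filter] at hz
      exact ⟨(hS z (hmem1 z hz.1)).1, hstrip z (hmem1 z hz.1), hz.2⟩
    have h4 := intcnt ℂ S1 m Complex.im B2 T (2 * T) 1 (2 * ε3 * L) (Cc * L) (ε2 * T) (by linarith)
      one_pos (by positivity) (by positivity) (by positivity) (fun z hz => by
        refine ⟨hm0 z (hmem1 z hz), ?_⟩
        rw [hS1, Finset.mem_filter] at hz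
        exact hz.2) v2 hU hV
    have h5 : ∑ z ∈ S1, m z ≤ ε / 32 * (L * T) := by
      have h7 : Cc * L * (ε2 * T) ≤ ε / 64 * (L * T) := by
        have e : Cc * L * (ε2 * T) = (Cc * ε2) * (L * T) := by ring
        rw [e]
        exact mul_le_mul_of_nonneg_right hε2b (by positivity)
      rw [hε3] at h4
      have : 0 < L * T := by positivity
      nlinarith
    have h8 : 2 * (Cc * L) ≤ ε / 128 * (L * T) := by
      have e : ε / 128 * (L * T) = (T * ε) * (L / 128) := by ring
      rw [e]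
      have := mul_le_mul_of_nonneg_right c2 (show 0 ≤ L / 128 by positivity)
      linarith
    have h9 : ε / 32 * (L * T) + ε / 128 * (L * T) ≤ ε * (T * L / (2 * Real.pi)) := by
      have e : ε * (T * L / (2 * Real.pi)) = (1 / (2 * Real.pi)) * (ε * (L * T)) := by
        field_simp
      rw [e]
      have h10 : (1 : ℝ) / 8 ≤ 1 / (2 * Real.pi) := by
        apply one_div_le_one_div_of_le (by positivity)
        linarith
      have h11 : 0 < ε * (L * T) := by positivity
      nlinarith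
    linarith

end Pool.Agent.H466.HP
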