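import Pool.Agent.H862.VK.Zt
import Pool.Graph.R_seed8.H345R2.A2.EFb
import Pool.Graph.R_pool_sql_team_seeded_1acbe0a2.Y24.Near

/-!
# Statements: the logarithmic derivative of `ξ` near the critical line, in measure

`Yz z = s (s - 1) Λ(s)` at `s = 1/2 + z`; `P` its logarithmic derivative. The zeros are
`b = β + i γ` with `|β| < 1/2`.
-/

set_option autoImplicit false

namespace Pool.Agent.H466.HP

open Complex MeasureTheory Set Filter Topology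
open Pool.Agent.H862.VK (Yz)

/-- multiplicity of a zero of `Yz` -/
noncomputable def mu (b : ℂ) : ℝ := (analyticOrderNatAt Yz b : ℝ)

/-- the zeros of `Yz` -/
abbrev Zr : Type := {b : ℂ // Yz b = 0}

/-- the logarithmic derivative -/
noncomputable def P (z : ℂ) : ℂ := logDeriv Yz z

/-- Gaussian weight of a zero, `e^{(b - i t)² / 2}` -/
noncomputable def gw (t : ℝ) (b : ℂ) : ℂ := cexp ((b - I * t) ^ 2 / 2)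

/-- the zero side of the explicit formula -/
noncomputable def G (u t : ℝ) : ℂ := ∑' b : Zr, (mu b : ℂ) * cexp (u * (b : ℂ)) * gw t b

/-- the Gaussian local part of `P` -/
noncomputable def S (z : ℂ) (t : ℝ) : ℂ := ∑' b : Zr, (mu b : ℂ) * gw t b / (z - (b : ℂ))

/-- smooth cut-off: `1` on `[0, U/2]`, linear down to `0` at `U` -/
noncomputable def wt (U u : ℝ) : ℝ := min 1 (2 * (1 - u / U))

/-- truncated Laplace transform of the zero side -/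
noncomputable def SU (U : ℝ) (z : ℂ) (t : ℝ) : ℂ :=
  ∫ u in (0 : ℝ)..U, (wt U u : ℂ) * cexp (-(u * z)) * G u t

/-- truncated Laplace transform of the prime side -/
noncomputable def Dp (U : ℝ) (z : ℂ) (t : ℝ) : ℂ :=
  ∫ u in (0 : ℝ)..U, (wt U u : ℂ) * cexp (-(u * z)) * H370.PP H370.A2.lamC u t

/-- weighted sum over the zeros controlling the truncation -/
noncomputable def Q (U x t : ℝ) : ℝ :=
  ∑' b : Zr, mu b * Real.exp (U * |(b : ℂ).re|) * Real.exp (-((b : ℂ).im - t) ^ 2 / 2) /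
    (x + |(b : ℂ).im - t|) ^ 2

/-- no zeros in a cone with vertex near `i t` -/
def CF (t y0 M : ℝ) : Prop :=
  ∀ b : ℂ, Yz b = 0 → |b.re| ≤ y0 / 4 ∨ |b.re| ≤ |b.im - t| / (8 * M)

/-- the truncated cone -/
def Kt (t y0 x1 M : ℝ) : Set ℂ := {z | y0 ≤ z.re ∧ z.re ≤ x1 ∧ |z.im - t| ≤ M * z.re}

/-! ### The statements -/

/-- local count of the zeros -/
def S_Z1 : Prop :=
  ∃ C : ℝ, 0 < C ∧ ∀ t : ℝ, ∀ B : Finset ℂ, (∀ b ∈ B, Yz b = 0) →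
    ∑ b ∈ B, mu b / (1 + (t - b.im) ^ 2) ≤ C * Real.log (2 + |t|)

/-- exponential moment of the distances from the line -/
def S_EXPW : Prop :=
  ∃ C T0 : ℝ, 0 < C ∧ 10 ≤ T0 ∧ ∀ T : ℝ, T0 ≤ T → ∀ B : Finset ℂ,
    (∀ b ∈ B, Yz b = 0 ∧ T / 4 ≤ |b.im| ∧ |b.im| ≤ 8 * T) →
    ∑ b ∈ B, mu b * Real.exp (Real.log T / 4 * |b.re|) ≤ C * T * Real.log T

/-- most points see no zeros in the cone -/
def S_CONE : Prop :=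
  ∀ M : ℝ, 1 ≤ M → ∃ C T0 : ℝ, 0 < C ∧ 10 ≤ T0 ∧ ∀ T : ℝ, T0 ≤ T → ∀ y0 : ℝ, 0 < y0 →
    volume {t : ℝ | t ∈ Icc T (2 * T) ∧ ¬ CF t y0 M} ≤
      ENNReal.ofReal (C * T * Real.exp (-(y0 * Real.log T / 128)))

/-- weak type bound for `Q` -/
def S_QM : Prop :=
  ∃ C T0 : ℝ, 0 < C ∧ 10 ≤ T0 ∧ ∀ T : ℝ, T0 ≤ T → ∀ x Λ : ℝ, 0 < x → x ≤ 1 → 0 < Λ →
    volume {t : ℝ | t ∈ Icc T (2 * T) ∧ Λ < Q (Real.log T / 16) x t} ≤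
      ENNReal.ofReal (C * T * Real.log T / (x * Λ))

/-- `P - S` is Lipschitz on the cone -/
def S_E1 : Prop :=
  ∀ M : ℝ, 1 ≤ M → ∃ C : ℝ, 0 < C ∧ ∀ t y0 x1 : ℝ, 1 ≤ t → 0 < y0 → x1 ≤ 1 → CF t y0 M →
    ∀ z ∈ Kt t y0 x1 M, ∀ z' ∈ Kt t y0 x1 M,
      ‖(P z - P z') - (S z t - S z' t)‖ ≤ C * x1 * Real.log (2 + t)

/-- truncation of `S` -/
def S_E2 : Prop :=
  ∃ C : ℝ, 0 < C ∧ ∀ M t y0 U : ℝ, 1 ≤ M → 0 < y0 → 1 ≤ U → CF t y0 M →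
    ∀ z ∈ Kt t y0 1 M, ‖S z t - SU U z t‖ ≤ C * M ^ 2 / U * Real.exp (-(z.re * U / 2)) * Q U z.re t

/-- explicit formula with Gaussian weights -/
def S_EF : Prop :=
  ∃ C T0 : ℝ, 0 < C ∧ 10 ≤ T0 ∧ ∀ T : ℝ, T0 ≤ T → ∀ t u : ℝ, T ≤ t → t ≤ 2 * T →
    0 ≤ u → u ≤ Real.log T / 2 →
      ‖G u t - (1 / Real.sqrt (2 * Real.pi) : ℝ) * (Real.log T * cexp (I * u * t) *
        Real.exp (-u ^ 2 / 2) - H370.PP H370.A2.lamC u t)‖ ≤ C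

/-- mean square of the prime side, at distance `x` from the line -/
def S_DM : Prop :=
  ∃ C T0 : ℝ, 0 < C ∧ 10 ≤ T0 ∧ ∀ T : ℝ, T0 ≤ T → ∀ x v : ℝ, 0 < x → x ≤ 3 →
    ∫⁻ t in Icc T (2 * T), ENNReal.ofReal (‖Dp (Real.log T / 16) (x + I * (t + v)) t‖ ^ 2) ≤
      ENNReal.ofReal (C * T / x ^ 2)

/-- most points have a small prime side on the whole cone -/
def S_DALL : Prop :=
  ∀ M : ℝ, 1 ≤ M → ∃ C T0 : ℝ, 0 < C ∧ 10 ≤ T0 ∧ ∀ T : ℝ, T0 ≤ T → ∀ y0 Λ : ℝ,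
    0 < y0 → 0 < Λ →
    volume {t : ℝ | t ∈ Icc T (2 * T) ∧
      ∃ z ∈ Kt t y0 1 M, Λ < ‖Dp (Real.log T / 16) z t‖} ≤
      ENNReal.ofReal (C * T / (y0 * Λ) ^ 2)

/-- most windows have small values of zeta -/
def S_GW : Prop :=
  ∀ R η ε : ℝ, 0 < R → 0 < η → 0 < ε → ∃ T0 : ℝ, 10 ≤ T0 ∧ ∀ T : ℝ, T0 ≤ T →
    volume {t : ℝ | t ∈ Icc T (2 * T) ∧
      ∃ y : ℝ, |y - t| ≤ R ∧ T ^ η < ‖riemannZeta (1 / 2 + I * y)‖} ≤ ENNReal.ofReal (ε * T)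

/-- at a fixed distance from the line, `P` is close to `(log T) / 2` for most points -/
def S_ANC : Prop :=
  ∀ x1 κ R ε : ℝ, 0 < x1 → 0 < κ → 0 < R → 0 < ε → ∃ T0 : ℝ, 10 ≤ T0 ∧ ∀ T : ℝ, T0 ≤ T →
    volume {t : ℝ | t ∈ Icc T (2 * T) ∧ ∃ z : ℂ, x1 ≤ z.re ∧ z.re ≤ 4 ∧ |z.im - t| ≤ R ∧
      κ * Real.log T < ‖P z - (Real.log T / 2 : ℝ)‖} ≤ ENNReal.ofReal (ε * T)

/-- monotonicity of `|Yz|` on horizontal segments -/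
def S_MONO : Prop :=
  ∀ x X y : ℝ, 0 ≤ x → x ≤ X →
    (∀ b : ℂ, Yz b = 0 → 2 * b.re ^ 2 ≤ X ^ 2 + 2 * (b.im - y) ^ 2) →
    ‖Yz (x + I * y)‖ ≤ ‖Yz (X + I * y)‖

/-- small variation of `P` on the cone, for most points -/
def S_VAR : Prop :=
  ∀ M κ : ℝ, 1 ≤ M → 0 < κ → ∃ x1 : ℝ, 0 < x1 ∧ x1 ≤ 1 ∧ ∀ ε : ℝ, 0 < ε →
    ∃ A1 T0 : ℝ, 1 ≤ A1 ∧ 10 ≤ T0 ∧ ∀ T : ℝ, T0 ≤ T →
    volume {t : ℝ | t ∈ Icc T (2 * T) ∧ ¬ (CF t (A1 / Real.log T) M ∧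
      ∀ z ∈ Kt t (A1 / Real.log T) x1 M, ∀ z' ∈ Kt t (A1 / Real.log T) x1 M,
        ‖P z - P z'‖ ≤ κ * Real.log T)} ≤ ENNReal.ofReal (ε * T)

/-- the regular points -/
def S_REG : Prop :=
  ∀ M κ ε : ℝ, 1 ≤ M → 0 < κ → 0 < ε →
    ∃ A1 T0 : ℝ, 1 ≤ A1 ∧ 10 ≤ T0 ∧ ∀ T : ℝ, T0 ≤ T →
    volume {t : ℝ | t ∈ Icc T (2 * T) ∧ ¬ (CF t (A1 / Real.log T) M ∧
      ∀ z ∈ Kt t (A1 / Real.log T) 4 M, ‖P z - (Real.log T / 2 : ℝ)‖ ≤ κ * Real.log T)} ≤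
      ENNReal.ofReal (ε * T)

end Pool.Agent.H466.HP
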