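import Pool.Agent.H466.LD.L21

/-!
# Statements: integration over the windows, and de Bruijn's strip
-/

set_option autoImplicit false

namespace Pool.Agent.H466.HP

open Complex MeasureTheory Set Filter Topology
open Pool.Agent.H466.HF Pool.Agent.H466.LD

/-- many points in most windows give many points -/
def S_INTLOW : Prop :=
  ∀ (Z : Finset ℝ) (Bad : Set ℝ) (T1 T2 a h n β : ℝ), T1 ≤ T2 → 0 < h → 0 ≤ n → 0 ≤ β →
    volume Bad ≤ ENNReal.ofReal β →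
    (∀ t ∈ Icc T1 T2, t ∉ Bad →
      n ≤ ((Z.filter fun y : ℝ => t + a < y ∧ y < t + a + h).card : ℝ)) →
    n * (T2 - T1 - β) ≤ h * (Z.card : ℝ)

/-- the weight `log (R / (|v| + 2))` for `|v| ≤ R - 2`, `0` elsewhere -/
noncomputable def phi (R v : ℝ) : ℝ := max 0 (Real.log (R / (|v| + 2)))

/-- weighted sums in windows give an upper bound for the total mass -/
def S_INTUP : Prop :=
  ∀ (ι : Type) (Z : Finset ι) (m γ : ι → ℝ) (Bad : Set ℝ) (T1 T2 R U V β : ℝ), T1 ≤ T2 → 2 < R →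
    0 ≤ U → 0 ≤ V → 0 ≤ β → (∀ i ∈ Z, 0 ≤ m i ∧ T1 + R ≤ γ i ∧ γ i ≤ T2 - R) →
    volume Bad ≤ ENNReal.ofReal β →
    (∀ t ∈ Icc T1 T2, t ∉ Bad → ∑ i ∈ Z, m i * phi R (γ i - t) ≤ U) →
    (∀ t ∈ Icc T1 T2, ∑ i ∈ Z, m i * phi R (γ i - t) ≤ V) →
    2 * (R - 2 - 2 * Real.log (R / 2)) * ∑ i ∈ Z, m i ≤ U * (T2 - T1) + V * β

/-- a counting version -/
def S_INTCNT : Prop :=
  ∀ (ι : Type) (Z : Finset ι) (m γ : ι → ℝ) (Bad : Set ℝ) (T1 T2 h U V β : ℝ), T1 ≤ T2 → 0 < h →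
    0 ≤ U → 0 ≤ V → 0 ≤ β → (∀ i ∈ Z, 0 ≤ m i ∧ T1 + h ≤ γ i ∧ γ i ≤ T2 - h) →
    volume Bad ≤ ENNReal.ofReal β →
    (∀ t ∈ Icc T1 T2, t ∉ Bad → ∑ i ∈ Z with |γ i - t| ≤ h, m i ≤ U) →
    (∀ t ∈ Icc T1 T2, ∑ i ∈ Z with |γ i - t| ≤ h, m i ≤ V) →
    2 * h * ∑ i ∈ Z, m i ≤ U * (T2 - T1) + V * β

/-- de Bruijn: the zeros of the heat flow are in the strip -/
def S_STRIP : Prop :=
  ∀ (lam : ℝ) (z : ℂ), 0 < lam → LL gk lam z = 0 → |z.re| ≤ 1 / 2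

end Pool.Agent.H466.HP
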